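import Mathlib

open Set Metric Complex
open scoped ENNReal NNReal

namespace Pool.Agent.Lib.MP_c751e8_an

/-- The standing assumptions on `ω : [0, ∞) → [0, ∞)`: continuous, nondecreasing and positive
on `(0, ∞)`. -/
structure IsGauge (ω : ℝ≥0 → ℝ≥0) : Prop where
  continuous : Continuous ω
  monotone : Monotone ω
  pos : ∀ t, 0 < t → 0 < ω t

/-- The class `C^ω(G)`: on every compact subset of `G`, `|g u - g v| = O(ω(|u - v|))` as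
`|u - v| → 0`. -/
def BigO (ω : ℝ≥0 → ℝ≥0) (G : Set ℂ) : Set (ℂ → ℝ) :=
  {g | ∀ K ⊆ G, IsCompact K → ∃ C : ℝ, ∃ δ : ℝ, 0 < δ ∧
    ∀ u ∈ K, ∀ v ∈ K, dist u v < δ → |g u - g v| ≤ C * ω (nndist u v)}

/-- The class `C^ω_*(G)`: the same with `o` in place of `O`. -/
def LittleO (ω : ℝ≥0 → ℝ≥0) (G : Set ℂ) : Set (ℂ → ℝ) :=
  {g | ∀ K ⊆ G, IsCompact K → ∀ ε : ℝ, 0 < ε → ∃ δ : ℝ, 0 < δ ∧
    ∀ u ∈ K, ∀ v ∈ K, dist u v < δ → |g u - g v| ≤ ε * ω (nndist u v)}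

/-- The class `C^{1,ω}(G)`: continuously differentiable real functions on `G` whose two partial
derivatives lie in `C^ω(G)`. -/
def C1BigO (ω : ℝ≥0 → ℝ≥0) (G : Set ℂ) : Set (ℂ → ℝ) :=
  {f | ContDiffOn ℝ 1 f G ∧ (fun z => fderiv ℝ f z 1) ∈ BigO ω G ∧
    (fun z => fderiv ℝ f z I) ∈ BigO ω G}

/-- The class `C^{1,ω}_*(G)`. -/
def C1LittleO (ω : ℝ≥0 → ℝ≥0) (G : Set ℂ) : Set (ℂ → ℝ) :=
  {f | ContDiffOn ℝ 1 f G ∧ (fun z => fderiv ℝ f z 1) ∈ LittleO ω G ∧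
    (fun z => fderiv ℝ f z I) ∈ LittleO ω G}

/-- The class `S(G)` of (real valued) subharmonic functions on `G`: upper semicontinuous, with
the sub-mean value inequality on every closed disc in `G`. -/
def Subharmonic (G : Set ℂ) : Set (ℂ → ℝ) :=
  {f | UpperSemicontinuousOn f G ∧ ∀ (c : ℂ) (r : ℝ), 0 < r → closedBall c r ⊆ G →
    CircleIntegrable f c r ∧ f c ≤ Real.circleAverage f c r}

/-- The Hausdorff measure `Λ_ω` of a set `E ⊆ ℝ`: the supremum (limit) over `δ > 0` of the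
infimum of `∑ ω(diam U_i)` over countable covers of `E` by sets of diameter `< δ`
(empty sets contribute nothing). -/
noncomputable def Lam (ω : ℝ≥0 → ℝ≥0) (E : Set ℝ) : ℝ≥0∞ :=
  ⨆ (δ : ℝ≥0∞) (_ : 0 < δ), ⨅ (U : ℕ → Set ℝ) (_ : E ⊆ ⋃ i, U i) (_ : ∀ i, ediam (U i) < δ),
    ∑' i, ⨆ (_ : (U i).Nonempty), (ω (ediam (U i)).toNNReal : ℝ≥0∞)

/-- `E` is negligible `(K, K')`. -/
def Negligible (K K' : Set ℂ → Set (ℂ → ℝ)) (E : Set ℝ) : Prop :=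
  ∀ G : Set ℂ, IsOpen G → ∀ f ∈ K G,
    (∃ G' : Set ℂ, IsOpen G' ∧ G' ⊆ G ∧ f ∈ K' G' ∧ f '' (G \ G') ⊆ E) → f ∈ K' G

end Pool.Agent.Lib.MP_c751e8_an
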