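import Mathlib

open MeasureTheory Filter Topology Set Metric Complex ComplexConjugate

namespace Pool.Agent.Lib.MP_c751e8_an

/-- `f` is touched from above at `z` by a strictly superharmonic quadratic polynomial. -/
def Touch (f : ℂ → ℝ) (z : ℂ) : Prop :=
  ∃ b e : ℂ, ∃ κ > (0 : ℝ), ∃ ρ > (0 : ℝ), ∀ w ∈ ball z ρ,
    f w ≤ f z + (b * (w - z) + e * (w - z) ^ 2).re - κ * ‖w - z‖ ^ 2

/-- sub-mean value property on an open set -/
def SubMean (f : ℂ → ℝ) (G : Set ℂ) : Prop :=
  ∀ (c : ℂ) (r : ℝ), 0 < r → closedBall c r ⊆ G → f c ≤ Real.circleAverage f c r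

lemma circleAverage_quad (b e z : ℂ) (r : ℝ) (a : ℝ) :
    Real.circleAverage (fun w => a + (b * (w - z) + e * (w - z) ^ 2).re) z r = a := by
  have hd : Differentiable ℂ (fun w : ℂ => (a : ℂ) + (b * (w - z) + e * (w - z) ^ 2)) := by
    fun_prop
  have h1 : Real.circleAverage (fun w : ℂ => (a : ℂ) + (b * (w - z) + e * (w - z) ^ 2)) z r
      = (a : ℂ) + (b * (z - z) + e * (z - z) ^ 2) :=
    (hd.diffContOnCl (s := ball z |r|)).circleAverage
  have h2 := Complex.reCLM.circleAverage_comp_comm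
    (f := (fun w : ℂ => (a : ℂ) + (b * (w - z) + e * (w - z) ^ 2))) (c := z) (R := r)
    (hd.continuous.continuousOn.circleIntegrable')
  rw [h1] at h2
  simpa [Function.comp_def] using h2

/-- Claim 1: the sub-mean value property excludes touching. -/
lemma not_touch_of_subMean {f : ℂ → ℝ} {G : Set ℂ} (hG : IsOpen G) (hf : ContinuousOn f G)
    (hm : SubMean f G) {z : ℂ} (hz : z ∈ G) : ¬ Touch f z := by
  rintro ⟨b, e, κ, hκ, ρ, hρ, h⟩
  obtain ⟨r0, hr0, hr0G⟩ := Metric.isOpen_iff.1 hG z hz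
  set r : ℝ := min r0 ρ / 2 with hr
  have hrpos : 0 < r := by positivity
  have hr1 : r < r0 := by have := min_le_left r0 ρ; have : 0 < min r0 ρ := by positivity
                          linarith [min_le_left r0 ρ]
  have hr2 : r < ρ := by have : 0 < min r0 ρ := by positivity
                         linarith [min_le_right r0 ρ]
  have hcl : closedBall z r ⊆ G := (closedBall_subset_ball hr1).trans hr0G
  have h1 := hm z r hrpos hcl
  have h2 : Real.circleAverage f z r ≤
      Real.circleAverage (fun w => (f z - κ * r ^ 2) + (b * (w - z) + e * (w - z) ^ 2).re) z r := by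
    apply Real.circleAverage_mono
    · exact (hf.mono (by rw [abs_of_pos hrpos]; exact sphere_subset_closedBall.trans hcl)).circleIntegrable'
    · apply ContinuousOn.circleIntegrable'
      fun_prop
    · intro x hx
      rw [abs_of_pos hrpos] at hx
      have hx' : ‖x - z‖ = r := by rwa [mem_sphere_iff_norm] at hx
      have := h x (by rw [mem_ball_iff_norm, hx']; exact hr2)
      rw [hx'] at this
      linarith
  rw [circleAverage_quad] at h2
  have : 0 < κ * r ^ 2 := by positivity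
  linarith

/-- derivative at a touching point -/
lemma touch_fderiv {f : ℂ → ℝ} {z b e : ℂ} {κ ρ : ℝ} (hρ : 0 < ρ) (hf : DifferentiableAt ℝ f z)
    (h : ∀ w ∈ ball z ρ, f w ≤ f z + (b * (w - z) + e * (w - z) ^ 2).re - κ * ‖w - z‖ ^ 2) (v : ℂ) :
    fderiv ℝ f z v = (b * v).re := by
  have hloc : ∀ᶠ t : ℝ in 𝓝 0, z + t • v ∈ ball z ρ := by
    have hc : Continuous fun t : ℝ => z + t • v := by fun_prop
    apply hc.continuousAt.eventually_mem
    simpa using ball_mem_nhds z hρ
  have hmax : IsLocalMax (fun t : ℝ => f (z + t • v) -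
      (t * (b * v).re + t ^ 2 * ((e * v ^ 2).re - κ * ‖v‖ ^ 2))) 0 := by
    filter_upwards [hloc] with t ht
    have := h _ ht
    have e1 : z + t • v - z = (t : ℂ) * v := by rw [Complex.real_smul]; ring
    rw [e1] at this
    have e2 : (b * ((t : ℂ) * v) + e * ((t : ℂ) * v) ^ 2).re
        = t * (b * v).re + t ^ 2 * (e * v ^ 2).re := by
      have : b * ((t : ℂ) * v) + e * ((t : ℂ) * v) ^ 2
          = (t : ℂ) * (b * v) + ((t ^ 2 : ℝ) : ℂ) * (e * v ^ 2) := by push_cast; ring
      rw [this, Complex.add_re, Complex.re_ofReal_mul, Complex.re_ofReal_mul]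
    rw [e2, norm_mul, Complex.norm_real, mul_pow, Real.norm_eq_abs, sq_abs] at this
    simp only [zero_smul, add_zero, zero_mul, ne_eq, OfNat.ofNat_ne_zero, not_false_eq_true,
      zero_pow, sub_zero]
    nlinarith
  have hd1 : HasDerivAt (fun t : ℝ => f (z + t • v)) (fderiv ℝ f z v) 0 := by
    have h1 : HasDerivAt (fun t : ℝ => z + t • v) v 0 := by
      simpa using ((hasDerivAt_id (0 : ℝ)).smul_const v).const_add z
    have h2 : HasFDerivAt f (fderiv ℝ f z) (z + (0 : ℝ) • v) := by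
      simpa using hf.hasFDerivAt
    exact h2.comp_hasDerivAt (0 : ℝ) h1
  have hd2 : HasDerivAt (fun t : ℝ => t * (b * v).re + t ^ 2 * ((e * v ^ 2).re - κ * ‖v‖ ^ 2))
      ((b * v).re) 0 := by
    have h1 : HasDerivAt (fun t : ℝ => t * (b * v).re) (1 * (b * v).re) 0 :=
      (hasDerivAt_id (0 : ℝ)).mul_const _
    have h2 : HasDerivAt (fun t : ℝ => t ^ 2 * ((e * v ^ 2).re - κ * ‖v‖ ^ 2))
        ((2 * (0 : ℝ) ^ (2 - 1)) * ((e * v ^ 2).re - κ * ‖v‖ ^ 2)) 0 :=
      (by simpa using (hasDerivAt_pow 2 (0 : ℝ))  : HasDerivAt (fun t : ℝ => t ^ 2) (2 * (0 : ℝ) ^ (2 - 1)) 0).mul_const _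
    have h3 := h1.fun_add h2
    have e3 : 1 * (b * v).re + (2 * (0 : ℝ) ^ (2 - 1)) * ((e * v ^ 2).re - κ * ‖v‖ ^ 2)
        = (b * v).re := by norm_num
    rwa [e3] at h3
  have := hmax.hasDerivAt_eq_zero (hd1.sub hd2)
  linarith

/-- Claim 3: if a `C¹`-like function is touched only at critical points, it is never touched. -/
theorem not_touch_of_crit {f : ℂ → ℝ} {G : Set ℂ} (hG : IsOpen G) (hf : DifferentiableOn ℝ f G)
    (h : ∀ z ∈ G, Touch f z → fderiv ℝ f z = 0) : ∀ z ∈ G, ¬ Touch f z := by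
  intro z0 hz0 ht
  have hcr0 := h z0 hz0 ht
  obtain ⟨b, e, κ0, hκ0, ρ0, hρ0, ht0⟩ := ht
  have hb : b = 0 := by
    have h1 := touch_fderiv hρ0 (hf.differentiableAt (hG.mem_nhds hz0)) ht0
    rw [hcr0] at h1
    have h2 := h1 1
    have h3 := h1 I
    simp at h2 h3
    exact Complex.ext (by simp [← h2]) (by simp [h3])
  subst hb
  -- choose a new curvature different from ‖e‖
  obtain ⟨κ, hκ, hκlt, hκe⟩ : ∃ κ : ℝ, 0 < κ ∧ κ < κ0 ∧ κ ≠ ‖e‖ := by
    by_cases h1 : κ0 / 2 = ‖e‖
    · exact ⟨κ0 / 3, by positivity, by linarith, by rw [← h1]; intro h2; linarith⟩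
    · exact ⟨κ0 / 2, by positivity, by linarith, h1⟩
  obtain ⟨r0, hr0, hr0G⟩ := Metric.isOpen_iff.1 hG z0 hz0
  set ρ : ℝ := min r0 ρ0 / 2 with hρdef
  have hmin : 0 < min r0 ρ0 := by positivity
  have hρ : 0 < ρ := by positivity
  have hρ1 : ρ < r0 := by linarith [min_le_left r0 ρ0]
  have hρ2 : ρ < ρ0 := by linarith [min_le_right r0 ρ0]
  have hcl : closedBall z0 ρ ⊆ G := (closedBall_subset_ball hρ1).trans hr0G
  -- perturbed touching
  have key : ∀ p : ℂ, ‖p‖ < (κ0 - κ) * ρ → ∃ u : ℂ, ‖u‖ < ρ ∧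
      p = 2 * κ * conj u - 2 * e * u ∧
      ∀ w ∈ ball z0 ρ, f w ≤ f (z0 + u) + (e * (w - (z0 + u)) ^ 2).re
        - κ * ‖w - (z0 + u)‖ ^ 2 := by
    intro p hp
    set g : ℂ → ℝ := fun w => f w - ((e * (w - z0) ^ 2).re - κ * ‖w - z0‖ ^ 2) - (p * (w - z0)).re
      with hg
    have hgc : ContinuousOn g (closedBall z0 ρ) := by
      have hfc : ContinuousOn f (closedBall z0 ρ) := hf.continuousOn.mono hcl
      fun_prop
    obtain ⟨w0, hw0, hw0max⟩ := (isCompact_closedBall z0 ρ).exists_isMaxOn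
      ⟨z0, mem_closedBall_self hρ.le⟩ hgc
    have hmax : ∀ w ∈ closedBall z0 ρ, g w ≤ g w0 := fun w hw => hw0max hw
    have hge : f z0 ≤ g w0 := by
      have := hmax z0 (mem_closedBall_self hρ.le)
      simpa [hg] using this
    -- `w0` is interior
    have hw0' : ‖w0 - z0‖ ≤ ρ := by rwa [mem_closedBall_iff_norm] at hw0
    have hlt : ‖w0 - z0‖ < ρ := by
      rcases lt_or_eq_of_le hw0' with h1 | h1
      · exact h1
      · exfalso
        have h2 := ht0 w0 (by rw [mem_ball_iff_norm]; linarith)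
        have h3 : -(‖p‖ * ρ) ≤ (p * (w0 - z0)).re := by
          have h4 := Complex.abs_re_le_norm (p * (w0 - z0))
          rw [norm_mul, h1] at h4
          exact (abs_le.1 h4).1
        have h5 : g w0 < f z0 := by
          simp only [hg]
          rw [h1] at h2 ⊢
          simp only [zero_mul, zero_add] at h2
          nlinarith
        linarith
    set u : ℂ := w0 - z0 with hu
    have hw0u : w0 = z0 + u := by rw [hu]; ring
    have hw0G : w0 ∈ G := hcl hw0
    -- touching at `w0`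
    set b' : ℂ := p + 2 * e * u - 2 * κ * conj u with hb'
    have hex : ∀ w ∈ closedBall z0 ρ,
        f w ≤ f w0 + (b' * (w - w0) + e * (w - w0) ^ 2).re - κ * ‖w - w0‖ ^ 2 := by
      intro w hw
      have h1 := hmax w hw
      simp only [hg] at h1
      have h2 : ‖w - z0‖ ^ 2 = ‖w - w0‖ ^ 2 + 2 * (conj u * (w - w0)).re + ‖w0 - z0‖ ^ 2 := by
        have e1 : w - z0 = (w - w0) + u := by rw [hu]; ring
        rw [e1, ← hu]
        rw [← Complex.normSq_eq_norm_sq, ← Complex.normSq_eq_norm_sq, ← Complex.normSq_eq_norm_sq,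
          Complex.normSq_add]
        have e2 : ((w - w0) * conj u).re = (conj u * (w - w0)).re := by rw [mul_comm]
        rw [e2]; ring
      have h3 : (e * (w - z0) ^ 2).re = (e * (w - w0) ^ 2).re + (2 * e * u * (w - w0)).re
          + (e * (w0 - z0) ^ 2).re := by
        rw [← Complex.add_re, ← Complex.add_re]
        congr 1
        rw [hu]; ring
      have h4 : (p * (w - z0)).re = (p * (w - w0)).re + (p * (w0 - z0)).re := by
        rw [← Complex.add_re]
        congr 1
        ring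
      have h5 : (b' * (w - w0) + e * (w - w0) ^ 2).re = (p * (w - w0)).re +
          (2 * e * u * (w - w0)).re - 2 * κ * (conj u * (w - w0)).re + (e * (w - w0) ^ 2).re := by
        have e1 : b' * (w - w0) + e * (w - w0) ^ 2 = p * (w - w0) + 2 * e * u * (w - w0)
            - ((2 * κ : ℝ) : ℂ) * (conj u * (w - w0)) + e * (w - w0) ^ 2 := by
          rw [hb']; push_cast; ring
        rw [e1, Complex.add_re, Complex.sub_re, Complex.add_re, Complex.re_ofReal_mul]
      rw [h5]
      rw [h2, h3, h4] at h1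
      linarith
    obtain ⟨r1, hr1, hr1s⟩ := Metric.isOpen_iff.1 (isOpen_ball (x := z0) (ε := ρ)) w0
      (by rw [mem_ball_iff_norm]; exact hlt)
    have htouch : Touch f w0 := by
      refine ⟨b', e, κ, hκ, r1, hr1, fun w hw => hex w (ball_subset_closedBall (hr1s hw))⟩
    have hcr := h w0 hw0G htouch
    have hb0 : b' = 0 := by
      have h1 := touch_fderiv hr1 (hf.differentiableAt (hG.mem_nhds hw0G))
        (fun w hw => hex w (ball_subset_closedBall (hr1s hw)))
      rw [hcr] at h1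
      have h2 := h1 1
      have h3 := h1 I
      simp only [ContinuousLinearMap.zero_apply, mul_one, Complex.mul_re, I_re, mul_zero, I_im,
        zero_sub] at h2 h3
      exact Complex.ext (by simp [← h2]) (by simp; linarith)
    refine ⟨u, hlt, ?_, ?_⟩
    · rw [hb'] at hb0
      linear_combination hb0
    · intro w hw
      have h1 := hex w (ball_subset_closedBall hw)
      rw [hb0, zero_mul, zero_add, hw0u] at h1
      exact h1
  -- the contact points fill a ball
  obtain ⟨r1, hr1, hr1ρ, hfill⟩ : ∃ r1 : ℝ, 0 < r1 ∧ r1 ≤ ρ ∧ ∀ u0 : ℂ, ‖u0‖ < r1 →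
      ∀ w ∈ ball z0 ρ, f w ≤ f (z0 + u0) + (e * (w - (z0 + u0)) ^ 2).re
        - κ * ‖w - (z0 + u0)‖ ^ 2 := by
    have hden : 0 < 2 * κ + 2 * ‖e‖ := by positivity
    refine ⟨min ρ ((κ0 - κ) * ρ / (2 * κ + 2 * ‖e‖)), ?_, min_le_left _ _, ?_⟩
    · have : 0 < κ0 - κ := by linarith
      positivity
    · intro u0 hu0
      have hu1 : ‖u0‖ < (κ0 - κ) * ρ / (2 * κ + 2 * ‖e‖) := lt_of_lt_of_le hu0 (min_le_right _ _)
      rw [lt_div_iff₀ hden] at hu1
      obtain ⟨u, hu, hpu, hw⟩ := key (2 * κ * conj u0 - 2 * e * u0) (by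
        calc ‖2 * (κ : ℂ) * conj u0 - 2 * e * u0‖ ≤ ‖2 * (κ : ℂ) * conj u0‖ + ‖2 * e * u0‖ :=
              norm_sub_le _ _
          _ = ‖u0‖ * (2 * κ + 2 * ‖e‖) := by
              rw [norm_mul, norm_mul, norm_mul, norm_mul, Complex.norm_conj, Complex.norm_real,
                Real.norm_eq_abs, abs_of_pos hκ, Complex.norm_two]
              ring
          _ < _ := hu1)
      have h1 : (κ : ℂ) * conj (u0 - u) = e * (u0 - u) := by
        rw [map_sub]
        linear_combination hpu / 2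
      have h2 : κ * ‖u0 - u‖ = ‖e‖ * ‖u0 - u‖ := by
        have := congrArg norm h1
        rwa [norm_mul, norm_mul, Complex.norm_conj, Complex.norm_real, Real.norm_eq_abs,
          abs_of_pos hκ] at this
      have h3 : ‖u0 - u‖ = 0 := by
        by_contra hne
        exact hκe (mul_right_cancel₀ hne h2)
      have h4 : u0 = u := by rwa [norm_eq_zero, sub_eq_zero] at h3
      rw [h4]; exact hw
  -- contradiction
  have pair : ∀ v : ℂ, ‖v‖ < r1 → 0 ≤ (e * v ^ 2).re - κ * ‖v‖ ^ 2 := by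
    intro v hv
    have h1 := hfill 0 (by simpa using hr1) (z0 + v) (by
      rw [mem_ball_iff_norm]; simp; linarith)
    have h2 := hfill v hv z0 (mem_ball_self hρ)
    have e1 : z0 + v - (z0 + 0) = v := by ring
    have e2 : z0 - (z0 + v) = -v := by ring
    rw [e1, add_zero] at h1
    rw [e2, norm_neg, neg_sq] at h2
    linarith
  have hv1 := pair ((r1 / 2 : ℝ) : ℂ) (by
    rw [Complex.norm_real, Real.norm_eq_abs, abs_of_pos (by positivity)]; linarith)
  have hv2 := pair (((r1 / 2 : ℝ) : ℂ) * I) (by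
    rw [norm_mul, Complex.norm_I, mul_one, Complex.norm_real, Real.norm_eq_abs,
      abs_of_pos (by positivity)]; linarith)
  rw [mul_pow, I_sq, norm_mul, Complex.norm_I, mul_one] at hv2
  have e1 : (e * ((((r1 / 2 : ℝ) : ℂ)) ^ 2 * -1)).re = -(e * (((r1 / 2 : ℝ) : ℂ)) ^ 2).re := by
    rw [← Complex.neg_re]; congr 1; ring
  rw [e1] at hv2
  have e2 : 0 < κ * ‖((r1 / 2 : ℝ) : ℂ)‖ ^ 2 := by
    have : ‖((r1 / 2 : ℝ) : ℂ)‖ = r1 / 2 := by
      rw [Complex.norm_real, Real.norm_eq_abs, abs_of_pos (by positivity)]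
    rw [this]; positivity
  linarith

end Pool.Agent.Lib.MP_c751e8_an
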