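import Mathlib
import Pool.Agent.Lib.MP_c751e8_an.Touch

open MeasureTheory Filter Topology Set Metric Complex ComplexConjugate Polynomial

namespace Pool.Agent.Lib.MP_c751e8_an

local instance instTwoPiPos' : Fact (0 < 2 * Real.pi) := Fact.mk Real.two_pi_pos

/-- trigonometric polynomials as `P(z) + conj Q(z)` -/
lemma exists_poly_of_mem_span {T : C(AddCircle (2 * Real.pi), ℂ)}
    (hT : T ∈ Submodule.span ℂ (range (@fourier (2 * Real.pi)))) :
    ∃ P Q : ℂ[X], ∀ t, T t = P.eval (AddCircle.toCircle t : ℂ) + conj (Q.eval (AddCircle.toCircle t : ℂ)) := by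
  induction hT using Submodule.span_induction with
  | mem x h =>
    obtain ⟨n, rfl⟩ := h
    rcases le_total 0 n with hn | hn
    · obtain ⟨k, rfl⟩ := Int.eq_ofNat_of_zero_le hn
      refine ⟨X ^ k, 0, fun t => ?_⟩
      simp [fourier_apply, AddCircle.toCircle_nsmul]
    · obtain ⟨k, hk⟩ := Int.eq_ofNat_of_zero_le (neg_nonneg.2 hn)
      refine ⟨0, X ^ k, fun t => ?_⟩
      have : n = -(k : ℤ) := by omega
      rw [this, fourier_neg]
      simp [fourier_apply, AddCircle.toCircle_nsmul]
  | zero => exact ⟨0, 0, fun t => by simp⟩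
  | add x y _ _ hx hy =>
    obtain ⟨P, Q, h⟩ := hx
    obtain ⟨P', Q', h'⟩ := hy
    refine ⟨P + P', Q + Q', fun t => ?_⟩
    rw [ContinuousMap.add_apply, h, h', eval_add, eval_add, map_add]
    ring
  | smul a x _ hx =>
    obtain ⟨P, Q, h⟩ := hx
    refine ⟨C a * P, C (conj a) * Q, fun t => ?_⟩
    rw [ContinuousMap.smul_apply, h, eval_mul, eval_mul, eval_C, eval_C, map_mul, smul_eq_mul]
    simp
    ring

/-- real parts of polynomials are dense in the continuous functions on a circle -/
lemma exists_poly_approx {f : ℂ → ℝ} {c : ℂ} {r : ℝ} (hr : 0 < r)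
    (hf : ContinuousOn f (sphere c r)) {ε : ℝ} (hε : 0 < ε) :
    ∃ P : ℂ[X], ∀ w ∈ sphere c r, |f w - (P.eval ((w - c) / r)).re| < ε := by
  let g : C(AddCircle (2 * Real.pi), ℂ) :=
    { toFun := fun t => ((f (c + r * (AddCircle.toCircle t : ℂ)) : ℝ) : ℂ)
      continuous_toFun := by
        apply Complex.continuous_ofReal.comp
        apply hf.comp_continuous
        · have : Continuous fun t : AddCircle (2 * Real.pi) => (AddCircle.toCircle t : ℂ) :=
            continuous_subtype_val.comp AddCircle.continuous_toCircle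
          fun_prop
        · intro t
          rw [mem_sphere_iff_norm, add_sub_cancel_left, norm_mul, Circle.norm_coe, mul_one,
            Complex.norm_real, Real.norm_eq_abs, abs_of_pos hr] }
  have hg : g ∈ closure (Submodule.span ℂ (range (@fourier (2 * Real.pi))) : Set _) := by
    have h1 := span_fourier_closure_eq_top (T := 2 * Real.pi)
    have h2 : g ∈ (Submodule.span ℂ (range (@fourier (2 * Real.pi)))).topologicalClosure := by
      rw [h1]; trivial
    exact h2
  rw [Metric.mem_closure_iff] at hg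
  obtain ⟨T, hT, hdist⟩ := hg ε hε
  obtain ⟨P, Q, hPQ⟩ := exists_poly_of_mem_span hT
  refine ⟨P + Q, fun w hw => ?_⟩
  have hw' : ‖w - c‖ = r := by rwa [mem_sphere_iff_norm] at hw
  -- the point of the circle
  have hu : ‖(w - c) / r‖ = 1 := by
    rw [norm_div, hw', Complex.norm_real, Real.norm_eq_abs, abs_of_pos hr, div_self hr.ne']
  obtain ⟨t, ht⟩ : ∃ t : AddCircle (2 * Real.pi), (AddCircle.toCircle t : ℂ) = (w - c) / r := by
    have : Function.Surjective (AddCircle.toCircle (T := 2 * Real.pi)) := by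
      intro z
      obtain ⟨t, ht⟩ := (AddCircle.homeomorphCircle (T := 2 * Real.pi) (by positivity)).surjective z
      exact ⟨t, by rw [← ht, AddCircle.homeomorphCircle_apply]⟩
    obtain ⟨t, ht⟩ := this ⟨(w - c) / r, mem_sphere_zero_iff_norm.2 hu⟩
    exact ⟨t, by rw [ht]⟩
  have h1 : dist (g t) (T t) < ε := lt_of_le_of_lt (ContinuousMap.dist_apply_le_dist t) hdist
  rw [hPQ, ht] at h1
  have h2 : g t = ((f w : ℝ) : ℂ) := by
    show ((f (c + r * (AddCircle.toCircle t : ℂ)) : ℝ) : ℂ) = _
    rw [ht]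
    congr 2
    have hrc : (r : ℂ) ≠ 0 := by exact_mod_cast hr.ne'
    field_simp
    ring
  rw [h2, dist_eq_norm] at h1
  have h3 := Complex.abs_re_le_norm (((f w : ℝ) : ℂ) -
    (eval ((w - c) / ↑r) P + conj (eval ((w - c) / ↑r) Q)))
  refine lt_of_le_of_lt (le_of_eq ?_) (lt_of_le_of_lt h3 h1)
  simp

/-- second order expansion of a polynomial -/
lemma poly_expand (Q : ℂ[X]) (w0 : ℂ) :
    ∃ b e : ℂ, ∃ R : ℂ[X], ∀ w, Q.eval w = Q.eval w0 + b * (w - w0) + e * (w - w0) ^ 2
      + (w - w0) ^ 3 * R.eval (w - w0) := by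
  set S := taylor w0 Q with hS
  refine ⟨(divX S).coeff 0, (divX (divX S)).coeff 0, divX (divX (divX S)), fun w => ?_⟩
  have h0 : Q.eval w = S.eval (w - w0) := by
    rw [hS, taylor_eval]; congr 1; ring
  have h1 : Q.eval w0 = S.coeff 0 := by
    rw [hS, taylor_coeff_zero]
  have e1 := congrArg (eval (w - w0)) (divX_mul_X_add S)
  have e2 := congrArg (eval (w - w0)) (divX_mul_X_add (divX S))
  have e3 := congrArg (eval (w - w0)) (divX_mul_X_add (divX (divX S)))
  simp only [eval_add, eval_mul, eval_X, eval_C] at e1 e2 e3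
  rw [h0, h1, ← e1, ← e2, ← e3]
  ring

/-- Claim 4: a continuous function that is nowhere touched has the sub-mean value property. -/
theorem subMean_of_not_touch {f : ℂ → ℝ} {G : Set ℂ} (hf : ContinuousOn f G)
    (h : ∀ z ∈ G, ¬ Touch f z) : SubMean f G := by
  intro c r hr hcl
  by_contra hlt
  push Not at hlt
  set A := Real.circleAverage f c r with hA
  set ε : ℝ := (f c - A) / 4 with hε
  have hεpos : 0 < ε := by rw [hε]; linarith
  have hfs : ContinuousOn f (sphere c r) := hf.mono (sphere_subset_closedBall.trans hcl)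
  obtain ⟨P, hP⟩ := exists_poly_approx hr hfs hεpos
  set Q : ℂ[X] := P.comp (C ((r : ℂ)⁻¹) * (X - C c)) with hQ
  have hQe : ∀ w, Q.eval w = P.eval ((w - c) / r) := by
    intro w; rw [hQ]; simp [eval_comp, div_eq_inv_mul]
  -- mean value of the harmonic polynomial
  have hmv : Real.circleAverage (fun w => (Q.eval w).re) c r = (Q.eval c).re := by
    have hd : Differentiable ℂ (fun w : ℂ => Q.eval w) := Q.differentiable
    have h1 : Real.circleAverage (fun w : ℂ => Q.eval w) c r = Q.eval c :=
      (hd.diffContOnCl (s := ball c |r|)).circleAverage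
    have h2 := Complex.reCLM.circleAverage_comp_comm (f := (fun w : ℂ => Q.eval w)) (c := c)
      (R := r) (hd.continuous.continuousOn.circleIntegrable')
    rw [h1] at h2
    simpa [Function.comp_def] using h2
  have hle : (Q.eval c).re ≤ A + ε := by
    rw [← hmv]
    have h1 : Real.circleAverage (fun w => (Q.eval w).re) c r ≤
        Real.circleAverage (fun w => f w + ε) c r := by
      apply Real.circleAverage_mono
      · apply ContinuousOn.circleIntegrable'
        exact (Complex.continuous_re.comp Q.continuous).continuousOn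
      · apply ContinuousOn.circleIntegrable'
        rw [abs_of_pos hr]
        exact hfs.add continuousOn_const
      · intro w hw
        rw [abs_of_pos hr] at hw
        have := hP w hw
        rw [← hQe] at this
        have := (abs_lt.1 this).1
        linarith
    refine h1.trans (le_of_eq ?_)
    rw [Real.circleAverage_fun_add]
    · rw [Real.circleAverage_const]
    · apply ContinuousOn.circleIntegrable'
      rw [abs_of_pos hr]; exact hfs
    · exact continuousOn_const.circleIntegrable'
  set κ : ℝ := ε / r ^ 2 with hκ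
  have hκpos : 0 < κ := by positivity
  set F : ℂ → ℝ := fun w => f w - (Q.eval w).re - ε + κ * ‖w - c‖ ^ 2 with hF
  have hFc : ContinuousOn F (closedBall c r) := by
    have h1 : ContinuousOn f (closedBall c r) := hf.mono hcl
    have h2 : Continuous fun w : ℂ => (Q.eval w).re := Complex.continuous_re.comp Q.continuous
    have h3 : ContinuousOn (fun w : ℂ => (Q.eval w).re) (closedBall c r) := h2.continuousOn
    have h4 : ContinuousOn (fun w : ℂ => κ * ‖w - c‖ ^ 2) (closedBall c r) := by fun_prop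
    exact ((h1.sub h3).sub continuousOn_const).add h4
  obtain ⟨w0, hw0, hmax⟩ := (isCompact_closedBall c r).exists_isMaxOn
    ⟨c, mem_closedBall_self hr.le⟩ hFc
  have hmax' : ∀ w ∈ closedBall c r, F w ≤ F w0 := fun w hw => hmax hw
  have hFw0 : 2 * ε ≤ F w0 := by
    have h1 := hmax' c (mem_closedBall_self hr.le)
    have h2 : F c = f c - (Q.eval c).re - ε := by simp [hF]
    have h3 : f c - A = 4 * ε := by rw [hε]; ring
    linarith
  have hw0' : ‖w0 - c‖ ≤ r := by rwa [mem_closedBall_iff_norm] at hw0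
  have hw0lt : ‖w0 - c‖ < r := by
    rcases lt_or_eq_of_le hw0' with h1 | h1
    · exact h1
    · exfalso
      have h2 := hP w0 (by rw [mem_sphere_iff_norm]; exact h1)
      rw [← hQe] at h2
      have h3 := (abs_lt.1 h2).2
      have h4 : F w0 < ε := by
        simp only [hF]
        rw [h1, hκ, div_mul_cancel₀ _ (by positivity)]
        linarith
      linarith
  obtain ⟨b, e, R, hR⟩ := poly_expand Q w0
  obtain ⟨r1, hr1, hr1s⟩ := Metric.isOpen_iff.1 (isOpen_ball (x := c) (ε := r)) w0
    (by rw [mem_ball_iff_norm]; exact hw0lt)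
  -- control of the cubic remainder
  obtain ⟨r2, hr2, hr2s⟩ : ∃ r2 > (0 : ℝ), ∀ v : ℂ, ‖v‖ < r2 → ‖v * R.eval v‖ < κ / 2 := by
    have hc : Continuous fun v : ℂ => v * R.eval v := continuous_id.mul R.continuous
    have h1 := Metric.continuousAt_iff.1 (hc.continuousAt (x := 0)) (κ / 2) (by positivity)
    obtain ⟨r2, hr2, h2⟩ := h1
    refine ⟨r2, hr2, fun v hv => ?_⟩
    have := h2 (x := v) (by rwa [dist_zero_right])
    simpa using this
  apply h w0 (hcl hw0)
  refine ⟨b - 2 * κ * conj (w0 - c), e, κ / 2, by positivity, min r1 r2, by positivity, ?_⟩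
  intro w hw
  rw [mem_ball_iff_norm] at hw
  have hw1 : w ∈ ball c r := hr1s (by rw [mem_ball_iff_norm]; exact lt_of_lt_of_le hw (min_le_left _ _))
  have h1 := hmax' w (ball_subset_closedBall hw1)
  simp only [hF] at h1
  have h2 : ‖w - c‖ ^ 2 = ‖w - w0‖ ^ 2 + 2 * (conj (w0 - c) * (w - w0)).re + ‖w0 - c‖ ^ 2 := by
    have e1 : w - c = (w - w0) + (w0 - c) := by ring
    rw [e1]
    rw [← Complex.normSq_eq_norm_sq, ← Complex.normSq_eq_norm_sq, ← Complex.normSq_eq_norm_sq,
      Complex.normSq_add]
    have e2 : ((w - w0) * conj (w0 - c)).re = (conj (w0 - c) * (w - w0)).re := by rw [mul_comm]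
    rw [e2]; ring
  have h3 : (Q.eval w).re ≤ (Q.eval w0).re + (b * (w - w0) + e * (w - w0) ^ 2).re
      + κ / 2 * ‖w - w0‖ ^ 2 := by
    rw [hR w, Complex.add_re, Complex.add_re, Complex.add_re, Complex.add_re]
    have h4 : ((w - w0) ^ 3 * R.eval (w - w0)).re ≤ κ / 2 * ‖w - w0‖ ^ 2 := by
      calc ((w - w0) ^ 3 * R.eval (w - w0)).re ≤ ‖(w - w0) ^ 3 * R.eval (w - w0)‖ :=
            Complex.re_le_norm _
        _ = ‖w - w0‖ ^ 2 * ‖(w - w0) * R.eval (w - w0)‖ := by
            rw [← norm_pow, ← norm_mul]; congr 1; ring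
        _ ≤ ‖w - w0‖ ^ 2 * (κ / 2) := by
            have := hr2s (w - w0) (lt_of_lt_of_le hw (min_le_right _ _))
            gcongr
        _ = _ := by ring
    linarith
  have h5 : ((b - 2 * κ * conj (w0 - c)) * (w - w0) + e * (w - w0) ^ 2).re =
      (b * (w - w0) + e * (w - w0) ^ 2).re - 2 * κ * (conj (w0 - c) * (w - w0)).re := by
    have e1 : (b - 2 * κ * conj (w0 - c)) * (w - w0) + e * (w - w0) ^ 2 =
        (b * (w - w0) + e * (w - w0) ^ 2) - ((2 * κ : ℝ) : ℂ) * (conj (w0 - c) * (w - w0)) := by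
      push_cast; ring
    rw [e1, Complex.sub_re, Complex.re_ofReal_mul]
  rw [h5]
  rw [h2] at h1
  nlinarith

end Pool.Agent.Lib.MP_c751e8_an
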