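import Mathlib

open MeasureTheory Filter Topology Set Metric

namespace Pool.Agent.Lib.MP_c751e8_an

/-- A continuous function which is locally nondecreasing to the right of every point outside a
set with null image is monotone. -/
lemma monotone_of_null_image {M : ℝ → ℝ} (hM : Continuous M) {E : Set ℝ}
    (hE : volume (M '' E) = 0) (hloc : ∀ t ∉ E, ∀ᶠ s in 𝓝[>] t, M t ≤ M s) : Monotone M := by
  intro a b hab
  by_contra hlt
  push Not at hlt
  -- a value in the gap, not in the image of `E`
  obtain ⟨v, hv1, hv2⟩ : ∃ v ∈ Ioo (M b) (M a), v ∉ M '' E := by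
    by_contra hcon
    push Not at hcon
    have h1 : Ioo (M b) (M a) ⊆ M '' E := hcon
    have h2 := measure_mono_null h1 hE
    rw [Real.volume_Ioo, ENNReal.ofReal_eq_zero] at h2
    linarith
  set S : Set ℝ := {t ∈ Icc a b | v ≤ M t} with hS
  have hSne : S.Nonempty := ⟨a, ⟨left_mem_Icc.2 hab, hv1.2.le⟩⟩
  have hSbdd : BddAbove S := ⟨b, fun t ht => ht.1.2⟩
  have hSc : IsClosed S := isClosed_Icc.inter (isClosed_le continuous_const hM)
  set t0 := sSup S with ht0
  have ht0S : t0 ∈ S := hSc.csSup_mem hSne hSbdd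
  have ht0b : t0 < b := by
    rcases lt_or_eq_of_le ht0S.1.2 with h1 | h1
    · exact h1
    · exfalso
      have := ht0S.2
      rw [h1] at this
      linarith [hv1.1]
  have hgt : ∀ᶠ s in 𝓝[>] t0, s ≤ b := by
    have : ∀ᶠ s in 𝓝 t0, s < b := eventually_lt_nhds ht0b
    filter_upwards [this.filter_mono nhdsWithin_le_nhds] with s hs using hs.le
  have hMt0 : M t0 = v := by
    apply le_antisymm _ ht0S.2
    by_contra hne
    push Not at hne
    have h1 : ∀ᶠ s in 𝓝 t0, v < M s := hM.continuousAt.eventually_const_lt hne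
    obtain ⟨s, hs1, hs2, hs3⟩ := ((h1.filter_mono nhdsWithin_le_nhds).and
      (hgt.and (self_mem_nhdsWithin (s := Ioi t0)))).exists
    have hs : s ∈ S := ⟨⟨ht0S.1.1.trans (le_of_lt hs3), hs2⟩, hs1.le⟩
    exact absurd (le_csSup hSbdd hs) (not_le.2 hs3)
  have ht0E : t0 ∉ E := fun h => hv2 ⟨t0, h, hMt0⟩
  obtain ⟨s, hs1, hs2, hs3⟩ := ((hloc t0 ht0E).and
      (hgt.and (self_mem_nhdsWithin (s := Ioi t0)))).exists
  have hs : s ∈ S := ⟨⟨ht0S.1.1.trans (le_of_lt hs3), hs2⟩, by rw [← hMt0]; exact hs1⟩
  exact absurd (le_csSup hSbdd hs) (not_le.2 hs3)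

section Inverse

variable {k F : ℝ → ℝ → ℝ} {m0 : ℝ}

lemma slope_bound (hFd : ∀ x y, HasDerivAt (F x) (k x y) y) (hkm : ∀ x y, m0 ≤ k x y)
    (x : ℝ) {y y' : ℝ} (h : y ≤ y') : m0 * (y' - y) ≤ F x y' - F x y := by
  have hd : Differentiable ℝ (F x) := fun y => (hFd x y).differentiableAt
  exact Convex.mul_sub_le_image_sub_of_le_deriv convex_univ hd.continuous.continuousOn
    (hd.differentiableOn) (fun y _ => by rw [(hFd x y).deriv]; exact hkm x y)
    y (mem_univ _) y' (mem_univ _) h

lemma exists_inverse (hm0 : 0 < m0) (hF : Continuous (Function.uncurry F))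
    (hFd : ∀ x y, HasDerivAt (F x) (k x y) y) (hkm : ∀ x y, m0 ≤ k x y) :
    ∃ Y : ℝ → ℝ → ℝ, (∀ x t, F x (Y x t) = t) ∧ (∀ x y, Y x (F x y) = y) ∧
      (∀ x t t', |Y x t - Y x t'| ≤ |t - t'| / m0) ∧ Continuous (Function.uncurry Y) := by
  have hmono : ∀ x, StrictMono (F x) := by
    intro x y y' h
    have := slope_bound hFd hkm x h.le
    have h2 : 0 < m0 * (y' - y) := by have : 0 < y' - y := by linarith
                                      positivity
    linarith
  have hcont : ∀ x, Continuous (F x) := fun x =>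
    continuous_iff_continuousAt.2 fun y => (hFd x y).continuousAt
  have hsurj : ∀ x, Function.Surjective (F x) := by
    intro x
    apply (hcont x).surjective
    · have h1 : Tendsto (fun y : ℝ => F x 0 + m0 * y) atTop atTop :=
        tendsto_atTop_add_const_left _ _ (tendsto_id.const_mul_atTop hm0)
      refine tendsto_atTop_mono' _ ?_ h1
      filter_upwards [eventually_ge_atTop 0] with y hy
      have := slope_bound hFd hkm x hy
      linarith
    · have h1 : Tendsto (fun y : ℝ => F x 0 + m0 * y) atBot atBot :=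
        tendsto_atBot_add_const_left _ _ (tendsto_id.const_mul_atBot hm0)
      refine tendsto_atBot_mono' _ ?_ h1
      filter_upwards [eventually_le_atBot 0] with y hy
      have := slope_bound hFd hkm x hy
      linarith
  choose Y hY using fun x => (hsurj x)
  have hY2 : ∀ x y, Y x (F x y) = y := fun x y => (hmono x).injective (hY x _)
  have hlip : ∀ x t t', t ≤ t' → |Y x t - Y x t'| ≤ |t - t'| / m0 := by
    intro x t t' h
    have h1 : Y x t ≤ Y x t' := by
      rw [← (hmono x).le_iff_le, hY, hY]; exact h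
    have h2 := slope_bound hFd hkm x h1
    rw [hY, hY] at h2
    rw [abs_sub_comm, abs_of_nonneg (by linarith), abs_sub_comm, abs_of_nonneg (by linarith),
      le_div_iff₀ hm0]
    linarith
  refine ⟨Y, hY, hY2, fun x t t' => ?_, ?_⟩
  · rcases le_total t t' with h | h
    · exact hlip x t t' h
    · rw [abs_sub_comm, abs_sub_comm t]; exact hlip x t' t h
  · rw [continuous_iff_continuousAt]
    rintro ⟨x0, t0⟩
    rw [Metric.continuousAt_iff]
    intro ε hε
    set y0 := Y x0 t0 with hy0
    have h1 : F x0 (y0 - ε) < t0 := by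
      rw [← hY x0 t0]; exact hmono x0 (by linarith)
    have h2 : t0 < F x0 (y0 + ε) := by
      conv_lhs => rw [← hY x0 t0]
      exact hmono x0 (by linarith)
    have hc1 : Continuous fun p : ℝ × ℝ => p.2 - F p.1 (y0 - ε) :=
      continuous_snd.sub (hF.comp (by fun_prop : Continuous fun p : ℝ × ℝ => (p.1, y0 - ε)))
    have hc2 : Continuous fun p : ℝ × ℝ => F p.1 (y0 + ε) - p.2 :=
      (hF.comp (by fun_prop : Continuous fun p : ℝ × ℝ => (p.1, y0 + ε))).sub continuous_snd
    have e1 : ∀ᶠ p : ℝ × ℝ in 𝓝 (x0, t0), 0 < p.2 - F p.1 (y0 - ε) :=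
      hc1.continuousAt.eventually_const_lt (by simpa using h1)
    have e2 : ∀ᶠ p : ℝ × ℝ in 𝓝 (x0, t0), 0 < F p.1 (y0 + ε) - p.2 :=
      hc2.continuousAt.eventually_const_lt (by simpa using h2)
    obtain ⟨δ, hδ, hδs⟩ := Metric.eventually_nhds_iff.1 (e1.and e2)
    refine ⟨δ, hδ, fun {p} hp => ?_⟩
    obtain ⟨h3, h4⟩ := hδs hp
    rw [Real.dist_eq, abs_lt]
    simp only [Function.uncurry]
    constructor
    · have : y0 - ε < Y p.1 p.2 := by
        rw [← (hmono p.1).lt_iff_lt, hY]; linarith
      linarith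
    · have : Y p.1 p.2 < y0 + ε := by
        rw [← (hmono p.1).lt_iff_lt, hY]; linarith
      linarith

end Inverse

/-- The data of the slicing argument. -/
structure Data (k F H n : ℝ → ℝ → ℝ) (m0 a b c d : ℝ) : Prop where
  hm0 : 0 < m0
  hk : Continuous (Function.uncurry k)
  hkm : ∀ x y, m0 ≤ k x y
  hF : Continuous (Function.uncurry F)
  hFd : ∀ x y, HasDerivAt (F x) (k x y) y
  hH : Continuous (Function.uncurry H)
  hn : Continuous (Function.uncurry n)
  hab : a ≤ b
  hcd : c ≤ d
  hHs : ∀ x y, (x ∉ Ioo a b ∨ y ∉ Ioo c d) → H x y = 0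
  hns : ∀ x y, (x ∉ Ioo a b ∨ y ∉ Ioo c d) → n x y = 0

/-- primitive of `n` in the second variable -/
noncomputable def prim (n : ℝ → ℝ → ℝ) (c x y : ℝ) : ℝ := ∫ s in c..y, n x s

/-- the slice function -/
noncomputable def sl (H n Y : ℝ → ℝ → ℝ) (c x t : ℝ) : ℝ := H x (Y x t) - prim n c x (Y x t)

/-- the flux function -/
noncomputable def flux (H n Y : ℝ → ℝ → ℝ) (a b c t : ℝ) : ℝ := ∫ x in a..b, sl H n Y c x t

section Slices

variable {k F H n Y : ℝ → ℝ → ℝ} {m0 a b c d : ℝ}

lemma prim_of_le (D : Data k F H n m0 a b c d) {x y : ℝ} (hy : y ≤ c) : prim n c x y = 0 := by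
  unfold prim
  apply intervalIntegral.integral_zero_ae
  filter_upwards with s hs
  rw [uIoc_of_ge hy] at hs
  exact D.hns x s (Or.inr fun h => absurd h.1 (not_lt.2 hs.2))

lemma prim_of_ge (D : Data k F H n m0 a b c d) {x y : ℝ} (hy : d ≤ y) :
    prim n c x y = ∫ s, n x s := by
  unfold prim
  apply intervalIntegral.integral_eq_integral_of_support_subset
  intro s hs
  by_contra hcon
  apply hs
  exact D.hns x s (Or.inr fun h => hcon ⟨h.1, (h.2.trans_le hy).le⟩)

lemma prim_of_notMem (D : Data k F H n m0 a b c d) {x y : ℝ} (hx : x ∉ Ioo a b) :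
    prim n c x y = 0 := by
  unfold prim
  have : ∀ s, n x s = 0 := fun s => D.hns x s (Or.inl hx)
  simp [this]

lemma continuous_prim (D : Data k F H n m0 a b c d) : Continuous (Function.uncurry (prim n c)) :=
  intervalIntegral.continuous_parametric_primitive_of_continuous D.hn

lemma hasDerivAt_prim (D : Data k F H n m0 a b c d) (x y : ℝ) :
    HasDerivAt (prim n c x) (n x y) y := by
  have hc : Continuous (n x) := D.hn.comp (by fun_prop : Continuous fun s : ℝ => (x, s))
  exact intervalIntegral.integral_hasDerivAt_right (hc.intervalIntegrable _ _)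
    hc.aestronglyMeasurable.stronglyMeasurableAtFilter hc.continuousAt

lemma continuous_sl (D : Data k F H n m0 a b c d) (hY : Continuous (Function.uncurry Y)) :
    Continuous (Function.uncurry (sl H n Y c)) := by
  have h1 : Continuous fun p : ℝ × ℝ => (p.1, Y p.1 p.2) := continuous_fst.prodMk hY
  exact (D.hH.comp h1).sub ((continuous_prim D).comp h1)

lemma sl_of_notMem (D : Data k F H n m0 a b c d) {x t : ℝ} (hx : x ∉ Ioo a b) :
    sl H n Y c x t = 0 := by
  unfold sl
  rw [D.hHs x _ (Or.inl hx), prim_of_notMem D hx, sub_zero]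

lemma flux_eq_integral (D : Data k F H n m0 a b c d) (t : ℝ) :
    flux H n Y a b c t = ∫ x, sl H n Y c x t := by
  unfold flux
  apply intervalIntegral.integral_eq_integral_of_support_subset
  intro x hx
  by_contra hcon
  exact hx (sl_of_notMem D fun h => hcon ⟨h.1, h.2.le⟩)

lemma continuous_flux (D : Data k F H n m0 a b c d) (hY : Continuous (Function.uncurry Y)) :
    Continuous (flux H n Y a b c) := by
  have h1 : Continuous (Function.uncurry fun t x => sl H n Y c x t) :=
    (continuous_sl D hY).comp (by fun_prop : Continuous fun p : ℝ × ℝ => (p.2, p.1))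
  exact intervalIntegral.continuous_parametric_intervalIntegral_of_continuous' h1 a b

/-- slice identity -/
lemma slice_identity (D : Data k F H n m0 a b c d) (hY1 : ∀ x t, F x (Y x t) = t)
    (hY2 : ∀ x y, Y x (F x y) = y) (hYc : Continuous (Function.uncurry Y))
    {q Θ : ℝ → ℝ} (hq : Continuous q) (hΘ : ∀ u, HasDerivAt Θ (q u) u) {T0 T1 : ℝ}
    (hq0 : ∀ u, u ∉ Icc T0 T1 → q u = 0) (hΘ0 : ∀ u, u ∉ Icc T0 T1 → Θ u = 0) (x : ℝ) :
    ∫ y, (Θ (F x y) * n x y + H x y * (k x y * q (F x y))) = ∫ t, q t * sl H n Y c x t := by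
  have hmono : ∀ y y', y < y' → F x y < F x y' := by
    intro y y' h
    have := slope_bound D.hFd D.hkm x h.le
    have h2 : 0 < m0 * (y' - y) := by have : 0 < y' - y := by linarith
                                      have := D.hm0
                                      positivity
    linarith
  set C : ℝ := min c (Y x T0) - 1 with hC
  set E : ℝ := max d (Y x T1) + 1 with hE
  have hCc : C < c := by linarith [min_le_left c (Y x T0)]
  have hCT : F x C < T0 := by
    rw [← hY1 x T0]; exact hmono _ _ (by linarith [min_le_right c (Y x T0)])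
  have hEd : d < E := by linarith [le_max_left d (Y x T1)]
  have hET : T1 < F x E := by
    conv_lhs => rw [← hY1 x T1]
    exact hmono _ _ (by linarith [le_max_right d (Y x T1)])
  have hCE : C ≤ E := by have := D.hcd; linarith
  -- continuity facts
  have ckx : Continuous (k x) := D.hk.comp (by fun_prop : Continuous fun s : ℝ => (x, s))
  have cnx : Continuous (n x) := D.hn.comp (by fun_prop : Continuous fun s : ℝ => (x, s))
  have cHx : Continuous (H x) := D.hH.comp (by fun_prop : Continuous fun s : ℝ => (x, s))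
  have cFx : Continuous (F x) := D.hF.comp (by fun_prop : Continuous fun s : ℝ => (x, s))
  have cYx : Continuous (Y x) := hYc.comp (by fun_prop : Continuous fun s : ℝ => (x, s))
  have cWx : Continuous (prim n c x) :=
    (continuous_prim D).comp (by fun_prop : Continuous fun s : ℝ => (x, s))
  have cΘ : Continuous Θ := continuous_iff_continuousAt.2 fun u => (hΘ u).continuousAt
  -- reduce to a bounded interval
  have h1 : ∫ y, (Θ (F x y) * n x y + H x y * (k x y * q (F x y))) =
      ∫ y in C..E, (Θ (F x y) * n x y + H x y * (k x y * q (F x y))) := by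
    symm
    apply intervalIntegral.integral_eq_integral_of_support_subset
    intro y hy
    by_contra hcon
    apply hy
    have hy' : y ∉ Ioo c d := fun h => hcon ⟨by linarith [h.1], by linarith [h.2]⟩
    simp [D.hns x y (Or.inr hy'), D.hHs x y (Or.inr hy')]
  have h2 : ∫ t, q t * sl H n Y c x t = ∫ t in (F x C)..(F x E), q t * sl H n Y c x t := by
    symm
    apply intervalIntegral.integral_eq_integral_of_support_subset
    intro t ht
    by_contra hcon
    apply ht
    have : t ∉ Icc T0 T1 := fun h => hcon ⟨by linarith [h.1], by linarith [h.2]⟩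
    simp [hq0 t this]
  rw [h1, h2]
  have i1 : IntervalIntegrable (fun y => Θ (F x y) * n x y) volume C E :=
    ((cΘ.comp cFx).mul cnx).intervalIntegrable _ _
  have i2 : IntervalIntegrable (fun y => H x y * (k x y * q (F x y))) volume C E :=
    (cHx.mul (ckx.mul (hq.comp cFx))).intervalIntegrable _ _
  rw [intervalIntegral.integral_add i1 i2]
  have h3 : ∫ y in C..E, Θ (F x y) * n x y =
      Θ (F x E) * prim n c x E - Θ (F x C) * prim n c x C
        - ∫ y in C..E, (q (F x y) * k x y) * prim n c x y := by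
    apply intervalIntegral.integral_mul_deriv_eq_deriv_mul
    · intro y _
      exact (hΘ (F x y)).comp y (D.hFd x y)
    · intro y _
      exact hasDerivAt_prim D x y
    · exact ((hq.comp cFx).mul ckx).intervalIntegrable _ _
    · exact cnx.intervalIntegrable _ _
  have h4 : Θ (F x E) = 0 := hΘ0 _ fun h => absurd h.2 (not_le.2 hET)
  have h5 : Θ (F x C) = 0 := hΘ0 _ fun h => absurd h.1 (not_le.2 hCT)
  rw [h3, h4, h5, zero_mul, zero_mul, sub_zero, zero_sub, ← intervalIntegral.integral_neg]
  have i3 : IntervalIntegrable (fun y => -(q (F x y) * k x y * prim n c x y)) volume C E :=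
    ((((hq.comp cFx).mul ckx).mul cWx).neg).intervalIntegrable _ _
  rw [← intervalIntegral.integral_add i3 i2]
  have h6 : ∫ y in C..E, ((fun t => q t * sl H n Y c x t) ∘ F x) y * k x y =
      ∫ t in (F x C)..(F x E), q t * sl H n Y c x t := by
    apply intervalIntegral.integral_comp_mul_deriv
    · intro y _; exact D.hFd x y
    · exact ckx.continuousOn
    · have : Continuous (sl H n Y c x) :=
        (continuous_sl D hYc).comp (by fun_prop : Continuous fun s : ℝ => (x, s))
      exact hq.mul this
  rw [← h6]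
  apply intervalIntegral.integral_congr
  intro y _
  simp only [Function.comp, sl, hY2]
  ring

/-- two-dimensional identity -/
lemma flux_identity (D : Data k F H n m0 a b c d) (hY1 : ∀ x t, F x (Y x t) = t)
    (hY2 : ∀ x y, Y x (F x y) = y) (hYc : Continuous (Function.uncurry Y))
    {q Θ : ℝ → ℝ} (hq : Continuous q) (hΘ : ∀ u, HasDerivAt Θ (q u) u) {T0 T1 : ℝ}
    (hq0 : ∀ u, u ∉ Icc T0 T1 → q u = 0) (hΘ0 : ∀ u, u ∉ Icc T0 T1 → Θ u = 0) :
    ∫ x, ∫ y, (Θ (F x y) * n x y + H x y * (k x y * q (F x y))) =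
      ∫ t, q t * flux H n Y a b c t := by
  have h1 : ∀ x, ∫ y, (Θ (F x y) * n x y + H x y * (k x y * q (F x y))) =
      ∫ t, q t * sl H n Y c x t := fun x => slice_identity D hY1 hY2 hYc hq hΘ hq0 hΘ0 x
  simp_rw [h1]
  have hc : Continuous (Function.uncurry fun x t => q t * sl H n Y c x t) :=
    (hq.comp continuous_snd).mul (continuous_sl D hYc)
  rw [integral_integral_swap_of_hasCompactSupport hc]
  · congr 1
    funext t
    rw [integral_const_mul, flux_eq_integral D]
  · apply HasCompactSupport.intro' (K := Icc a b ×ˢ Icc T0 T1) (isCompact_Icc.prod isCompact_Icc)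
      (isClosed_Icc.prod isClosed_Icc)
    rintro ⟨x, t⟩ hxt
    simp only [Function.uncurry]
    by_cases hx : x ∈ Icc a b
    · have ht : t ∉ Icc T0 T1 := fun h => hxt ⟨hx, h⟩
      rw [hq0 t ht, zero_mul]
    · rw [sl_of_notMem D fun h => hx (Ioo_subset_Icc_self h), mul_zero]

end Slices

/-- A test function on the line with its derivative. -/
structure IsTest (q Θ : ℝ → ℝ) (T0 T1 : ℝ) : Prop where
  hq : Continuous q
  hd : ∀ u, HasDerivAt Θ (q u) u
  hq0 : ∀ u, u ∉ Icc T0 T1 → q u = 0
  hΘ0 : ∀ u, u ∉ Icc T0 T1 → Θ u = 0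
  hpos : ∀ u, 0 ≤ Θ u

/-- du Bois-Reymond type lemma -/
lemma le_of_test {M : ℝ → ℝ} (hM : Continuous M) {t0 η : ℝ}
    (htest : ∀ q Θ T0 T1, IsTest q Θ T0 T1 → t0 - η < T0 → T1 < t0 + η → ∫ u, q u * M u ≤ 0)
    {s : ℝ} (hs : t0 < s) (hs' : s < t0 + η) : M t0 ≤ M s := by
  by_contra hlt
  push Not at hlt
  set μ1 : ℝ := (2 * M t0 + M s) / 3 with hμ1
  set μ2 : ℝ := (M t0 + 2 * M s) / 3 with hμ2
  have h12 : μ2 < μ1 := by rw [hμ1, hμ2]; linarith
  have e1 : ∀ᶠ u in 𝓝 t0, μ1 < M u := hM.continuousAt.eventually_const_lt (by rw [hμ1]; linarith)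
  have e2 : ∀ᶠ u in 𝓝 s, M u < μ2 := hM.continuousAt.eventually_lt_const (by rw [hμ2]; linarith)
  obtain ⟨δ1, hδ1, hδ1s⟩ := Metric.eventually_nhds_iff.1 e1
  obtain ⟨δ2, hδ2, hδ2s⟩ := Metric.eventually_nhds_iff.1 e2
  obtain ⟨δ, hδ, h1, h2, h3, h4⟩ : ∃ δ : ℝ, 0 < δ ∧ δ < δ1 ∧ δ < δ2 ∧ δ < (s - t0) / 2 ∧
      δ < t0 + η - s := by
    refine ⟨min (min δ1 δ2) (min ((s - t0) / 2) (t0 + η - s)) / 2, ?_, ?_, ?_, ?_, ?_⟩
    · have h1 : 0 < (s - t0) / 2 := by linarith
      have h2 : 0 < t0 + η - s := by linarith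
      positivity
    all_goals
      have h1 : 0 < (s - t0) / 2 := by linarith
      have h2 : 0 < t0 + η - s := by linarith
      have h3 : 0 < min (min δ1 δ2) (min ((s - t0) / 2) (t0 + η - s)) := by positivity
      have m1 := min_le_left (min δ1 δ2) (min ((s - t0) / 2) (t0 + η - s))
      have m2 := min_le_right (min δ1 δ2) (min ((s - t0) / 2) (t0 + η - s))
      have m3 := min_le_left δ1 δ2
      have m4 := min_le_right δ1 δ2
      have m5 := min_le_left ((s - t0) / 2) (t0 + η - s)
      have m6 := min_le_right ((s - t0) / 2) (t0 + η - s)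
      linarith
  let f1 : ContDiffBump t0 := ⟨δ / 2, δ, by positivity, by linarith⟩
  let f2 : ContDiffBump s := ⟨δ / 2, δ, by positivity, by linarith⟩
  set ρ1 : ℝ → ℝ := f1.normed volume with hρ1
  set ρ2 : ℝ → ℝ := f2.normed volume with hρ2
  have c1 : Continuous ρ1 := f1.continuous_normed
  have c2 : Continuous ρ2 := f2.continuous_normed
  have z1 : ∀ u, u ∉ Ioo (t0 - δ) (t0 + δ) → ρ1 u = 0 := by
    intro u hu
    by_contra hne
    have : u ∈ Function.support ρ1 := hne
    rw [hρ1, f1.support_normed_eq, Real.ball_eq_Ioo] at this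
    exact hu this
  have z2 : ∀ u, u ∉ Ioo (s - δ) (s + δ) → ρ2 u = 0 := by
    intro u hu
    by_contra hne
    have : u ∈ Function.support ρ2 := hne
    rw [hρ2, f2.support_normed_eq, Real.ball_eq_Ioo] at this
    exact hu this
  have p1 : ∀ u, 0 ≤ ρ1 u := f1.nonneg_normed
  have p2 : ∀ u, 0 ≤ ρ2 u := f2.nonneg_normed
  have I1 : ∫ u, ρ1 u = 1 := f1.integral_normed
  have I2 : ∫ u, ρ2 u = 1 := f2.integral_normed
  have J1 : Integrable ρ1 volume := f1.integrable_normed
  have J2 : Integrable ρ2 volume := f2.integrable_normed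
  set C : ℝ := t0 - δ with hC
  set D : ℝ := s + δ with hD
  have full1 : ∀ u, t0 + δ ≤ u → ∫ v in C..u, ρ1 v = 1 := by
    intro u hu
    rw [← I1]
    apply intervalIntegral.integral_eq_integral_of_support_subset
    intro v hv
    by_contra hcon
    exact hv (z1 v fun h => hcon ⟨h.1, by linarith [h.2]⟩)
  have full2 : ∀ u, D ≤ u → ∫ v in C..u, ρ2 v = 1 := by
    intro u hu
    rw [← I2]
    apply intervalIntegral.integral_eq_integral_of_support_subset
    intro v hv
    by_contra hcon
    exact hv (z2 v fun h => hcon ⟨by linarith [h.1], by linarith [h.2]⟩)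
  have zero2 : ∀ u, u ≤ s - δ → C ≤ u → ∫ v in C..u, ρ2 v = 0 := by
    intro u hu hu2
    apply intervalIntegral.integral_zero_ae
    filter_upwards with v hv
    rw [uIoc_of_le hu2] at hv
    exact z2 v fun h => by linarith [h.1, hv.2]
  have le2 : ∀ u, C ≤ u → ∫ v in C..u, ρ2 v ≤ 1 := by
    intro u hu
    rw [intervalIntegral.integral_of_le hu, ← I2]
    exact setIntegral_le_integral J2 (Eventually.of_forall p2)
  set q : ℝ → ℝ := fun u => ρ1 u - ρ2 u with hq
  set Θ : ℝ → ℝ := fun u => ∫ v in C..u, q v with hΘ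
  have cq : Continuous q := c1.sub c2
  have hΘe : ∀ u, Θ u = (∫ v in C..u, ρ1 v) - ∫ v in C..u, ρ2 v := by
    intro u
    rw [hΘ]
    exact intervalIntegral.integral_sub (c1.intervalIntegrable _ _) (c2.intervalIntegrable _ _)
  have hlow : ∀ u, u < C → Θ u = 0 := by
    intro u hu
    apply intervalIntegral.integral_zero_ae
    filter_upwards with v hv
    rw [uIoc_of_ge hu.le] at hv
    rw [hq]
    simp only
    rw [z1 v fun h => by linarith [h.1, hv.2], z2 v fun h => by linarith [h.1, hv.2], sub_zero]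
  have htestq : IsTest q Θ C D := by
    refine ⟨cq, ?_, ?_, ?_, ?_⟩
    · intro u
      exact intervalIntegral.integral_hasDerivAt_right (cq.intervalIntegrable _ _)
        cq.aestronglyMeasurable.stronglyMeasurableAtFilter cq.continuousAt
    · intro u hu
      rw [hq]
      simp only
      rw [z1 u fun h => hu ⟨h.1.le, by linarith [h.2]⟩, z2 u fun h => hu ⟨by linarith [h.1], h.2.le⟩,
        sub_zero]
    · intro u hu
      rcases lt_or_ge u C with h5 | h5
      · exact hlow u h5
      · have h6 : D < u := by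
          by_contra h7
          push Not at h7
          exact hu ⟨h5, h7⟩
        rw [hΘe, full1 u (by linarith), full2 u h6.le, sub_self]
    · intro u
      rcases lt_or_ge u C with h5 | h5
      · rw [hlow u h5]
      · rw [hΘe]
        rcases le_total u (s - δ) with h6 | h6
        · rw [zero2 u h6 h5, sub_zero]
          exact intervalIntegral.integral_nonneg h5 fun v _ => p1 v
        · rw [full1 u (by linarith)]
          linarith [le2 u h5]
  have hfin := htest q Θ C D htestq (by linarith) (by linarith)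
  -- lower bound
  have K1 : Integrable (fun u => ρ1 u * M u) volume :=
    (c1.mul hM).integrable_of_hasCompactSupport f1.hasCompactSupport_normed.mul_right
  have K2 : Integrable (fun u => ρ2 u * M u) volume :=
    (c2.mul hM).integrable_of_hasCompactSupport f2.hasCompactSupport_normed.mul_right
  have h5 : ∫ u, q u * M u = (∫ u, ρ1 u * M u) - ∫ u, ρ2 u * M u := by
    rw [← integral_sub K1 K2]
    congr 1; funext u; rw [hq]; ring
  have h6 : μ1 ≤ ∫ u, ρ1 u * M u := by
    have : ∫ u, ρ1 u * μ1 = μ1 := by rw [integral_mul_const, I1, one_mul]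
    rw [← this]
    apply integral_mono (J1.mul_const _) K1
    intro u
    simp only
    by_cases hu : u ∈ Ioo (t0 - δ) (t0 + δ)
    · have h7 : μ1 < M u := hδ1s (by
        rw [Real.dist_eq, abs_lt]; constructor <;> linarith [hu.1, hu.2])
      have := p1 u
      gcongr
    · rw [z1 u hu]; simp
  have h7 : ∫ u, ρ2 u * M u ≤ μ2 := by
    have : ∫ u, ρ2 u * μ2 = μ2 := by rw [integral_mul_const, I2, one_mul]
    rw [← this]
    apply integral_mono K2 (J2.mul_const _)
    intro u
    simp only
    by_cases hu : u ∈ Ioo (s - δ) (s + δ)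
    · have h7 : M u < μ2 := hδ2s (by
        rw [Real.dist_eq, abs_lt]; constructor <;> linarith [hu.1, hu.2])
      have := p2 u
      gcongr
    · rw [z2 u hu]; simp
  linarith

section Main

variable {k F H n : ℝ → ℝ → ℝ} {m0 a b c d : ℝ}

/-- The conclusion of the slicing argument. -/
theorem integral_nonpos_of_test (D : Data k F H n m0 a b c d) {E : Set ℝ}
    (htest : ∀ t ∉ E, ∃ η > (0 : ℝ), ∀ q Θ T0 T1, IsTest q Θ T0 T1 → t - η < T0 → T1 < t + η →
      ∫ x, ∫ y, (Θ (F x y) * n x y + H x y * (k x y * q (F x y))) ≤ 0)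
    (hcov : ∀ ε > (0 : ℝ), ∃ (U : ℕ → Set ℝ) (σ : ℕ → ℝ), E ⊆ ⋃ i, U i ∧
      (∀ i, 0 ≤ σ i) ∧ (∑' i, ENNReal.ofReal (σ i) ≤ ENNReal.ofReal ε) ∧
      ∀ i, ∀ t ∈ U i, ∀ t' ∈ U i, ∀ x ∈ Icc a b, ∀ y y' : ℝ, |y - y'| ≤ |t - t'| / m0 →
        |H x y - H x y'| ≤ σ i ∧ |y - y'| ≤ σ i) :
    ∫ x, ∫ y, n x y ≤ 0 := by
  obtain ⟨Y, hY1, hY2, hY3, hYc⟩ := exists_inverse D.hm0 D.hF D.hFd D.hkm
  set M := flux H n Y a b c with hM
  have hMc : Continuous M := continuous_flux D hYc
  -- bound for n
  obtain ⟨N, hN0, hN⟩ : ∃ N : ℝ, 0 ≤ N ∧ ∀ x y, |n x y| ≤ N := by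
    have hcs : HasCompactSupport (Function.uncurry n) := by
      apply HasCompactSupport.intro' (K := Icc a b ×ˢ Icc c d) (isCompact_Icc.prod isCompact_Icc)
        (isClosed_Icc.prod isClosed_Icc)
      rintro ⟨x, y⟩ hxy
      simp only [Function.uncurry]
      by_cases hx : x ∈ Icc a b
      · have hy : y ∉ Icc c d := fun h => hxy ⟨hx, h⟩
        exact D.hns x y (Or.inr fun h => hy (Ioo_subset_Icc_self h))
      · exact D.hns x y (Or.inl fun h => hx (Ioo_subset_Icc_self h))
    obtain ⟨N, hN⟩ := D.hn.bounded_above_of_compact_support hcs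
    refine ⟨max N 0, le_max_right _ _, fun x y => ?_⟩
    have := hN (x, y)
    simp only [Function.uncurry, Real.norm_eq_abs] at this
    exact this.trans (le_max_left _ _)
  -- the image of `E` is null
  have hnull : volume (M '' E) = 0 := by
    have hab : 0 ≤ b - a := by have := D.hab; linarith
    have hC0 : 0 ≤ (b - a) * (1 + N) := by positivity
    have key : ∀ ε > (0 : ℝ), volume (M '' E) ≤ ENNReal.ofReal ((b - a) * (1 + N)) * ENNReal.ofReal ε := by
      intro ε hε
      obtain ⟨U, σ, hEU, hσ0, hσ, hU⟩ := hcov ε hε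
      have h1 : M '' E ⊆ ⋃ i, M '' (U i) := by
        rw [← image_iUnion]; exact image_mono hEU
      have h2 : ∀ i, volume (M '' (U i)) ≤ ENNReal.ofReal ((b - a) * (1 + N)) * ENNReal.ofReal (σ i) := by
        intro i
        refine (Real.volume_le_diam _).trans ?_
        rw [← ENNReal.ofReal_mul hC0]
        apply Metric.ediam_le
        rintro _ ⟨t, ht, rfl⟩ _ ⟨t', ht', rfl⟩
        rw [edist_dist, Real.dist_eq]
        apply ENNReal.ofReal_le_ofReal
        have hsl : ∀ x ∈ Icc a b, |sl H n Y c x t - sl H n Y c x t'| ≤ (1 + N) * σ i := by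
          intro x hx
          obtain ⟨h3, h4⟩ := hU i t ht t' ht' x hx (Y x t) (Y x t') (hY3 x t t')
          have h5 : |prim n c x (Y x t) - prim n c x (Y x t')| ≤ N * σ i := by
            have cnx : Continuous (n x) := D.hn.comp (by fun_prop : Continuous fun s : ℝ => (x, s))
            have h6 : prim n c x (Y x t) - prim n c x (Y x t') = ∫ s in (Y x t')..(Y x t), n x s := by
              unfold prim
              rw [intervalIntegral.integral_interval_sub_left (cnx.intervalIntegrable _ _)
                (cnx.intervalIntegrable _ _)]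
            rw [h6]
            have h7 := intervalIntegral.norm_integral_le_of_norm_le_const
              (a := Y x t') (b := Y x t) (f := n x) (C := N) (fun s _ => hN x s)
            rw [Real.norm_eq_abs] at h7
            refine h7.trans ?_
            gcongr
          calc |sl H n Y c x t - sl H n Y c x t'|
              = |(H x (Y x t) - H x (Y x t')) - (prim n c x (Y x t) - prim n c x (Y x t'))| := by
                unfold sl; congr 1; ring
            _ ≤ |H x (Y x t) - H x (Y x t')| + |prim n c x (Y x t) - prim n c x (Y x t')| :=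
                abs_sub _ _
            _ ≤ σ i + N * σ i := add_le_add h3 h5
            _ = _ := by ring
        have csl : ∀ t, IntervalIntegrable (fun x => sl H n Y c x t) volume a b := fun t =>
          ((continuous_sl D hYc).comp (by fun_prop : Continuous fun s : ℝ => (s, t))).intervalIntegrable _ _
        have h8 : M t - M t' = ∫ x in a..b, (sl H n Y c x t - sl H n Y c x t') := by
          rw [hM]; unfold flux
          rw [intervalIntegral.integral_sub (csl t) (csl t')]
        rw [h8]
        have h9 := intervalIntegral.norm_integral_le_of_norm_le_const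
          (a := a) (b := b) (f := fun x => sl H n Y c x t - sl H n Y c x t') (C := (1 + N) * σ i)
          (fun x hx => by
            rw [uIoc_of_le D.hab] at hx
            exact hsl x ⟨hx.1.le, hx.2⟩)
        rw [Real.norm_eq_abs, abs_of_nonneg hab] at h9
        calc _ ≤ _ := h9
          _ = _ := by ring
      calc volume (M '' E) ≤ volume (⋃ i, M '' (U i)) := measure_mono h1
        _ ≤ ∑' i, volume (M '' (U i)) := measure_iUnion_le _
        _ ≤ ∑' i, ENNReal.ofReal ((b - a) * (1 + N)) * ENNReal.ofReal (σ i) := ENNReal.tsum_le_tsum h2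
        _ = ENNReal.ofReal ((b - a) * (1 + N)) * ∑' i, ENNReal.ofReal (σ i) := ENNReal.tsum_mul_left
        _ ≤ _ := by gcongr
    have hlim : Tendsto (fun ε : ℝ => ENNReal.ofReal ((b - a) * (1 + N)) * ENNReal.ofReal ε) (𝓝[>] 0)
        (𝓝 (ENNReal.ofReal ((b - a) * (1 + N)) * ENNReal.ofReal 0)) := by
      apply ENNReal.Tendsto.const_mul _ (Or.inr ENNReal.ofReal_ne_top)
      exact (ENNReal.continuous_ofReal.tendsto 0).mono_left nhdsWithin_le_nhds
    rw [ENNReal.ofReal_zero, mul_zero] at hlim
    have hle : volume (M '' E) ≤ 0 := by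
      refine ge_of_tendsto hlim ?_
      filter_upwards [self_mem_nhdsWithin] with ε hε using key ε hε
    exact le_antisymm hle (zero_le)
  -- monotonicity
  have hmono : Monotone M := by
    apply monotone_of_null_image hMc hnull
    intro t ht
    obtain ⟨η, hη, htt⟩ := htest t ht
    have hev : ∀ᶠ s in 𝓝[>] t, s ∈ Ioo t (t + η) := Ioo_mem_nhdsGT (by linarith)
    filter_upwards [hev] with s hs
    apply le_of_test hMc (t0 := t) (η := η) _ hs.1 hs.2
    intro q Θ T0 T1 hT h0 h1
    rw [hM, ← flux_identity D hY1 hY2 hYc hT.hq hT.hd hT.hq0 hT.hΘ0]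
    exact htt q Θ T0 T1 hT h0 h1
  -- the two ends
  obtain ⟨T0, hT0⟩ : ∃ T0, ∀ x ∈ Icc a b, T0 ≤ F x c := by
    have hc : ContinuousOn (fun x => F x c) (Icc a b) :=
      (D.hF.comp (by fun_prop : Continuous fun s : ℝ => (s, c))).continuousOn
    obtain ⟨T0, hT0⟩ := (isCompact_Icc.image_of_continuousOn hc).bddBelow
    exact ⟨T0, fun x hx => hT0 ⟨x, hx, rfl⟩⟩
  obtain ⟨T1, hT1⟩ : ∃ T1, ∀ x ∈ Icc a b, F x d ≤ T1 := by
    have hc : ContinuousOn (fun x => F x d) (Icc a b) :=
      (D.hF.comp (by fun_prop : Continuous fun s : ℝ => (s, d))).continuousOn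
    obtain ⟨T1, hT1⟩ := (isCompact_Icc.image_of_continuousOn hc).bddAbove
    exact ⟨T1, fun x hx => hT1 ⟨x, hx, rfl⟩⟩
  have hFmono : ∀ x, Monotone (F x) := by
    intro x y y' h
    have := slope_bound D.hFd D.hkm x h
    have h2 : 0 ≤ m0 * (y' - y) := by have : 0 ≤ y' - y := by linarith
                                      have := D.hm0
                                      positivity
    linarith
  have hM0 : M (min T0 T1) = 0 := by
    rw [hM]; unfold flux
    apply intervalIntegral.integral_zero_ae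
    filter_upwards with x hx
    rw [uIoc_of_le D.hab] at hx
    have h1 : Y x (min T0 T1) ≤ c := by
      by_contra hcon
      push Not at hcon
      have h2 := slope_bound D.hFd D.hkm x hcon.le
      rw [hY1] at h2
      have h3 : 0 < m0 * (Y x (min T0 T1) - c) := by
        have := D.hm0
        have : 0 < Y x (min T0 T1) - c := by linarith
        positivity
      have h4 := hT0 x ⟨hx.1.le, hx.2⟩
      have h5 := min_le_left T0 T1
      linarith
    unfold sl
    rw [D.hHs x _ (Or.inr fun h => absurd h.1 (not_lt.2 h1)), prim_of_le D h1, sub_zero]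
  have hM1 : M (max T0 T1) = - ∫ x, ∫ y, n x y := by
    rw [hM, flux_eq_integral D, ← integral_neg]
    congr 1
    funext x
    by_cases hx : x ∈ Ioo a b
    · have h1 : d ≤ Y x (max T0 T1) := by
        by_contra hcon
        push Not at hcon
        have h2 := slope_bound D.hFd D.hkm x hcon.le
        rw [hY1] at h2
        have h3 : 0 < m0 * (d - Y x (max T0 T1)) := by
          have := D.hm0
          have : 0 < d - Y x (max T0 T1) := by linarith
          positivity
        have h4 := hT1 x (Ioo_subset_Icc_self hx)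
        have h5 := le_max_right T0 T1
        linarith
      unfold sl
      rw [D.hHs x _ (Or.inr fun h => absurd h.2 (not_lt.2 h1)), prim_of_ge D h1, zero_sub]
    · rw [sl_of_notMem D hx]
      have : ∀ y, n x y = 0 := fun y => D.hns x y (Or.inl hx)
      simp [this]
  have h1 : M (min T0 T1) ≤ M (max T0 T1) := hmono (min_le_max)
  rw [hM0, hM1] at h1
  linarith

end Main

end Pool.Agent.Lib.MP_c751e8_an
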