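import Mathlib
import Pool.Agent.Lib.MP_c751e8_an.Touch

open MeasureTheory Filter Topology Set Metric Complex ComplexConjugate

namespace Pool.Agent.Lib.MP_c751e8_an

/-- the (real) inner product of two gradients -/
noncomputable def gradProd (f g : ℂ → ℝ) (z : ℂ) : ℝ :=
  fderiv ℝ f z 1 * fderiv ℝ g z 1 + fderiv ℝ f z I * fderiv ℝ g z I

/-- unit vector -/
noncomputable def uv (θ : ℝ) : ℂ := circleMap 0 1 θ

lemma continuous_uv : Continuous uv := continuous_circleMap 0 1

lemma norm_uv (θ : ℝ) : ‖uv θ‖ = 1 := by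
  unfold uv; rw [norm_circleMap_zero]; simp

lemma circleMap_eq_uv (z : ℂ) (r θ : ℝ) : circleMap z r θ = z + r * uv θ := by
  simp [uv, circleMap]

section FirstStep

variable {f ξ : ℂ → ℝ}

lemma integrable_shift_mul (hf : Continuous f) (hfb : ∃ C, ∀ z, |f z| ≤ C) (hξ : Continuous ξ)
    (hξc : HasCompactSupport ξ) (s r : ℝ) :
    Integrable (Function.uncurry fun (θ : ℝ) (z : ℂ) => f (z + s * (r * uv θ)) * ξ z)
      ((volume.restrict (Ioc 0 (2 * Real.pi))).prod volume) := by
  obtain ⟨C, hC⟩ := hfb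
  have hξi : Integrable ξ volume := hξ.integrable_of_hasCompactSupport hξc
  have h1 : Integrable (fun p : ℝ × ℂ => (C : ℝ) * |ξ p.2|)
      ((volume.restrict (Ioc 0 (2 * Real.pi))).prod volume) := by
    have h2 : Integrable (fun _ : ℝ => (C : ℝ)) (volume.restrict (Ioc 0 (2 * Real.pi))) :=
      integrable_const _
    exact h2.mul_prod hξi.abs
  refine h1.mono' ?_ ?_
  · have hc : Continuous (Function.uncurry fun (θ : ℝ) (z : ℂ) => f (z + s * (r * uv θ)) * ξ z) := by
      have h3 : Continuous fun p : ℝ × ℂ => p.2 + s * (r * uv p.1) := by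
        have := continuous_uv
        fun_prop
      exact (hf.comp h3).mul (hξ.comp continuous_snd)
    exact hc.aestronglyMeasurable
  · filter_upwards with p
    simp only [Function.uncurry, Real.norm_eq_abs, abs_mul]
    gcongr
    exact hC _

lemma integral_theta_shift (hf : Continuous f) (hfb : ∃ C, ∀ z, |f z| ≤ C) (hξ : Continuous ξ)
    (hξc : HasCompactSupport ξ) (hξ0 : ∀ z, 0 ≤ ξ z) {r : ℝ} (s : ℝ) (hs : s = 1 ∨ s = -1)
    (hm : ∀ z, ξ z ≠ 0 → f z ≤ Real.circleAverage f z r) :
    2 * Real.pi * ∫ z, f z * ξ z ≤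
      ∫ θ in Ioc 0 (2 * Real.pi), ∫ z, f (z + s * (r * uv θ)) * ξ z := by
  have hint := integrable_shift_mul hf hfb hξ hξc s r
  rw [integral_integral_swap hint]
  rw [← integral_const_mul]
  have hi2 := hint.integral_prod_right
  apply integral_mono_ae
  · have : Continuous fun z => f z * ξ z := hf.mul hξ
    have h2 : HasCompactSupport fun z => f z * ξ z := hξc.mul_left
    exact (this.integrable_of_hasCompactSupport h2).const_mul _
  · exact hi2
  · filter_upwards with z
    have h1 : ∫ θ in Ioc 0 (2 * Real.pi), f (z + s * (r * uv θ)) * ξ z =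
        (2 * Real.pi * Real.circleAverage f z r) * ξ z := by
      rw [integral_mul_const]
      congr 1
      have h2 : Real.circleAverage f z (s * r) = Real.circleAverage f z r := by
        rcases hs with rfl | rfl
        · rw [one_mul]
        · rw [neg_one_mul, Real.circleAverage_neg_radius]
      rw [← h2, Real.circleAverage_def, smul_eq_mul, ← mul_assoc, mul_inv_cancel₀ (by positivity),
        one_mul, intervalIntegral.integral_of_le (by positivity)]
      congr 1
      funext θ
      rw [circleMap_eq_uv]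
      congr 1
      push_cast; ring
    refine le_of_le_of_eq ?_ h1.symm
    by_cases hz : ξ z = 0
    · simp [hz]
    · have h3 := hm z hz
      have h4 := hξ0 z
      have h5 : 0 < 2 * Real.pi := by positivity
      have h6 : 2 * Real.pi * f z ≤ 2 * Real.pi * Real.circleAverage f z r := by gcongr
      calc 2 * Real.pi * (f z * ξ z) = (2 * Real.pi * f z) * ξ z := by ring
        _ ≤ _ := by gcongr

/-- Claim a -/
lemma bilinear_nonpos (hf : Continuous f) (hfc : HasCompactSupport f) (hξ : Continuous ξ)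
    (hξc : HasCompactSupport ξ) (hξ0 : ∀ z, 0 ≤ ξ z) {r : ℝ}
    (hm : ∀ z, ξ z ≠ 0 → f z ≤ Real.circleAverage f z r) :
    ∫ θ in Ioc 0 (2 * Real.pi), ∫ z, (f (z + r * uv θ) - f z) * (ξ (z + r * uv θ) - ξ z) ≤ 0 := by
  have hfb : ∃ C, ∀ z, |f z| ≤ C := by
    obtain ⟨C, hC⟩ := hfc.exists_bound_of_continuous hf
    exact ⟨C, fun z => by simpa using hC z⟩
  have hI : ∀ (a b : ℂ), Integrable (fun z => f (z + a) * ξ (z + b)) volume := by
    intro a b
    have h1 : Continuous fun z => f (z + a) * ξ (z + b) := by fun_prop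
    have h2 : HasCompactSupport fun z => ξ (z + b) := by
      have := hξc.comp_homeomorph (Homeomorph.addRight b)
      exact this
    exact h1.integrable_of_hasCompactSupport h2.mul_left
  have hinner : ∀ θ : ℝ, ∫ z, (f (z + r * uv θ) - f z) * (ξ (z + r * uv θ) - ξ z) =
      2 * (∫ z, f z * ξ z) - (∫ z, f (z + (1 : ℝ) * (r * uv θ)) * ξ z)
        - ∫ z, f (z + (-1 : ℝ) * (r * uv θ)) * ξ z := by
    intro θ
    set h : ℂ := r * uv θ with hh
    have e1 : ∫ z, f (z + h) * ξ (z + h) = ∫ z, f z * ξ z :=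
      integral_add_right_eq_self (fun z => f z * ξ z) h
    have e2 : ∫ z, f z * ξ (z + h) = ∫ z, f (z + (-1 : ℝ) * h) * ξ z := by
      rw [← integral_add_right_eq_self (fun z => f (z + (-1 : ℝ) * h) * ξ z) h]
      congr 1
      funext z
      congr 2
      push_cast; ring
    have i1 := hI h h
    have i2 : Integrable (fun z => f (z + h) * ξ z) volume := by simpa using hI h 0
    have i3 : Integrable (fun z => f z * ξ (z + h)) volume := by simpa using hI 0 h
    have i4 : Integrable (fun z => f z * ξ z) volume := by simpa using hI 0 0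
    have i14 : Integrable (fun z => f (z + h) * ξ (z + h) + f z * ξ z) volume := i1.add i4
    have i23 : Integrable (fun z => f (z + h) * ξ z + f z * ξ (z + h)) volume := i2.add i3
    calc ∫ z, (f (z + h) - f z) * (ξ (z + h) - ξ z)
        = ∫ z, ((f (z + h) * ξ (z + h) + f z * ξ z) - (f (z + h) * ξ z + f z * ξ (z + h))) := by
          congr 1; funext z; ring
      _ = ((∫ z, f (z + h) * ξ (z + h)) + ∫ z, f z * ξ z) -
          ((∫ z, f (z + h) * ξ z) + ∫ z, f z * ξ (z + h)) := by
          rw [integral_sub i14 i23, integral_add i1 i4, integral_add i2 i3]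
      _ = _ := by rw [e1, e2]; simp; ring
  simp_rw [hinner]
  have j1 := (integrable_shift_mul hf hfb hξ hξc 1 r).integral_prod_left
  have j2 := (integrable_shift_mul hf hfb hξ hξc (-1) r).integral_prod_left
  have j0 : Integrable (fun _ : ℝ => 2 * (∫ z, f z * ξ z)) (volume.restrict (Ioc 0 (2 * Real.pi))) :=
    integrable_const _
  simp only [Function.uncurry_apply_pair] at j1 j2
  have j01 : Integrable (fun θ : ℝ => 2 * (∫ z, f z * ξ z) - ∫ z, f (z + (1 : ℝ) * (r * uv θ)) * ξ z)
      (volume.restrict (Ioc 0 (2 * Real.pi))) := j0.sub j1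
  rw [integral_sub j01 j2, integral_sub j0 j1]
  have k1 := integral_theta_shift hf hfb hξ hξc hξ0 1 (Or.inl rfl) hm
  have k2 := integral_theta_shift hf hfb hξ hξc hξ0 (-1) (Or.inr rfl) hm
  have k3 : ∫ _ in Ioc 0 (2 * Real.pi), 2 * (∫ z, f z * ξ z) =
      2 * Real.pi * (2 * ∫ z, f z * ξ z) := by
    rw [setIntegral_const, Real.volume_real_Ioc_of_le (by positivity), smul_eq_mul, sub_zero]
  rw [k3]
  linarith

end FirstStep

section SecondStep

variable {f ξ : ℂ → ℝ}

lemma uv_eq (θ : ℝ) : uv θ = (Real.cos θ) • (1 : ℂ) + (Real.sin θ) • I := by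
  simp [uv, circleMap, Complex.exp_mul_I]

/-- the integral of the product of directional derivatives over all directions -/
lemma integral_directions (hf : ContDiff ℝ 1 f) (hξ : ContDiff ℝ 1 ξ)
    (hξc : HasCompactSupport ξ) :
    ∫ θ in Ioc 0 (2 * Real.pi), ∫ z, fderiv ℝ f z (uv θ) * fderiv ℝ ξ z (uv θ) =
      Real.pi * ∫ z, gradProd f ξ z := by
  have hI : ∀ a b : ℂ, Integrable (fun z => fderiv ℝ f z a * fderiv ℝ ξ z b) volume := by
    intro a b
    have h1 : Continuous fun z => fderiv ℝ f z a := (hf.continuous_fderiv one_ne_zero).clm_apply continuous_const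
    have h2 : Continuous fun z => fderiv ℝ ξ z b := (hξ.continuous_fderiv one_ne_zero).clm_apply continuous_const
    have h3 : HasCompactSupport fun z => fderiv ℝ ξ z b := hξc.fderiv_apply ℝ b
    exact (h1.mul h2).integrable_of_hasCompactSupport h3.mul_left
  set A := ∫ z, fderiv ℝ f z 1 * fderiv ℝ ξ z 1 with hA
  set B := ∫ z, fderiv ℝ f z 1 * fderiv ℝ ξ z I with hB
  set C := ∫ z, fderiv ℝ f z I * fderiv ℝ ξ z 1 with hC
  set D := ∫ z, fderiv ℝ f z I * fderiv ℝ ξ z I with hD
  have h1 : ∀ θ : ℝ, ∫ z, fderiv ℝ f z (uv θ) * fderiv ℝ ξ z (uv θ) =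
      A * Real.cos θ ^ 2 + (B + C) * (Real.sin θ * Real.cos θ) + D * Real.sin θ ^ 2 := by
    intro θ
    have e1 : (fun z => fderiv ℝ f z (uv θ) * fderiv ℝ ξ z (uv θ)) = fun z =>
        (Real.cos θ ^ 2 * (fderiv ℝ f z 1 * fderiv ℝ ξ z 1) +
        (Real.sin θ * Real.cos θ) * (fderiv ℝ f z 1 * fderiv ℝ ξ z I)) +
        ((Real.sin θ * Real.cos θ) * (fderiv ℝ f z I * fderiv ℝ ξ z 1) +
        Real.sin θ ^ 2 * (fderiv ℝ f z I * fderiv ℝ ξ z I)) := by
      funext z
      rw [uv_eq, map_add, map_add, map_smul, map_smul, map_smul, map_smul]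
      simp only [smul_eq_mul]
      ring
    have i1 := (hI 1 1).const_mul (Real.cos θ ^ 2)
    have i2 := (hI 1 I).const_mul (Real.sin θ * Real.cos θ)
    have i3 := (hI I 1).const_mul (Real.sin θ * Real.cos θ)
    have i4 := (hI I I).const_mul (Real.sin θ ^ 2)
    have i12 : Integrable (fun z => Real.cos θ ^ 2 * (fderiv ℝ f z 1 * fderiv ℝ ξ z 1) +
        (Real.sin θ * Real.cos θ) * (fderiv ℝ f z 1 * fderiv ℝ ξ z I)) volume := i1.add i2
    have i34 : Integrable (fun z => (Real.sin θ * Real.cos θ) * (fderiv ℝ f z I * fderiv ℝ ξ z 1) +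
        Real.sin θ ^ 2 * (fderiv ℝ f z I * fderiv ℝ ξ z I)) volume := i3.add i4
    rw [e1, integral_add i12 i34, integral_add i1 i2, integral_add i3 i4,
      integral_const_mul, integral_const_mul, integral_const_mul, integral_const_mul]
    ring
  simp_rw [h1]
  have h2 : ∫ z, gradProd f ξ z = A + D := by
    unfold gradProd
    rw [integral_add (hI 1 1) (hI I I)]
  rw [h2, ← intervalIntegral.integral_of_le (by positivity)]
  have c1 : IntervalIntegrable (fun θ => A * Real.cos θ ^ 2) volume 0 (2 * Real.pi) :=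
    (by fun_prop : Continuous fun θ : ℝ => A * Real.cos θ ^ 2).intervalIntegrable _ _
  have c2 : IntervalIntegrable (fun θ => (B + C) * (Real.sin θ * Real.cos θ)) volume 0 (2 * Real.pi) :=
    (by fun_prop : Continuous fun θ : ℝ => (B + C) * (Real.sin θ * Real.cos θ)).intervalIntegrable _ _
  have c3 : IntervalIntegrable (fun θ => D * Real.sin θ ^ 2) volume 0 (2 * Real.pi) :=
    (by fun_prop : Continuous fun θ : ℝ => D * Real.sin θ ^ 2).intervalIntegrable _ _
  have c12 : IntervalIntegrable (fun θ => A * Real.cos θ ^ 2 + (B + C) * (Real.sin θ * Real.cos θ))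
      volume 0 (2 * Real.pi) := c1.add c2
  rw [intervalIntegral.integral_add c12 c3, intervalIntegral.integral_add c1 c2,
    intervalIntegral.integral_const_mul, intervalIntegral.integral_const_mul,
    intervalIntegral.integral_const_mul, integral_cos_sq, integral_sin_mul_cos₁, integral_sin_sq]
  simp
  ring

/-- **Weak inequality.**  A compactly supported `C¹` function with the sub-mean value
inequality at the points of the support of a nonnegative `C¹` test function. -/
theorem weak_ineq (hf : ContDiff ℝ 1 f) (hfc : HasCompactSupport f) (hξ : ContDiff ℝ 1 ξ)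
    (hξc : HasCompactSupport ξ) (hξ0 : ∀ z, 0 ≤ ξ z) {r0 : ℝ} (hr0 : 0 < r0)
    (hm : ∀ z, ξ z ≠ 0 → ∀ r, 0 < r → r < r0 → f z ≤ Real.circleAverage f z r) :
    ∫ z, gradProd f ξ z ≤ 0 := by
  obtain ⟨Lf, hLf⟩ := hf.lipschitzWith_of_hasCompactSupport hfc one_ne_zero
  obtain ⟨Lξ, hLξ⟩ := hξ.lipschitzWith_of_hasCompactSupport hξc one_ne_zero
  obtain ⟨R, hR⟩ : ∃ R : ℝ, ∀ z, ξ z ≠ 0 → ‖z‖ ≤ R := by
    obtain ⟨R, hR⟩ := hξc.isCompact.isBounded.exists_norm_le
    exact ⟨R, fun z hz => hR z (subset_tsupport _ hz)⟩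
  -- the quotients
  set Φ : ℝ → ℝ → ℂ → ℝ := fun r θ z =>
    (r⁻¹ * (f (z + r * uv θ) - f z)) * (r⁻¹ * (ξ (z + r * uv θ) - ξ z)) with hΦ
  set K : Set ℂ := closedBall 0 (R + 1) with hK
  set bd : ℂ → ℝ := K.indicator fun _ => (Lf : ℝ) * Lξ with hbd
  have hbdi : Integrable bd volume := by
    apply (integrable_indicator_iff measurableSet_closedBall).2
    exact integrableOn_const (isCompact_closedBall _ _).measure_lt_top.ne
  have hbound : ∀ r : ℝ, 0 < r → r ≤ 1 → ∀ θ z, ‖Φ r θ z‖ ≤ bd z := by
    intro r hr hr1 θ z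
    by_cases hz : z ∈ K
    · rw [hbd, indicator_of_mem hz]
      have hn : ‖(r : ℂ) * uv θ‖ = r := by
        rw [norm_mul, norm_uv, mul_one, Complex.norm_real, Real.norm_eq_abs, abs_of_pos hr]
      have h1 : |f (z + r * uv θ) - f z| ≤ Lf * r := by
        have := hLf.dist_le_mul (z + r * uv θ) z
        rwa [Real.dist_eq, dist_eq_norm, add_sub_cancel_left, hn] at this
      have h2 : |ξ (z + r * uv θ) - ξ z| ≤ Lξ * r := by
        have := hLξ.dist_le_mul (z + r * uv θ) z
        rwa [Real.dist_eq, dist_eq_norm, add_sub_cancel_left, hn] at this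
      simp only [hΦ, Real.norm_eq_abs, abs_mul, abs_inv, abs_of_pos hr]
      have h3 : r⁻¹ * |f (z + r * uv θ) - f z| ≤ Lf := by
        rw [inv_mul_le_iff₀ hr]; linarith
      have h4 : r⁻¹ * |ξ (z + r * uv θ) - ξ z| ≤ Lξ := by
        rw [inv_mul_le_iff₀ hr]; linarith
      exact mul_le_mul h3 h4 (by positivity) (by positivity)
    · rw [hbd, indicator_of_notMem hz]
      rw [hK, mem_closedBall_zero_iff] at hz
      push Not at hz
      have h1 : ξ z = 0 := by
        by_contra hne
        have := hR z hne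
        linarith
      have h2 : ξ (z + r * uv θ) = 0 := by
        by_contra hne
        have h3 := hR _ hne
        have hn : ‖(r : ℂ) * uv θ‖ = r := by
          rw [norm_mul, norm_uv, mul_one, Complex.norm_real, Real.norm_eq_abs, abs_of_pos hr]
        have h4 : ‖z‖ ≤ ‖z + r * uv θ‖ + ‖(r : ℂ) * uv θ‖ := by
          have := norm_sub_le (z + r * uv θ) (r * uv θ)
          rwa [add_sub_cancel_right] at this
        rw [hn] at h4
        linarith
      simp [hΦ, h1, h2]
  have hcontΦ : ∀ r : ℝ, Continuous (Function.uncurry (Φ r)) := by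
    intro r
    have := continuous_uv
    have hf' := hf.continuous
    have hξ' := hξ.continuous
    have h3 : Continuous fun p : ℝ × ℂ => p.2 + r * uv p.1 := by fun_prop
    exact (continuous_const.mul ((hf'.comp h3).sub (hf'.comp continuous_snd))).mul
      (continuous_const.mul ((hξ'.comp h3).sub (hξ'.comp continuous_snd)))
  have hev : ∀ᶠ r : ℝ in 𝓝[>] 0, 0 < r ∧ r ≤ 1 ∧ r < r0 := by
    have h1 : ∀ᶠ r : ℝ in 𝓝[>] 0, r ∈ Ioo 0 (min 1 r0) := Ioo_mem_nhdsGT (by positivity)
    filter_upwards [h1] with r hr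
    exact ⟨hr.1, (hr.2.trans_le (min_le_left _ _)).le, hr.2.trans_le (min_le_right _ _)⟩
  -- inner limit
  have hinner : ∀ θ : ℝ, Tendsto (fun r => ∫ z, Φ r θ z) (𝓝[>] 0)
      (𝓝 (∫ z, fderiv ℝ f z (uv θ) * fderiv ℝ ξ z (uv θ))) := by
    intro θ
    apply tendsto_integral_filter_of_dominated_convergence bd
    · filter_upwards with r
      have : Continuous fun z => Φ r θ z := (hcontΦ r).comp (by fun_prop : Continuous fun z : ℂ => (θ, z))
      exact this.aestronglyMeasurable
    · filter_upwards [hev] with r hr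
      filter_upwards with z
      exact hbound r hr.1 hr.2.1 θ z
    · exact hbdi
    · filter_upwards with z
      have line : ∀ g : ℂ → ℝ, ContDiff ℝ 1 g → Tendsto (fun r : ℝ => r⁻¹ * (g (z + r * uv θ) - g z))
          (𝓝[>] 0) (𝓝 (fderiv ℝ g z (uv θ))) := by
        intro g hg
        have h1 : HasLineDerivAt ℝ g (fderiv ℝ g z (uv θ)) z (uv θ) :=
          ((hg.differentiable one_ne_zero) z).hasFDerivAt.hasLineDerivAt _
        have h2 := h1.tendsto_slope_zero_right
        simpa [Complex.real_smul] using h2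
      exact (line f hf).mul (line ξ hξ)
  -- outer limit
  have houter : Tendsto (fun r => ∫ θ in Ioc 0 (2 * Real.pi), ∫ z, Φ r θ z) (𝓝[>] 0)
      (𝓝 (∫ θ in Ioc 0 (2 * Real.pi), ∫ z, fderiv ℝ f z (uv θ) * fderiv ℝ ξ z (uv θ))) := by
    apply tendsto_integral_filter_of_dominated_convergence (fun _ => ∫ z, bd z)
    · filter_upwards with r
      have := (hcontΦ r).aestronglyMeasurable
        (μ := (volume.restrict (Ioc 0 (2 * Real.pi))).prod (volume : Measure ℂ))
      exact this.integral_prod_right'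
    · filter_upwards [hev] with r hr
      filter_upwards with θ
      exact norm_integral_le_of_norm_le hbdi (Eventually.of_forall (hbound r hr.1 hr.2.1 θ))
    · exact integrable_const _
    · filter_upwards with θ
      exact hinner θ
  rw [integral_directions hf hξ hξc] at houter
  have hle : Real.pi * ∫ z, gradProd f ξ z ≤ 0 := by
    refine le_of_tendsto houter ?_
    filter_upwards [hev] with r hr
    have h1 := bilinear_nonpos hf.continuous hfc hξ.continuous hξc hξ0 (r := r)
      (fun z hz => hm z hz r hr.1 hr.2.2)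
    have h2 : ∀ θ, ∫ z, Φ r θ z = (r⁻¹ * r⁻¹) *
        ∫ z, (f (z + r * uv θ) - f z) * (ξ (z + r * uv θ) - ξ z) := by
      intro θ
      rw [← integral_const_mul]
      congr 1
      funext z
      simp only [hΦ]; ring
    simp_rw [h2]
    rw [integral_const_mul]
    have h3 : 0 < r⁻¹ * r⁻¹ := by have := hr.1; positivity
    exact mul_nonpos_of_nonneg_of_nonpos h3.le h1
  have hpi := Real.pi_pos
  by_contra hcon
  push Not at hcon
  have := mul_pos hpi hcon
  linarith

end SecondStep

end Pool.Agent.Lib.MP_c751e8_an
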