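import Mathlib
import Pool.Agent.Lib.MP_c751e8_an.Touch
import Pool.Agent.Lib.MP_c751e8_an.Weak
import Pool.Agent.Lib.MP_c751e8_an.Flux

open MeasureTheory Filter Topology Set Metric Complex ComplexConjugate
open scoped Manifold

namespace Pool.Agent.Lib.MP_c751e8_an

/-- iterated integral over the plane -/
lemma integral_complex_eq (g : ℂ → ℝ) (hg : Integrable (fun p : ℝ × ℝ => g (p.1 + p.2 * I)) volume) :
    ∫ z, g z = ∫ x : ℝ, ∫ y : ℝ, g (x + y * I) := by
  have h1 := (Complex.volume_preserving_equiv_real_prod.symm).integral_comp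
    Complex.measurableEquivRealProd.symm.measurableEmbedding g
  rw [← h1]
  have h2 : (fun p : ℝ × ℝ => g (Complex.measurableEquivRealProd.symm p)) =
      fun p : ℝ × ℝ => g (p.1 + p.2 * I) := by
    funext p
    congr 1
    rw [Complex.measurableEquivRealProd_symm_apply, Complex.mk_eq_add_mul_I]
  rw [h2]
  exact integral_prod _ hg

/-- smooth cutoff functions -/
lemma exists_cutoff {K U : Set ℂ} (hK : IsCompact K) (hU : IsOpen U) (hKU : K ⊆ U) :
    ∃ χ : ℂ → ℝ, ContDiff ℝ 1 χ ∧ HasCompactSupport χ ∧ tsupport χ ⊆ U ∧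
      ∃ V : Set ℂ, IsOpen V ∧ K ⊆ V ∧ V ⊆ U ∧ ∀ z ∈ V, χ z = 1 := by
  obtain ⟨K', hK', hKK', hK'U⟩ := exists_compact_between hK hU hKU
  obtain ⟨χ, h1, h2, h3⟩ := exists_contMDiffMap_one_nhds_of_subset_interior (n := 1) 𝓘(ℝ, ℂ)
    hK.isClosed hKK'
  have hsm : ContDiff ℝ 1 χ := χ.contMDiff.contDiff
  have hts : tsupport χ ⊆ K' := by
    apply closure_minimal _ hK'.isClosed
    intro z hz
    by_contra hcon
    exact hz (h2 z hcon)
  obtain ⟨V, hV, hKV, hV1⟩ := eventually_nhdsSet_iff_exists.1 h1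
  exact ⟨χ, hsm, hK'.of_isClosed_subset (isClosed_tsupport _) hts, hts.trans hK'U,
    V ∩ U, hV.inter hU, subset_inter hKV hKU, inter_subset_right, fun z hz => hV1 z hz.1⟩

/-- clipping to an interval -/
noncomputable def clip (a b x : ℝ) : ℝ := max a (min x b)

lemma continuous_clip (a b : ℝ) : Continuous (clip a b) := by unfold clip; fun_prop

lemma clip_mem {a b : ℝ} (hab : a ≤ b) (x : ℝ) : clip a b x ∈ Icc a b :=
  ⟨le_max_left _ _, max_le hab (min_le_right _ _)⟩

lemma clip_of_mem {a b x : ℝ} (h : x ∈ Icc a b) : clip a b x = x := by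
  unfold clip; rw [min_eq_left h.2, max_eq_right h.1]

lemma abs_clip_sub_le (a b x y : ℝ) : |clip a b x - clip a b y| ≤ |x - y| := by
  unfold clip
  have h1 := abs_max_sub_max_le_max a (min x b) a (min y b)
  have h2 := abs_min_sub_min_le_max x b y b
  rw [sub_self, abs_zero, max_eq_right (abs_nonneg (min x b - min y b))] at h1
  rw [sub_self, abs_zero, max_eq_left (abs_nonneg (x - y))] at h2
  exact h1.trans h2

/-- subdivision of a step -/
lemma subdivide {g : ℝ → ℝ} {c d τ s : ℝ}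
    (h : ∀ y ∈ Icc c d, ∀ y' ∈ Icc c d, |y - y'| ≤ τ → |g y - g y'| ≤ s) (N : ℕ) :
    ∀ y ∈ Icc c d, ∀ y' ∈ Icc c d, |y - y'| ≤ (N + 1) * τ → |g y - g y'| ≤ (N + 1) * s := by
  induction N with
  | zero => simpa using h
  | succ N ih =>
    intro y hy y' hy' hle
    push_cast at hle ⊢
    have hN : (0 : ℝ) < (N : ℝ) + 1 + 1 := by positivity
    set z : ℝ := y' + (y - y') / ((N : ℝ) + 1 + 1) with hz
    have hzmem : z ∈ Icc c d := by
      have e1 : z = (1 - 1 / ((N : ℝ) + 1 + 1)) * y' + (1 / ((N : ℝ) + 1 + 1)) * y := by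
        rw [hz]; field_simp; ring
      have h1 : 0 ≤ 1 / ((N : ℝ) + 1 + 1) := by positivity
      have h2 : 1 / ((N : ℝ) + 1 + 1) ≤ 1 := by
        rw [div_le_one hN]; linarith [(Nat.cast_nonneg N : (0 : ℝ) ≤ N)]
      rw [e1]
      constructor
      · nlinarith [hy.1, hy'.1]
      · nlinarith [hy.2, hy'.2]
    have h1 : |z - y'| ≤ τ := by
      have : z - y' = (y - y') / ((N : ℝ) + 1 + 1) := by rw [hz]; ring
      rw [this, abs_div, abs_of_pos hN, div_le_iff₀ hN]
      linarith
    have h2 : |y - z| ≤ ((N : ℝ) + 1) * τ := by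
      have : y - z = (y - y') * (((N : ℝ) + 1) / ((N : ℝ) + 1 + 1)) := by
        rw [hz]; field_simp; ring
      rw [this, abs_mul, abs_of_nonneg (by positivity : (0 : ℝ) ≤ ((N : ℝ) + 1) / ((N : ℝ) + 1 + 1))]
      calc |y - y'| * (((N : ℝ) + 1) / ((N : ℝ) + 1 + 1))
          ≤ (((N : ℝ) + 1 + 1) * τ) * (((N : ℝ) + 1) / ((N : ℝ) + 1 + 1)) := by gcongr
        _ = ((N : ℝ) + 1) * τ := by field_simp
    have h3 := ih y hy z hzmem h2
    have h4 := h z hzmem y' hy' h1
    calc |g y - g y'| = |(g y - g z) + (g z - g y')| := by congr 1; ring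
      _ ≤ |g y - g z| + |g z - g y'| := abs_add_le _ _
      _ ≤ ((N : ℝ) + 1) * s + s := add_le_add h3 h4
      _ = _ := by ring

/-- the algebraic modulus estimate -/
lemma modulus_quot {B m0 L s τ p p' A A' k k' : ℝ} (hB : 0 ≤ B) (hm0 : 0 < m0)
    (hp' : |p'| ≤ B) (hA : |A| ≤ B) (hA' : |A'| ≤ B) (hk : |k| ≤ B)
    (hkm : m0 ≤ k) (hkm' : m0 ≤ k') (hL : 0 ≤ L) (hτ : 0 ≤ τ) (hs : 0 ≤ s)
    (h1 : |p - p'| ≤ L * τ) (h2 : |A - A'| ≤ s) (h3 : |k - k'| ≤ s) :
    |p * ((A ^ 2 + k ^ 2) / k) - p' * ((A' ^ 2 + k' ^ 2) / k')| ≤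
      (L * (B ^ 2 / m0 + B) + B * (2 * B / m0 + B ^ 2 / m0 ^ 2 + 1)) * (s + τ) := by
  have hk0 : 0 < k := by linarith
  have hk0' : 0 < k' := by linarith
  have e1 : (A ^ 2 + k ^ 2) / k = A ^ 2 / k + k := by field_simp
  have e2 : (A' ^ 2 + k' ^ 2) / k' = A' ^ 2 / k' + k' := by field_simp
  have g1 : |A ^ 2 / k + k| ≤ B ^ 2 / m0 + B := by
    have h4 : A ^ 2 / k ≤ B ^ 2 / m0 := by
      have : A ^ 2 ≤ B ^ 2 := by rw [← sq_abs A]; gcongr
      gcongr
    have h5 : k ≤ B := (le_abs_self k).trans hk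
    rw [abs_of_nonneg (by positivity)]
    linarith
  have g2 : |(A ^ 2 / k + k) - (A' ^ 2 / k' + k')| ≤ (2 * B / m0 + B ^ 2 / m0 ^ 2 + 1) * s := by
    have e3 : (A ^ 2 / k + k) - (A' ^ 2 / k' + k') =
        (A - A') * (A + A') / k + (A' ^ 2 * (k' - k) / (k * k')) + (k - k') := by
      field_simp; ring
    rw [e3]
    have a1 : |(A - A') * (A + A') / k| ≤ 2 * B / m0 * s := by
      rw [abs_div, abs_mul, abs_of_pos hk0]
      have : |A + A'| ≤ 2 * B := (abs_add_le _ _).trans (by linarith)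
      calc |A - A'| * |A + A'| / k ≤ s * (2 * B) / m0 := by gcongr
        _ = _ := by ring
    have a2 : |A' ^ 2 * (k' - k) / (k * k')| ≤ B ^ 2 / m0 ^ 2 * s := by
      rw [abs_div, abs_mul, abs_of_pos (mul_pos hk0 hk0'), abs_pow, abs_sub_comm k' k]
      calc |A'| ^ 2 * |k - k'| / (k * k') ≤ B ^ 2 * s / (m0 * m0) := by gcongr
        _ = _ := by ring
    calc |(A - A') * (A + A') / k + (A' ^ 2 * (k' - k) / (k * k')) + (k - k')|
        ≤ |(A - A') * (A + A') / k| + |A' ^ 2 * (k' - k) / (k * k')| + |k - k'| := abs_add_three _ _ _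
      _ ≤ 2 * B / m0 * s + B ^ 2 / m0 ^ 2 * s + s := by gcongr
      _ = _ := by ring
  rw [e1, e2]
  have e4 : p * (A ^ 2 / k + k) - p' * (A' ^ 2 / k' + k') =
      (p - p') * (A ^ 2 / k + k) + p' * ((A ^ 2 / k + k) - (A' ^ 2 / k' + k')) := by ring
  rw [e4]
  have c1 : 0 ≤ B ^ 2 / m0 + B := by positivity
  have c2 : 0 ≤ 2 * B / m0 + B ^ 2 / m0 ^ 2 + 1 := by positivity
  calc |(p - p') * (A ^ 2 / k + k) + p' * ((A ^ 2 / k + k) - (A' ^ 2 / k' + k'))|
      ≤ |p - p'| * |A ^ 2 / k + k| + |p'| * |(A ^ 2 / k + k) - (A' ^ 2 / k' + k')| := by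
        rw [← abs_mul, ← abs_mul]; exact abs_add_le _ _
    _ ≤ (L * τ) * (B ^ 2 / m0 + B) + B * ((2 * B / m0 + B ^ 2 / m0 ^ 2 + 1) * s) := by gcongr
    _ ≤ _ := by nlinarith [mul_nonneg (mul_nonneg hL c1) hs, mul_nonneg (mul_nonneg hB c2) hτ]

lemma contDiff_of_test {q Θ : ℝ → ℝ} {T0 T1 : ℝ} (hT : IsTest q Θ T0 T1) : ContDiff ℝ 1 Θ := by
  rw [contDiff_one_iff_deriv]
  refine ⟨fun u => (hT.hd u).differentiableAt, ?_⟩
  have : deriv Θ = q := by funext u; exact (hT.hd u).deriv
  rw [this]; exact hT.hq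

/-- the weak inequality for the test function `ψ · Θ ∘ f` -/
lemma test_ineq {f ψ : ℂ → ℝ} {G Gt : Set ℂ} (hG : IsOpen G) (hf : ContDiffOn ℝ 1 f G)
    (hGt : IsOpen Gt) (hGtG : Gt ⊆ G) (hm : SubMean f Gt) (hψ : ContDiff ℝ 1 ψ)
    (hψc : HasCompactSupport ψ) (hψ0 : ∀ z, 0 ≤ ψ z) (hψG : tsupport ψ ⊆ G)
    {q Θ : ℝ → ℝ} {T0 T1 : ℝ} (hT : IsTest q Θ T0 T1)
    (hdisj : ∀ z ∈ tsupport ψ, f z ∈ Icc T0 T1 → z ∈ Gt) :
    ∫ z, (Θ (f z) * gradProd f ψ z + ψ z * (q (f z) * ((fderiv ℝ f z 1) ^ 2 +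
      (fderiv ℝ f z I) ^ 2))) ≤ 0 := by
  set ξ : ℂ → ℝ := fun z => ψ z * Θ (f z) with hξ
  have hΘ := contDiff_of_test hT
  have hfc : ContinuousOn f G := hf.continuousOn
  have hξC : ContDiff ℝ 1 ξ := by
    rw [contDiff_iff_contDiffAt]
    intro z
    by_cases hz : z ∈ G
    · exact hψ.contDiffAt.mul (hΘ.contDiffAt.comp z (hf.contDiffAt (hG.mem_nhds hz)))
    · have hz' : z ∉ tsupport ψ := fun h => hz (hψG h)
      have h1 : ξ =ᶠ[𝓝 z] fun _ => 0 := by
        filter_upwards [notMem_tsupport_iff_eventuallyEq.1 hz'] with w hw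
        simp [hξ, hw]
      exact contDiffAt_const.congr_of_eventuallyEq h1
  have hξc : HasCompactSupport ξ := hψc.mul_right
  have hξ0 : ∀ z, 0 ≤ ξ z := fun z => mul_nonneg (hψ0 z) (hT.hpos _)
  have hξψ : tsupport ξ ⊆ tsupport ψ := closure_mono fun z hz h => hz (by simp [hξ, h])
  have hξt : tsupport ξ ⊆ Gt := by
    intro z hz
    have hzψ := hξψ hz
    have hzG := hψG hzψ
    apply hdisj z hzψ
    by_contra hcon
    have h1 : ∀ᶠ w in 𝓝 z, f w ∉ Icc T0 T1 := by
      have hcat : ContinuousAt f z := hfc.continuousAt (hG.mem_nhds hzG)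
      exact hcat.eventually_mem (isClosed_Icc.isOpen_compl.mem_nhds hcon)
    have h2 : z ∉ tsupport ξ := by
      rw [notMem_tsupport_iff_eventuallyEq]
      filter_upwards [h1] with w hw
      simp [hξ, hT.hΘ0 _ hw]
    exact h2 hz
  -- global extension of `f`
  obtain ⟨χ, hχ, hχc, hχs, V, hV, hKV, hVU, hV1⟩ := exists_cutoff hξc hGt hξt
  set g : ℂ → ℝ := fun z => χ z * f z with hg
  have hgC : ContDiff ℝ 1 g := by
    rw [contDiff_iff_contDiffAt]
    intro z
    by_cases hz : z ∈ G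
    · exact hχ.contDiffAt.mul (hf.contDiffAt (hG.mem_nhds hz))
    · have hz' : z ∉ tsupport χ := fun h => hz (hGtG (hχs h))
      have h1 : g =ᶠ[𝓝 z] fun _ => 0 := by
        filter_upwards [notMem_tsupport_iff_eventuallyEq.1 hz'] with w hw
        simp [hg, hw]
      exact contDiffAt_const.congr_of_eventuallyEq h1
  have hgc : HasCompactSupport g := hχc.mul_right
  have hgV : ∀ z ∈ V, g z = f z := fun z hz => by simp [hg, hV1 z hz]
  obtain ⟨r0, hr0, hr0s⟩ := hξc.isCompact.exists_cthickening_subset_open hV hKV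
  have hweak : ∫ z, gradProd g ξ z ≤ 0 := by
    apply weak_ineq hgC hgc hξC hξc hξ0 hr0
    intro z hz r hr hrr
    have hzt : z ∈ tsupport ξ := subset_tsupport _ hz
    have hball : closedBall z r ⊆ V := by
      refine Subset.trans ?_ hr0s
      exact (closedBall_subset_closedBall hrr.le).trans (closedBall_subset_cthickening hzt _)
    rw [hgV z (hKV hzt)]
    have h1 := hm z r hr (hball.trans hVU)
    refine h1.trans (le_of_eq ?_)
    apply Real.circleAverage_congr_sphere
    intro w hw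
    rw [abs_of_pos hr] at hw
    exact (hgV w (hball (sphere_subset_closedBall hw))).symm
  refine le_of_eq_of_le ?_ hweak
  congr 1
  funext z
  by_cases hz : z ∈ tsupport ψ
  · have hzG := hψG hz
    have hfd : HasFDerivAt f (fderiv ℝ f z) z :=
      ((hf.contDiffAt (hG.mem_nhds hzG)).differentiableAt one_ne_zero).hasFDerivAt
    have hψd : HasFDerivAt ψ (fderiv ℝ ψ z) z :=
      ((hψ.differentiable one_ne_zero) z).hasFDerivAt
    have hΘd : HasFDerivAt (fun w => Θ (f w)) (q (f z) • fderiv ℝ f z) z :=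
      (hT.hd (f z)).comp_hasFDerivAt z hfd
    have hξd : fderiv ℝ ξ z = ψ z • (q (f z) • fderiv ℝ f z) + Θ (f z) • fderiv ℝ ψ z :=
      (hψd.mul hΘd).fderiv
    by_cases hzξ : z ∈ tsupport ξ
    · have h1 : fderiv ℝ g z = fderiv ℝ f z := by
        apply Filter.EventuallyEq.fderiv_eq
        filter_upwards [hV.mem_nhds (hKV hzξ)] with w hw using hgV w hw
      unfold gradProd
      rw [h1, hξd]
      simp
      ring
    · have h0 : fderiv ℝ ξ z = 0 := by
        have := (notMem_tsupport_iff_eventuallyEq.1 hzξ).fderiv_eq (𝕜 := ℝ)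
        rw [this]; simp
      have h1 := hξd
      rw [h0] at h1
      have h2 : 0 = ψ z * (q (f z) * fderiv ℝ f z 1) + Θ (f z) * fderiv ℝ ψ z 1 := by
        have := congrArg (fun L : ℂ →L[ℝ] ℝ => L 1) h1
        simpa using this
      have h3 : 0 = ψ z * (q (f z) * fderiv ℝ f z I) + Θ (f z) * fderiv ℝ ψ z I := by
        have := congrArg (fun L : ℂ →L[ℝ] ℝ => L I) h1
        simpa using this
      unfold gradProd
      rw [h0]
      simp only [zero_apply, mul_zero, add_zero]
      linear_combination (-fderiv ℝ f z 1) * h2 + (-fderiv ℝ f z I) * h3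
  · have h1 : fderiv ℝ ψ z = 0 := by
      have := (notMem_tsupport_iff_eventuallyEq.1 hz).fderiv_eq (𝕜 := ℝ)
      rw [this]; simp
    have h2 : fderiv ℝ ξ z = 0 := by
      have := (notMem_tsupport_iff_eventuallyEq.1 (fun h => hz (hξψ h))).fderiv_eq (𝕜 := ℝ)
      rw [this]; simp
    have h3 : ψ z = 0 := image_eq_zero_of_notMem_tsupport hz
    unfold gradProd
    simp [h1, h2, h3]

/-- the closed box -/
def box (a b c d : ℝ) : Set ℂ := {z | z.re ∈ Icc a b ∧ z.im ∈ Icc c d}

/-- the open box -/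
def obox (a b c d : ℝ) : Set ℂ := {z | z.re ∈ Ioo a b ∧ z.im ∈ Ioo c d}

/-- the covering hypothesis on a set `R` -/
def Cov (f : ℂ → ℝ) (E : Set ℝ) (R : Set ℂ) : Prop :=
  ∀ ε > (0 : ℝ), ∃ (U : ℕ → Set ℝ) (τ s : ℕ → ℝ), E ⊆ ⋃ i, U i ∧
    (∀ i, 0 ≤ τ i ∧ 0 ≤ s i) ∧ (∀ i, ∀ t ∈ U i, ∀ t' ∈ U i, |t - t'| ≤ τ i) ∧
    (∀ i, ∀ u ∈ R, ∀ v ∈ R, ‖u - v‖ ≤ τ i → ‖fderiv ℝ f u - fderiv ℝ f v‖ ≤ s i) ∧
    ∑' i, ENNReal.ofReal (s i + τ i) ≤ ENNReal.ofReal ε

/-- The weak inequality near a point where the vertical derivative is positive. -/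
theorem weak_near {f ψ : ℂ → ℝ} {G Gt : Set ℂ} (hG : IsOpen G) (hf : ContDiffOn ℝ 1 f G)
    (hGt : IsOpen Gt) (hGtG : Gt ⊆ G) (hm : SubMean f Gt) {E : Set ℝ}
    (hE : ∀ z ∈ G, z ∉ Gt → f z ∈ E) {a b c d m0 : ℝ} (hab : a < b) (hcd : c < d) (hm0 : 0 < m0)
    (hR : box a b c d ⊆ G) (hpos : ∀ z ∈ box a b c d, m0 ≤ fderiv ℝ f z I)
    (hψ : ContDiff ℝ 1 ψ) (hψ0 : ∀ z, 0 ≤ ψ z) (hψs : tsupport ψ ⊆ obox a b c d)
    (hcov : Cov f E (box a b c d)) :
    ∫ z, gradProd f ψ z ≤ 0 := by
  -- preliminaries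
  set P : ℝ → ℝ → ℂ := fun x y => (clip a b x : ℂ) + (clip c d y : ℂ) * I with hP
  have hPre : ∀ x y, (P x y).re = clip a b x := fun x y => by simp [hP]
  have hPim : ∀ x y, (P x y).im = clip c d y := fun x y => by simp [hP]
  have hPbox : ∀ x y, P x y ∈ box a b c d := fun x y =>
    ⟨by rw [hPre]; exact clip_mem hab.le x, by rw [hPim]; exact clip_mem hcd.le y⟩
  have hPc : Continuous (Function.uncurry P) := by
    have h1 := continuous_clip a b
    have h2 := continuous_clip c d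
    have : Continuous fun p : ℝ × ℝ => (clip a b p.1 : ℂ) + (clip c d p.2 : ℂ) * I := by fun_prop
    exact this
  have hPmem : ∀ x ∈ Icc a b, ∀ y ∈ Icc c d, P x y = x + y * I := fun x hx y hy => by
    simp only [hP]; rw [clip_of_mem hx, clip_of_mem hy]
  have hboxc : IsCompact (box a b c d) := by
    have h1 : box a b c d = (fun p : ℝ × ℝ => (p.1 : ℂ) + (p.2 : ℂ) * I) '' (Icc a b ×ˢ Icc c d) := by
      ext z
      constructor
      · intro hz
        exact ⟨(z.re, z.im), ⟨hz.1, hz.2⟩, by simp [Complex.re_add_im]⟩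
      · rintro ⟨⟨x, y⟩, ⟨hx, hy⟩, rfl⟩
        exact ⟨by simpa using hx, by simpa using hy⟩
    rw [h1]
    exact (isCompact_Icc.prod isCompact_Icc).image (by fun_prop)
  have hobb : obox a b c d ⊆ box a b c d := fun z hz =>
    ⟨Ioo_subset_Icc_self hz.1, Ioo_subset_Icc_self hz.2⟩
  have hψc : HasCompactSupport ψ := hboxc.of_isClosed_subset (isClosed_tsupport _) (hψs.trans hobb)
  have hψG : tsupport ψ ⊆ G := (hψs.trans hobb).trans hR
  have hdf : ContinuousOn (fderiv ℝ f) G := hf.continuousOn_fderiv_of_isOpen hG le_rfl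
  have hdfP : Continuous fun p : ℝ × ℝ => fderiv ℝ f (P p.1 p.2) :=
    hdf.comp_continuous hPc fun p => hR (hPbox p.1 p.2)
  -- the functions
  set k : ℝ → ℝ → ℝ := fun x y => fderiv ℝ f (P x y) I with hk
  set A : ℝ → ℝ → ℝ := fun x y => fderiv ℝ f (P x y) 1 with hA
  have ck : Continuous (Function.uncurry k) := hdfP.clm_apply continuous_const
  have cA : Continuous (Function.uncurry A) := hdfP.clm_apply continuous_const
  have hkm : ∀ x y, m0 ≤ k x y := fun x y => hpos _ (hPbox x y)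
  have hk0 : ∀ x y, 0 < k x y := fun x y => hm0.trans_le (hkm x y)
  set F : ℝ → ℝ → ℝ := fun x y => f (P x c) + ∫ s in c..y, k x s with hF
  have cF : Continuous (Function.uncurry F) := by
    have h1 : Continuous fun p : ℝ × ℝ => f (P p.1 c) :=
      hf.continuousOn.comp_continuous (hPc.comp (by fun_prop : Continuous fun p : ℝ × ℝ => (p.1, c)))
        fun p => hR (hPbox p.1 c)
    have h2 := intervalIntegral.continuous_parametric_primitive_of_continuous (a₀ := c)
      (μ := volume) ck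
    exact h1.add h2
  have hFd : ∀ x y, HasDerivAt (F x) (k x y) y := by
    intro x y
    have hc : Continuous (k x) := ck.comp (by fun_prop : Continuous fun s : ℝ => (x, s))
    have := intervalIntegral.integral_hasDerivAt_right (hc.intervalIntegrable c y)
      hc.aestronglyMeasurable.stronglyMeasurableAtFilter hc.continuousAt
    exact this.const_add _
  have hFf : ∀ x ∈ Icc a b, ∀ y ∈ Icc c d, F x y = f (x + y * I) := by
    intro x hx y hy
    have h1 : ∫ s in c..y, k x s = f (x + y * I) - f (x + c * I) := by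
      have hder : ∀ s ∈ uIcc c y, HasDerivAt (fun s : ℝ => f (x + s * I)) (k x s) s := by
        intro s hs
        rw [uIcc_of_le hy.1] at hs
        have hs' : s ∈ Icc c d := ⟨hs.1, hs.2.trans hy.2⟩
        have hzG : (x + s * I : ℂ) ∈ G := by rw [← hPmem x hx s hs']; exact hR (hPbox x s)
        have h2 : HasFDerivAt f (fderiv ℝ f (x + s * I)) (x + s * I) :=
          ((hf.contDiffAt (hG.mem_nhds hzG)).differentiableAt one_ne_zero).hasFDerivAt
        have h3 : HasDerivAt (fun s : ℝ => (x + s * I : ℂ)) I s := by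
          have := ((hasDerivAt_id s).ofReal_comp.mul_const I).const_add (x : ℂ)
          simpa using this
        have h4 := h2.comp_hasDerivAt s h3
        simp only [hk]
        rw [hPmem x hx s hs']
        exact h4
      have hc : Continuous (k x) := ck.comp (by fun_prop : Continuous fun s : ℝ => (x, s))
      rw [intervalIntegral.integral_eq_sub_of_hasDerivAt hder (hc.intervalIntegrable _ _)]
    simp only [hF]
    rw [h1, hPmem x hx c ⟨le_rfl, hcd.le⟩]
    ring
  set H : ℝ → ℝ → ℝ := fun x y => ψ (x + y * I) * ((A x y ^ 2 + k x y ^ 2) / k x y) with hH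
  set n : ℝ → ℝ → ℝ := fun x y => A x y * fderiv ℝ ψ (x + y * I) 1 +
    k x y * fderiv ℝ ψ (x + y * I) I with hn
  have cxy : Continuous fun p : ℝ × ℝ => (p.1 + p.2 * I : ℂ) := by fun_prop
  have cψ : Continuous fun p : ℝ × ℝ => ψ (p.1 + p.2 * I) := hψ.continuous.comp cxy
  have cdψ : Continuous fun p : ℝ × ℝ => fderiv ℝ ψ (p.1 + p.2 * I) :=
    (hψ.continuous_fderiv one_ne_zero).comp cxy
  have cH : Continuous (Function.uncurry H) :=
    cψ.mul (((cA.pow 2).add (ck.pow 2)).div ck fun p => (hk0 p.1 p.2).ne')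
  have cn : Continuous (Function.uncurry n) :=
    (cA.mul (cdψ.clm_apply continuous_const)).add (ck.mul (cdψ.clm_apply continuous_const))
  have hout : ∀ x y : ℝ, (x ∉ Ioo a b ∨ y ∉ Ioo c d) → (x + y * I : ℂ) ∉ tsupport ψ := by
    intro x y hxy h
    have := hψs h
    have h1 : x ∈ Ioo a b := by simpa using this.1
    have h2 : y ∈ Ioo c d := by simpa using this.2
    rcases hxy with h3 | h3
    · exact h3 h1
    · exact h3 h2
  have hψz : ∀ z, z ∉ tsupport ψ → ψ z = 0 ∧ fderiv ℝ ψ z = 0 := by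
    intro z hz
    refine ⟨image_eq_zero_of_notMem_tsupport hz, ?_⟩
    have := (notMem_tsupport_iff_eventuallyEq.1 hz).fderiv_eq (𝕜 := ℝ)
    rw [this]; simp
  have hin : ∀ x y : ℝ, (x + y * I : ℂ) ∈ tsupport ψ → x ∈ Icc a b ∧ y ∈ Icc c d := by
    intro x y h
    have := hψs h
    exact ⟨Ioo_subset_Icc_self (by simpa using this.1), Ioo_subset_Icc_self (by simpa using this.2)⟩
  have hngrad : ∀ x y : ℝ, n x y = gradProd f ψ (x + y * I) := by
    intro x y
    by_cases hz : (x + y * I : ℂ) ∈ tsupport ψ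
    · obtain ⟨hx, hy⟩ := hin x y hz
      simp only [hn, hA, hk, gradProd]
      rw [hPmem x hx y hy]
    · simp only [hn, gradProd]
      rw [(hψz _ hz).2]
      simp
  have D : Data k F H n m0 a b c d := by
    refine ⟨hm0, ck, hkm, cF, hFd, cH, cn, hab.le, hcd.le, ?_, ?_⟩
    · intro x y hxy
      simp only [hH]
      rw [(hψz _ (hout x y hxy)).1, zero_mul]
    · intro x y hxy
      rw [hngrad]; unfold gradProd
      rw [(hψz _ (hout x y hxy)).2]
      simp
  have hcsn : HasCompactSupport (Function.uncurry n) := by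
    apply HasCompactSupport.intro' (K := Icc a b ×ˢ Icc c d) (isCompact_Icc.prod isCompact_Icc)
      (isClosed_Icc.prod isClosed_Icc)
    rintro ⟨x, y⟩ hxy
    simp only [Function.uncurry]
    by_cases hx : x ∈ Icc a b
    · have hy : y ∉ Icc c d := fun h => hxy ⟨hx, h⟩
      exact D.hns x y (Or.inr fun h => hy (Ioo_subset_Icc_self h))
    · exact D.hns x y (Or.inl fun h => hx (Ioo_subset_Icc_self h))
  have hfin : ∫ z, gradProd f ψ z = ∫ x, ∫ y, n x y := by
    rw [integral_complex_eq]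
    · congr 1; funext x; congr 1; funext y; exact (hngrad x y).symm
    · have : (fun p : ℝ × ℝ => gradProd f ψ (p.1 + p.2 * I)) = Function.uncurry n := by
        funext p; exact (hngrad p.1 p.2).symm
      rw [this]
      exact cn.integrable_of_hasCompactSupport hcsn
  rw [hfin]
  apply integral_nonpos_of_test D (E := E)
  · -- the test inequality
    intro t ht
    have hKc : IsCompact (f '' (tsupport ψ \ Gt)) :=
      (hψc.isCompact.diff hGt).image_of_continuousOn
        (hf.continuousOn.mono fun z hz => hψG hz.1)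
    have htK : t ∉ f '' (tsupport ψ \ Gt) := by
      rintro ⟨z, hz, rfl⟩
      exact ht (hE z (hψG hz.1) hz.2)
    obtain ⟨η, hη, hηs⟩ := Metric.isOpen_iff.1 hKc.isClosed.isOpen_compl t htK
    refine ⟨η, hη, ?_⟩
    intro q Θ T0 T1 hT h0 h1
    have hdisj : ∀ z ∈ tsupport ψ, f z ∈ Icc T0 T1 → z ∈ Gt := by
      intro z hz hfz
      by_contra hcon
      have h2 : f z ∈ ball t η := by
        rw [Real.ball_eq_Ioo]
        exact ⟨by linarith [hfz.1], by linarith [hfz.2]⟩
      exact hηs h2 ⟨z, ⟨hz, hcon⟩, rfl⟩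
    have hkey := test_ineq hG hf hGt hGtG hm hψ hψc hψ0 hψG hT hdisj
    refine le_of_eq_of_le ?_ hkey
    have hpt : ∀ x y : ℝ, Θ (F x y) * n x y + H x y * (k x y * q (F x y)) =
        Θ (f (x + y * I)) * gradProd f ψ (x + y * I) + ψ (x + y * I) *
        (q (f (x + y * I)) * ((fderiv ℝ f (x + y * I) 1) ^ 2 + (fderiv ℝ f (x + y * I) I) ^ 2)) := by
      intro x y
      by_cases hz : (x + y * I : ℂ) ∈ tsupport ψ
      · obtain ⟨hx, hy⟩ := hin x y hz
        rw [hFf x hx y hy, hngrad]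
        simp only [hH]
        have e1 : A x y = fderiv ℝ f (x + y * I) 1 := by simp only [hA]; rw [hPmem x hx y hy]
        have e2 : k x y = fderiv ℝ f (x + y * I) I := by simp only [hk]; rw [hPmem x hx y hy]
        rw [← e1, ← e2]
        have := (hk0 x y).ne'
        field_simp
      · rw [hngrad]
        simp only [hH, gradProd]
        rw [(hψz _ hz).1, (hψz _ hz).2]
        simp
    rw [integral_complex_eq]
    · congr 1; funext x; congr 1; funext y; exact hpt x y
    · have : (fun p : ℝ × ℝ => Θ (f (p.1 + p.2 * I)) * gradProd f ψ (p.1 + p.2 * I) +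
          ψ (p.1 + p.2 * I) * (q (f (p.1 + p.2 * I)) * ((fderiv ℝ f (p.1 + p.2 * I) 1) ^ 2 +
          (fderiv ℝ f (p.1 + p.2 * I) I) ^ 2))) =
          fun p : ℝ × ℝ => Θ (F p.1 p.2) * n p.1 p.2 + H p.1 p.2 * (k p.1 p.2 * q (F p.1 p.2)) := by
        funext p; exact (hpt p.1 p.2).symm
      rw [this]
      have cΘ : Continuous Θ := (contDiff_of_test hT).continuous
      have hcont : Continuous fun p : ℝ × ℝ => Θ (F p.1 p.2) * n p.1 p.2 +
          H p.1 p.2 * (k p.1 p.2 * q (F p.1 p.2)) :=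
        ((cΘ.comp cF).mul cn).add (cH.mul (ck.mul (hT.hq.comp cF)))
      apply hcont.integrable_of_hasCompactSupport
      apply HasCompactSupport.intro' (K := Icc a b ×ˢ Icc c d) (isCompact_Icc.prod isCompact_Icc)
        (isClosed_Icc.prod isClosed_Icc)
      rintro ⟨x, y⟩ hxy
      simp only
      have hxy' : x ∉ Ioo a b ∨ y ∉ Ioo c d := by
        by_cases hx : x ∈ Icc a b
        · have hy : y ∉ Icc c d := fun h => hxy ⟨hx, h⟩
          exact Or.inr fun h => hy (Ioo_subset_Icc_self h)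
        · exact Or.inl fun h => hx (Ioo_subset_Icc_self h)
      rw [D.hHs x y hxy', D.hns x y hxy']
      simp
  · -- the covering estimate
    obtain ⟨B1, hB1⟩ := (hboxc.bddAbove_image (hdf.mono hR).norm)
    obtain ⟨B2, hB2⟩ := hψc.exists_bound_of_continuous hψ.continuous
    obtain ⟨L, hL⟩ := hψ.lipschitzWith_of_hasCompactSupport hψc one_ne_zero
    set B : ℝ := max (max B1 B2) 0 with hBdef
    have hB0 : 0 ≤ B := le_max_right _ _
    have hBA : ∀ x y, |A x y| ≤ B := by
      intro x y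
      have h1 : ‖fderiv ℝ f (P x y)‖ ≤ B1 := hB1 ⟨_, hPbox x y, rfl⟩
      have h2 : ‖fderiv ℝ f (P x y) 1‖ ≤ ‖fderiv ℝ f (P x y)‖ * ‖(1 : ℂ)‖ :=
        (fderiv ℝ f (P x y)).le_opNorm 1
      rw [norm_one, mul_one, Real.norm_eq_abs] at h2
      exact h2.trans (h1.trans ((le_max_left _ _).trans (le_max_left _ _)))
    have hBk : ∀ x y, |k x y| ≤ B := by
      intro x y
      have h1 : ‖fderiv ℝ f (P x y)‖ ≤ B1 := hB1 ⟨_, hPbox x y, rfl⟩
      have h2 : ‖fderiv ℝ f (P x y) I‖ ≤ ‖fderiv ℝ f (P x y)‖ * ‖(I : ℂ)‖ :=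
        (fderiv ℝ f (P x y)).le_opNorm I
      rw [Complex.norm_I, mul_one, Real.norm_eq_abs] at h2
      exact h2.trans (h1.trans ((le_max_left _ _).trans (le_max_left _ _)))
    have hBψ : ∀ z, |ψ z| ≤ B := fun z =>
      (hB2 z).trans ((le_max_right _ _).trans (le_max_left _ _))
    obtain ⟨N, hN⟩ := exists_nat_ge (1 / m0)
    set C1 : ℝ := L * (B ^ 2 / m0 + B) + B * (2 * B / m0 + B ^ 2 / m0 ^ 2 + 1) with hC1
    have hC10 : 0 ≤ C1 := by positivity
    set C2 : ℝ := (N + 1) * (C1 + 1) with hC2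
    have hC20 : 0 < C2 := by positivity
    intro ε hε
    obtain ⟨U, τ, s, hEU, hnn, hdiam, hgood, hsum⟩ := hcov (ε / C2) (by positivity)
    refine ⟨U, fun i => C2 * (s i + τ i), hEU, fun i => ?_, ?_, ?_⟩
    · have := hnn i
      have : 0 ≤ s i + τ i := by linarith [this.1, this.2]
      positivity
    · calc ∑' i, ENNReal.ofReal (C2 * (s i + τ i))
          = ∑' i, ENNReal.ofReal C2 * ENNReal.ofReal (s i + τ i) := by
            congr 1; funext i; rw [ENNReal.ofReal_mul hC20.le]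
        _ = ENNReal.ofReal C2 * ∑' i, ENNReal.ofReal (s i + τ i) := ENNReal.tsum_mul_left
        _ ≤ ENNReal.ofReal C2 * ENNReal.ofReal (ε / C2) := by gcongr
        _ = ENNReal.ofReal ε := by
            rw [← ENNReal.ofReal_mul hC20.le]; congr 1; field_simp
    · intro i t ht t' ht' x hx y y' hyy
      obtain ⟨hτ0, hs0⟩ := hnn i
      have htt := hdiam i t ht t' ht'
      have hle : |y - y'| ≤ (N + 1) * τ i := by
        calc |y - y'| ≤ |t - t'| / m0 := hyy
          _ ≤ τ i / m0 := by gcongr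
          _ = (1 / m0) * τ i := by ring
          _ ≤ (N + 1) * τ i := by
              have : 1 / m0 ≤ N + 1 := by linarith
              gcongr
      -- basic modulus
      have hbase : ∀ y ∈ Icc c d, ∀ y' ∈ Icc c d, |y - y'| ≤ τ i →
          |H x y - H x y'| ≤ C1 * (s i + τ i) := by
        intro y hy y' hy' hle
        have e1 : P x y - P x y' = ((y - y' : ℝ) : ℂ) * I := by
          simp only [hP]; rw [clip_of_mem hy, clip_of_mem hy']; push_cast; ring
        have e2 : ‖P x y - P x y'‖ ≤ τ i := by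
          rw [e1, norm_mul, Complex.norm_I, mul_one, Complex.norm_real]; exact hle
        have e3 := hgood i _ (hPbox x y) _ (hPbox x y') e2
        have e4 : |A x y - A x y'| ≤ s i := by
          have h2 := (fderiv ℝ f (P x y) - fderiv ℝ f (P x y')).le_opNorm 1
          rw [norm_one, mul_one, Real.norm_eq_abs] at h2
          exact h2.trans e3
        have e5 : |k x y - k x y'| ≤ s i := by
          have h2 := (fderiv ℝ f (P x y) - fderiv ℝ f (P x y')).le_opNorm I
          rw [Complex.norm_I, mul_one, Real.norm_eq_abs] at h2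
          exact h2.trans e3
        have e6 : |ψ (x + y * I) - ψ (x + y' * I)| ≤ L * τ i := by
          have h2 := hL.dist_le_mul (x + y * I) (x + y' * I)
          rw [Real.dist_eq, dist_eq_norm] at h2
          have h3 : (x + y * I : ℂ) - (x + y' * I) = ((y - y' : ℝ) : ℂ) * I := by push_cast; ring
          rw [h3, norm_mul, Complex.norm_I, mul_one, Complex.norm_real] at h2
          exact h2.trans (by gcongr; exact hle)
        exact modulus_quot hB0 hm0 (hBψ _) (hBA x y) (hBA x y') (hBk x y) (hkm x y) (hkm x y')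
          L.coe_nonneg hτ0 hs0 e6 e4 e5
      have hclip : ∀ y, H x y = H x (clip c d y) := by
        intro y
        by_cases hy : y ∈ Icc c d
        · rw [clip_of_mem hy]
        · have h1 : H x y = 0 := D.hHs x y (Or.inr fun h => hy (Ioo_subset_Icc_self h))
          have h2 : clip c d y ∉ Ioo c d := by
            intro h
            unfold clip at h
            rcases lt_or_ge y c with h3 | h3
            · have : max c (min y d) = c := max_eq_left ((min_le_left _ _).trans h3.le)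
              rw [this] at h; exact lt_irrefl _ h.1
            · have h4 : d < y := by
                by_contra h5
                push Not at h5
                exact hy ⟨h3, h5⟩
              have : max c (min y d) = d := by
                rw [min_eq_right h4.le, max_eq_right hcd.le]
              rw [this] at h; exact lt_irrefl _ h.2
          rw [h1, D.hHs x _ (Or.inr h2)]
      constructor
      · rw [hclip y, hclip y']
        have h1 : |clip c d y - clip c d y'| ≤ (N + 1) * τ i := (abs_clip_sub_le _ _ _ _).trans hle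
        have h2 := subdivide hbase N _ (clip_mem hcd.le y) _ (clip_mem hcd.le y') h1
        refine h2.trans ?_
        change _ ≤ ((N : ℝ) + 1) * (C1 + 1) * (s i + τ i)
        rw [mul_assoc ((N : ℝ) + 1) (C1 + 1)]
        have : 0 ≤ s i + τ i := by linarith
        gcongr
        linarith
      · refine hle.trans ?_
        change _ ≤ ((N : ℝ) + 1) * (C1 + 1) * (s i + τ i)
        rw [mul_assoc ((N : ℝ) + 1) (C1 + 1)]
        have h3 : τ i ≤ (C1 + 1) * (s i + τ i) := by
          have : 0 ≤ C1 * (s i + τ i) := mul_nonneg hC10 (by linarith)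
          linarith
        gcongr

end Pool.Agent.Lib.MP_c751e8_an
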