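import Mathlib
import Pool.Agent.Lib.MP_c751e8_an.Local

open MeasureTheory Filter Topology Set Metric Complex ComplexConjugate

namespace Pool.Agent.Lib.MP_c751e8_an

lemma integral_affine_mul_fderiv {ψ : ℂ → ℝ} (hψ : ContDiff ℝ 1 ψ) (hψc : HasCompactSupport ψ)
    (a : ℝ) (ℓ : ℂ →L[ℝ] ℝ) (v : ℂ) :
    ∫ w, (a + ℓ w) * fderiv ℝ ψ w v = -(ℓ v) * ∫ w, ψ w := by
  have hd : ∀ w, HasFDerivAt (fun w => a + ℓ w) ℓ w := fun w => (ℓ.hasFDerivAt).const_add a
  have hc : Continuous fun w => a + ℓ w := by fun_prop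
  have h1 : ∫ w, (a + ℓ w) * fderiv ℝ ψ w v = -∫ w, fderiv ℝ (fun w => a + ℓ w) w v * ψ w := by
    apply integral_mul_fderiv_eq_neg_fderiv_mul_of_integrable
    · have : (fun w => fderiv ℝ (fun w => a + ℓ w) w v * ψ w) = fun w => ℓ v * ψ w := by
        funext w; rw [(hd w).fderiv]
      rw [this]
      exact (hψ.continuous.integrable_of_hasCompactSupport hψc).const_mul _
    · have h2 : Continuous fun w => fderiv ℝ ψ w v :=
        (hψ.continuous_fderiv one_ne_zero).clm_apply continuous_const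
      have h3 : HasCompactSupport fun w => fderiv ℝ ψ w v := hψc.fderiv_apply ℝ v
      exact (hc.mul h2).integrable_of_hasCompactSupport h3.mul_left
    · exact (hc.mul hψ.continuous).integrable_of_hasCompactSupport hψc.mul_left
    · intro w _; exact (hd w).differentiableAt
    · intro w _; exact (hψ.differentiable one_ne_zero) w
  rw [h1]
  have : (fun w => fderiv ℝ (fun w => a + ℓ w) w v * ψ w) = fun w => ℓ v * ψ w := by
    funext w; rw [(hd w).fderiv]
  rw [this, integral_const_mul]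
  ring

lemma hasDerivAt_posSq (t : ℝ) : HasDerivAt (fun t : ℝ => (max t 0) ^ 2) (2 * max t 0) t := by
  rcases lt_trichotomy t 0 with h | h | h
  · have h1 : (fun t : ℝ => (max t 0) ^ 2) =ᶠ[𝓝 t] fun _ => 0 := by
      filter_upwards [eventually_lt_nhds h] with s hs
      rw [max_eq_right hs.le]; simp
    rw [max_eq_right h.le, mul_zero]
    exact (hasDerivAt_const t (0 : ℝ)).congr_of_eventuallyEq h1
  · subst h
    rw [max_self, mul_zero]
    rw [hasDerivAt_iff_isLittleO]
    simp only [max_self, ne_eq, OfNat.ofNat_ne_zero, not_false_eq_true, zero_pow, sub_zero,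
      smul_eq_mul, mul_zero]
    have h2 : (fun t : ℝ => (max t 0) ^ 2) =O[𝓝 0] fun t : ℝ => t ^ 2 := by
      apply Asymptotics.IsBigO.of_bound 1
      filter_upwards with t
      rw [one_mul, Real.norm_eq_abs, Real.norm_eq_abs, abs_pow, abs_pow]
      have : |max t 0| ≤ |t| := by
        rcases le_total t 0 with h | h
        · rw [max_eq_right h]; simp
        · rw [max_eq_left h]
      gcongr
    have h3 : (fun t : ℝ => t ^ 2) =o[𝓝 0] fun t : ℝ => t := by
      have := Asymptotics.isLittleO_pow_id (𝕜 := ℝ) (n := 2) (by norm_num)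
      exact this
    exact h2.trans_isLittleO h3
  · have h1 : (fun t : ℝ => (max t 0) ^ 2) =ᶠ[𝓝 t] fun t => t ^ 2 := by
      filter_upwards [eventually_gt_nhds h] with s hs
      rw [max_eq_left hs.le]
    rw [max_eq_left h.le]
    have := (hasDerivAt_pow 2 t).congr_of_eventuallyEq h1
    simpa using this

lemma contDiff_posSq : ContDiff ℝ 1 (fun t : ℝ => (max t 0) ^ 2) := by
  rw [contDiff_one_iff_deriv]
  refine ⟨fun t => (hasDerivAt_posSq t).differentiableAt, ?_⟩
  have : deriv (fun t : ℝ => (max t 0) ^ 2) = fun t => 2 * max t 0 := by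
    funext t; exact (hasDerivAt_posSq t).deriv
  rw [this]; fun_prop

/-- gradient of the comparison quadratic -/
lemma hasFDerivAt_quad (a : ℝ) (b e z0 : ℂ) (κ : ℝ) (w : ℂ) :
    ∃ L : ℂ →L[ℝ] ℝ, HasFDerivAt (fun w : ℂ => a + (b * (w - z0) + e * (w - z0) ^ 2).re -
      κ / 2 * ‖w - z0‖ ^ 2) L w ∧ L 1 = (b + 2 * e * (w - z0)).re - κ * (w - z0).re ∧
      L I = ((b + 2 * e * (w - z0)) * I).re - κ * (w - z0).im := by
  have h1 : HasFDerivAt (fun w : ℂ => b * (w - z0) + e * (w - z0) ^ 2)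
      ((ContinuousLinearMap.toSpanSingleton ℂ (b + 2 * e * (w - z0))).restrictScalars ℝ) w := by
    have h2 : HasDerivAt (fun w : ℂ => b * (w - z0) + e * (w - z0) ^ 2)
        (b + 2 * e * (w - z0)) w := by
      have h3 : HasDerivAt (fun w : ℂ => w - z0) 1 w := (hasDerivAt_id w).sub_const z0
      have h4 := (h3.const_mul b).fun_add ((h3.fun_pow 2).const_mul e)
      convert! h4 using 1
      simp; ring
    exact h2.hasFDerivAt.restrictScalars ℝ
  have h5 : HasFDerivAt (fun w : ℂ => (b * (w - z0) + e * (w - z0) ^ 2).re)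
      (Complex.reCLM.comp
        ((ContinuousLinearMap.toSpanSingleton ℂ (b + 2 * e * (w - z0))).restrictScalars ℝ)) w :=
    Complex.reCLM.hasFDerivAt.comp w h1
  have h6 : HasFDerivAt (fun w : ℂ => ‖w - z0‖ ^ 2)
      (2 • (innerSL ℝ (w - z0))) w := by
    have := (hasStrictFDerivAt_norm_sq (w - z0)).hasFDerivAt.comp w ((hasFDerivAt_id w).sub_const z0)
    rw [ContinuousLinearMap.comp_id] at this
    exact this
  refine ⟨_, (h5.const_add a).sub (h6.const_mul (κ / 2)), ?_, ?_⟩
  · simp [Complex.inner]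
    ring
  · simp [Complex.inner]
    ring

/-- No touching at a point where the vertical derivative is positive. -/
theorem not_touch_vertical {f : ℂ → ℝ} {G Gt : Set ℂ} (hG : IsOpen G) (hf : ContDiffOn ℝ 1 f G)
    (hGt : IsOpen Gt) (hGtG : Gt ⊆ G) (hm : SubMean f Gt) {E : Set ℝ}
    (hE : ∀ z ∈ G, z ∉ Gt → f z ∈ E) {z0 : ℂ} (hz0 : 0 < fderiv ℝ f z0 I) {ρc : ℝ}
    (hρc : 0 < ρc) (hball : closedBall z0 ρc ⊆ G) (hcov : Cov f E (closedBall z0 ρc)) :
    ¬ Touch f z0 := by
  classical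
  rintro ⟨b, e, κ, hκ, ρ, hρ, ht⟩
  have hz0G : z0 ∈ G := hball (mem_closedBall_self hρc.le)
  have hdf : ContinuousOn (fderiv ℝ f) G := hf.continuousOn_fderiv_of_isOpen hG le_rfl
  -- choose the radius
  have hcat : ContinuousAt (fun z => fderiv ℝ f z I) z0 :=
    (hdf.continuousAt (hG.mem_nhds hz0G)).clm_apply continuousAt_const
  obtain ⟨r1, hr1, hr1s⟩ := Metric.eventually_nhds_iff.1
    (hcat.eventually_const_lt (by linarith : fderiv ℝ f z0 I / 2 < fderiv ℝ f z0 I))
  set r : ℝ := min (r1 / 2) ρc / 2 with hr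
  have hrpos : 0 < r := by positivity
  have hmin1 := min_le_left (r1 / 2) ρc
  have hmin2 := min_le_right (r1 / 2) ρc
  have hboxb : box (z0.re - r) (z0.re + r) (z0.im - r) (z0.im + r) ⊆ closedBall z0 (2 * r) := by
    intro z hz
    rw [mem_closedBall_iff_norm]
    have h1 : |(z - z0).re| ≤ r := by
      rw [Complex.sub_re, abs_le]; constructor <;> linarith [hz.1.1, hz.1.2]
    have h2 : |(z - z0).im| ≤ r := by
      rw [Complex.sub_im, abs_le]; constructor <;> linarith [hz.2.1, hz.2.2]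
    exact (Complex.norm_le_abs_re_add_abs_im _).trans (by linarith)
  have hbox1 : box (z0.re - r) (z0.re + r) (z0.im - r) (z0.im + r) ⊆ closedBall z0 ρc :=
    hboxb.trans (closedBall_subset_closedBall (by linarith))
  have hpos : ∀ z ∈ box (z0.re - r) (z0.re + r) (z0.im - r) (z0.im + r),
      fderiv ℝ f z0 I / 2 ≤ fderiv ℝ f z I := by
    intro z hz
    apply le_of_lt
    apply hr1s
    have := hboxb hz
    rw [mem_closedBall] at this
    linarith
  have hcov' : Cov f E (box (z0.re - r) (z0.re + r) (z0.im - r) (z0.im + r)) := by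
    intro ε hε
    obtain ⟨U, τ, s, h1, h2, h3, h4, h5⟩ := hcov ε hε
    exact ⟨U, τ, s, h1, h2, h3, fun i u hu v hv => h4 i u (hbox1 hu) v (hbox1 hv), h5⟩
  set ρ1 : ℝ := min ρ r with hρ1
  have hρ1pos : 0 < ρ1 := by positivity
  have hρ1ρ : ρ1 ≤ ρ := min_le_left _ _
  have hρ1r : ρ1 ≤ r := min_le_right _ _
  set δ : ℝ := κ / 2 * (ρ1 / 2) ^ 2 with hδ
  have hδpos : 0 < δ := by positivity
  set Q : ℂ → ℝ := fun w => f z0 + (b * (w - z0) + e * (w - z0) ^ 2).re - κ / 2 * ‖w - z0‖ ^ 2 with hQ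
  set g : ℂ → ℝ := fun w => f w - Q w + δ with hg
  set ψ : ℂ → ℝ := fun w => if w ∈ ball z0 ρ1 then (max (g w) 0) ^ 2 else 0 with hψdef
  have hballG : ball z0 ρ1 ⊆ G := by
    refine Subset.trans ?_ hball
    exact (ball_subset_closedBall).trans (closedBall_subset_closedBall (by linarith))
  have hgle : ∀ w ∈ ball z0 ρ1, ρ1 / 2 ≤ ‖w - z0‖ → g w ≤ 0 := by
    intro w hw hle
    have h1 := ht w (ball_subset_ball hρ1ρ hw)
    have h2 : δ ≤ κ / 2 * ‖w - z0‖ ^ 2 := by rw [hδ]; gcongr
    simp only [hg, hQ]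
    linarith
  have hψin : ∀ w ∈ ball z0 ρ1, ψ =ᶠ[𝓝 w] fun w => (max (g w) 0) ^ 2 := by
    intro w hw
    filter_upwards [isOpen_ball.mem_nhds hw] with v hv
    simp only [hψdef]
    rw [if_pos hv]
  have hψout : ∀ w, w ∉ closedBall z0 (ρ1 / 2) → ψ =ᶠ[𝓝 w] fun _ => 0 := by
    intro w hw
    filter_upwards [isClosed_closedBall.isOpen_compl.mem_nhds hw] with v hv
    have hv' : ρ1 / 2 ≤ ‖v - z0‖ := by
      rw [mem_compl_iff, mem_closedBall_iff_norm] at hv
      linarith
    simp only [hψdef]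
    by_cases hvb : v ∈ ball z0 ρ1
    · rw [if_pos hvb, max_eq_right (hgle v hvb hv')]; simp
    · rw [if_neg hvb]
  have hQd : ∀ w, ∃ L : ℂ →L[ℝ] ℝ, HasFDerivAt Q L w ∧ L 1 = (b + 2 * e * (w - z0)).re - κ * (w - z0).re ∧
      L I = ((b + 2 * e * (w - z0)) * I).re - κ * (w - z0).im := fun w =>
    hasFDerivAt_quad (f z0) b e z0 κ w
  have hQc : ContDiff ℝ 1 Q := by
    have h0 : ContDiff ℝ 1 fun w : ℂ => b * (w - z0) + e * (w - z0) ^ 2 := by fun_prop
    have h1 : ContDiff ℝ 1 fun w : ℂ => (b * (w - z0) + e * (w - z0) ^ 2).re :=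
      Complex.reCLM.contDiff.comp h0
    have h3 : ContDiff ℝ 1 fun w : ℂ => w - z0 := by fun_prop
    have h2 : ContDiff ℝ 1 fun w : ℂ => ‖w - z0‖ ^ 2 := h3.norm_sq ℝ
    exact (contDiff_const.add h1).sub (contDiff_const.mul h2)
  have hgC : ∀ w ∈ G, ContDiffAt ℝ 1 g w := fun w hw =>
    ((hf.contDiffAt (hG.mem_nhds hw)).sub hQc.contDiffAt).add contDiffAt_const
  have hψC : ContDiff ℝ 1 ψ := by
    rw [contDiff_iff_contDiffAt]
    intro w
    by_cases hw : w ∈ ball z0 ρ1
    · have h1 : ContDiffAt ℝ 1 (fun w => (max (g w) 0) ^ 2) w :=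
        contDiff_posSq.contDiffAt.comp w (hgC w (hballG hw))
      exact h1.congr_of_eventuallyEq (hψin w hw)
    · have h1 : w ∉ closedBall z0 (ρ1 / 2) := fun h => hw (closedBall_subset_ball (by linarith) h)
      exact contDiffAt_const.congr_of_eventuallyEq (hψout w h1)
  have hψ0 : ∀ w, 0 ≤ ψ w := by
    intro w
    simp only [hψdef]
    split_ifs
    · positivity
    · exact le_rfl
  have hψts : tsupport ψ ⊆ closedBall z0 (ρ1 / 2) := by
    intro w hw
    by_contra hcon
    exact (notMem_tsupport_iff_eventuallyEq.2 (hψout w hcon)) hw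
  have hψc : HasCompactSupport ψ :=
    (isCompact_closedBall z0 (ρ1 / 2)).of_isClosed_subset (isClosed_tsupport _) hψts
  have hψs : tsupport ψ ⊆ obox (z0.re - r) (z0.re + r) (z0.im - r) (z0.im + r) := by
    intro w hw
    have h1 := hψts hw
    rw [mem_closedBall_iff_norm] at h1
    have h2 := (Complex.abs_re_le_norm (w - z0)).trans h1
    have h3 := (Complex.abs_im_le_norm (w - z0)).trans h1
    rw [Complex.sub_re, abs_le] at h2
    rw [Complex.sub_im, abs_le] at h3
    exact ⟨⟨by linarith [h2.1], by linarith [h2.2]⟩, ⟨by linarith [h3.1], by linarith [h3.2]⟩⟩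
  have hweak := weak_near hG hf hGt hGtG hm hE (by linarith : z0.re - r < z0.re + r)
    (by linarith : z0.im - r < z0.im + r) (half_pos hz0) (hbox1.trans hball) hpos hψC hψ0 hψs hcov'
  -- lower bound for the integral
  set ℓ1 : ℂ →L[ℝ] ℝ := Complex.reCLM.comp
    ((ContinuousLinearMap.toSpanSingleton ℂ (2 * e)).restrictScalars ℝ) - κ • Complex.reCLM with hℓ1
  set ℓ2 : ℂ →L[ℝ] ℝ := Complex.reCLM.comp
    ((ContinuousLinearMap.toSpanSingleton ℂ (2 * e * I)).restrictScalars ℝ) - κ • Complex.imCLM with hℓ2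
  set a1 : ℝ := b.re - ℓ1 z0 with ha1
  set a2 : ℝ := (b * I).re - ℓ2 z0 with ha2
  have hE1 : ∀ w, a1 + ℓ1 w = (b + 2 * e * (w - z0)).re - κ * (w - z0).re := by
    intro w
    simp [ha1, hℓ1]
    ring
  have hE2 : ∀ w, a2 + ℓ2 w = ((b + 2 * e * (w - z0)) * I).re - κ * (w - z0).im := by
    intro w
    simp [ha2, hℓ2]
    ring
  have hge : ∀ w, (a1 + ℓ1 w) * fderiv ℝ ψ w 1 + (a2 + ℓ2 w) * fderiv ℝ ψ w I ≤ gradProd f ψ w := by
    intro w
    by_cases hw : w ∈ ball z0 ρ1
    · obtain ⟨L, hL, hL1, hL2⟩ := hQd w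
      have hfd : HasFDerivAt f (fderiv ℝ f w) w :=
        ((hf.contDiffAt (hG.mem_nhds (hballG hw))).differentiableAt one_ne_zero).hasFDerivAt
      have hgd : HasFDerivAt g (fderiv ℝ f w - L) w := (hfd.sub hL).add_const δ
      have h1 : HasFDerivAt (fun w => (max (g w) 0) ^ 2) ((2 * max (g w) 0) • (fderiv ℝ f w - L)) w :=
        (hasDerivAt_posSq (g w)).comp_hasFDerivAt w hgd
      have h2 : fderiv ℝ ψ w = (2 * max (g w) 0) • (fderiv ℝ f w - L) :=
        (h1.congr_of_eventuallyEq (hψin w hw)).fderiv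
      unfold gradProd
      rw [h2, hE1, hE2, ← hL1, ← hL2]
      simp only [FunLike.coe_smul, Pi.smul_apply, FunLike.coe_sub, Pi.sub_apply, smul_eq_mul]
      have h3 : 0 ≤ 2 * max (g w) 0 := by positivity
      nlinarith [mul_nonneg h3 (sq_nonneg (fderiv ℝ f w 1 - L 1)),
        mul_nonneg h3 (sq_nonneg (fderiv ℝ f w I - L I))]
    · have h1 : w ∉ closedBall z0 (ρ1 / 2) := fun h => hw (closedBall_subset_ball (by linarith) h)
      have h2 : fderiv ℝ ψ w = 0 := by
        have := (hψout w h1).fderiv_eq (𝕜 := ℝ)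
        rw [this]; simp
      unfold gradProd
      rw [h2]; simp
  have hI1 : Integrable (fun w => (a1 + ℓ1 w) * fderiv ℝ ψ w 1) volume := by
    have h2 : Continuous fun w => fderiv ℝ ψ w 1 :=
      (hψC.continuous_fderiv one_ne_zero).clm_apply continuous_const
    have h3 : HasCompactSupport fun w => fderiv ℝ ψ w 1 := hψc.fderiv_apply ℝ 1
    exact ((by fun_prop : Continuous fun w => a1 + ℓ1 w).mul h2).integrable_of_hasCompactSupport
      h3.mul_left
  have hI2 : Integrable (fun w => (a2 + ℓ2 w) * fderiv ℝ ψ w I) volume := by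
    have h2 : Continuous fun w => fderiv ℝ ψ w I :=
      (hψC.continuous_fderiv one_ne_zero).clm_apply continuous_const
    have h3 : HasCompactSupport fun w => fderiv ℝ ψ w I := hψc.fderiv_apply ℝ I
    exact ((by fun_prop : Continuous fun w => a2 + ℓ2 w).mul h2).integrable_of_hasCompactSupport
      h3.mul_left
  have hI3 : Integrable (gradProd f ψ) volume := by
    have hgc : Continuous (gradProd f ψ) := by
      rw [continuous_iff_continuousAt]
      intro w
      by_cases hw : w ∈ G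
      · have h1 : ContinuousAt (fderiv ℝ f) w := hdf.continuousAt (hG.mem_nhds hw)
        have h2 : ContinuousAt (fderiv ℝ ψ) w := (hψC.continuous_fderiv one_ne_zero).continuousAt
        exact ((h1.clm_apply continuousAt_const).mul (h2.clm_apply continuousAt_const)).add
          ((h1.clm_apply continuousAt_const).mul (h2.clm_apply continuousAt_const))
      · have h1 : w ∉ tsupport (fderiv ℝ ψ) := by
          intro h
          have h2 := hψts (tsupport_fderiv_subset ℝ h)
          exact hw (hballG (closedBall_subset_ball (by linarith) h2))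
        have h2 : gradProd f ψ =ᶠ[𝓝 w] fun _ => 0 := by
          filter_upwards [notMem_tsupport_iff_eventuallyEq.1 h1] with v hv
          simp [gradProd, hv]
        exact continuousAt_const.congr h2.symm
    apply hgc.integrable_of_hasCompactSupport
    apply HasCompactSupport.intro (isCompact_closedBall z0 (ρ1 / 2))
    intro w hw
    have h2 : fderiv ℝ ψ w = 0 := by
      have := (hψout w hw).fderiv_eq (𝕜 := ℝ)
      rw [this]; simp
    simp [gradProd, h2]
  have hle : ∫ w, ((a1 + ℓ1 w) * fderiv ℝ ψ w 1 + (a2 + ℓ2 w) * fderiv ℝ ψ w I) ≤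
      ∫ w, gradProd f ψ w := integral_mono (hI1.add hI2) hI3 hge
  rw [integral_add hI1 hI2, integral_affine_mul_fderiv hψC hψc, integral_affine_mul_fderiv hψC hψc]
    at hle
  have hv1 : ℓ1 1 = 2 * e.re - κ := by simp [hℓ1]
  have hv2 : ℓ2 I = -(2 * e.re) - κ := by simp [hℓ2]
  rw [hv1, hv2] at hle
  have hintpos : 0 < ∫ w, ψ w := by
    apply (integral_pos_iff_support_of_nonneg hψ0
      (hψC.continuous.integrable_of_hasCompactSupport hψc)).2
    have hopen : IsOpen (Function.support ψ) := hψC.continuous.isOpen_support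
    refine hopen.measure_pos volume ⟨z0, ?_⟩
    have h1 : ψ z0 = δ ^ 2 := by
      simp only [hψdef]
      rw [if_pos (mem_ball_self hρ1pos)]
      have : g z0 = δ := by simp [hg, hQ]
      rw [this, max_eq_left hδpos.le]
    rw [Function.mem_support, h1]
    positivity
  nlinarith

end Pool.Agent.Lib.MP_c751e8_an
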