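import Mathlib
import Pool.Agent.Lib.MP_c751e8_an.Noncrit
import Pool.Agent.Lib.MP_c751e8_an.MeanVal

open MeasureTheory Filter Topology Set Metric Complex ComplexConjugate

namespace Pool.Agent.Lib.MP_c751e8_an

lemma circleAverage_rotate (f : ℂ → ℝ) {v : ℂ} (hv : ‖v‖ = 1) (c : ℂ) (r : ℝ) :
    Real.circleAverage (fun w => f (v * w)) c r = Real.circleAverage f (v * c) r := by
  rw [Real.circleAverage_eq_integral_add (f := f) (c := v * c) (R := r) (v.arg),
    Real.circleAverage_def]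
  congr 2
  funext θ
  congr 1
  have h1 : v = Complex.exp (v.arg * I) := by
    have := Complex.norm_mul_exp_arg_mul_I v
    rw [hv] at this
    simpa using this.symm
  simp only [circleMap]
  rw [mul_add]
  congr 1
  conv_lhs => rw [h1]
  rw [mul_left_comm, ← Complex.exp_add]
  congr 2
  push_cast; ring

/-- No touching at noncritical points. -/
theorem not_touch_noncrit {f : ℂ → ℝ} {G Gt : Set ℂ} (hG : IsOpen G) (hf : ContDiffOn ℝ 1 f G)
    (hGt : IsOpen Gt) (hGtG : Gt ⊆ G) (hm : SubMean f Gt) {E : Set ℝ}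
    (hE : ∀ z ∈ G, z ∉ Gt → f z ∈ E) {z0 : ℂ} (hz0 : fderiv ℝ f z0 ≠ 0) {ρc : ℝ}
    (hρc : 0 < ρc) (hball : closedBall z0 ρc ⊆ G) (hcov : Cov f E (closedBall z0 ρc)) :
    ¬ Touch f z0 := by
  intro ht
  obtain ⟨u, hu1, hu⟩ : ∃ u : ℂ, ‖u‖ = 1 ∧ 0 < fderiv ℝ f z0 u := by
    obtain ⟨x, hx⟩ : ∃ x, fderiv ℝ f z0 x ≠ 0 := by
      by_contra hcon
      push Not at hcon
      exact hz0 (ContinuousLinearMap.ext hcon)
    have hx0 : x ≠ 0 := by rintro rfl; simp at hx
    have hn : 0 < ‖x‖ := norm_pos_iff.2 hx0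
    rcases lt_or_gt_of_ne hx with h | h
    · refine ⟨-(‖x‖⁻¹ • x), ?_, ?_⟩
      · rw [norm_neg, norm_smul, norm_inv, norm_norm, inv_mul_cancel₀ hn.ne']
      · rw [map_neg, map_smul, smul_eq_mul]
        have : ‖x‖⁻¹ * fderiv ℝ f z0 x < 0 := mul_neg_of_pos_of_neg (by positivity) h
        linarith
    · refine ⟨‖x‖⁻¹ • x, ?_, ?_⟩
      · rw [norm_smul, norm_inv, norm_norm, inv_mul_cancel₀ hn.ne']
      · rw [map_smul, smul_eq_mul]; positivity
  set v : ℂ := u * (-I) with hv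
  have hv1 : ‖v‖ = 1 := by rw [hv, norm_mul, norm_neg, Complex.norm_I, hu1, mul_one]
  have hv0 : v ≠ 0 := by rw [← norm_pos_iff, hv1]; exact one_pos
  have hvI : v * I = u := by rw [hv]; linear_combination (-u) * Complex.I_mul_I
  have hvm : Continuous fun w : ℂ => v * w := by fun_prop
  set fv : ℂ → ℝ := fun w => f (v * w) with hfv
  set w0 : ℂ := v⁻¹ * z0 with hw0
  have hvw0 : v * w0 = z0 := by rw [hw0, ← mul_assoc, mul_inv_cancel₀ hv0, one_mul]
  set m : ℂ →L[ℝ] ℂ := (ContinuousLinearMap.toSpanSingleton ℂ v).restrictScalars ℝ with hmdef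
  have hma : ∀ w, m w = v * w := by intro w; simp [hmdef, mul_comm]
  have hmn : ‖m‖ ≤ 1 := by
    apply ContinuousLinearMap.opNorm_le_bound _ zero_le_one
    intro w; rw [hma, norm_mul, hv1]
  have hdm : ∀ w, HasFDerivAt (fun w : ℂ => v * w) m w := by
    intro w
    have h1 := m.hasFDerivAt (x := w)
    have h2 : (fun w : ℂ => v * w) = m := by funext w; rw [hma]
    rw [h2]; exact h1
  have hfd : ∀ w, v * w ∈ G → HasFDerivAt fv ((fderiv ℝ f (v * w)).comp m) w := by
    intro w hw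
    have h1 : HasFDerivAt f (fderiv ℝ f (v * w)) (v * w) :=
      ((hf.contDiffAt (hG.mem_nhds hw)).differentiableAt one_ne_zero).hasFDerivAt
    exact h1.comp w (hdm w)
  have hfdv : ∀ w, v * w ∈ G → fderiv ℝ fv w = (fderiv ℝ f (v * w)).comp m :=
    fun w hw => (hfd w hw).fderiv
  have hdist : ∀ w w' : ℂ, ‖v * w - v * w'‖ = ‖w - w'‖ := by
    intro w w'; rw [← mul_sub, norm_mul, hv1, one_mul]
  have hcb : ∀ c r w, w ∈ closedBall c r ↔ v * w ∈ closedBall (v * c) r := by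
    intro c r w
    rw [mem_closedBall_iff_norm, mem_closedBall_iff_norm, hdist]
  refine not_touch_vertical (f := fv) (G := (fun w => v * w) ⁻¹' G) (Gt := (fun w => v * w) ⁻¹' Gt)
    (hG.preimage hvm) ?_ (hGt.preimage hvm) (preimage_mono hGtG) ?_ (E := E) ?_ (z0 := w0) ?_ hρc
    ?_ ?_ ?_
  · exact hf.comp (contDiff_const.mul contDiff_id).contDiffOn (fun w hw => hw)
  · intro c r hr hcl
    rw [hfv, circleAverage_rotate f hv1]
    apply hm _ _ hr
    intro z hz
    have h1 : v * (v⁻¹ * z) = z := by rw [← mul_assoc, mul_inv_cancel₀ hv0, one_mul]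
    have h2 : v⁻¹ * z ∈ closedBall c r := by rw [hcb, h1]; exact hz
    have h3 := hcl h2
    rwa [mem_preimage, h1] at h3
  · intro w hw hw'
    exact hE _ hw hw'
  · rw [hfdv w0 (by rw [hvw0]; exact hball (mem_closedBall_self hρc.le)), hvw0]
    simp only [ContinuousLinearMap.comp_apply, hma, hvI]
    exact hu
  · intro w hw
    rw [mem_preimage]
    apply hball
    rw [← hvw0, ← hcb]; exact hw
  · intro ε hε
    obtain ⟨U, τ, s, h1, h2, h3, h4, h5⟩ := hcov ε hε
    refine ⟨U, τ, s, h1, h2, h3, ?_, h5⟩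
    intro i x hx y hy hxy
    have hx' : v * x ∈ closedBall z0 ρc := by rw [← hvw0, ← hcb]; exact hx
    have hy' : v * y ∈ closedBall z0 ρc := by rw [← hvw0, ← hcb]; exact hy
    rw [hfdv x (hball hx'), hfdv y (hball hy'), ← ContinuousLinearMap.sub_comp]
    refine (ContinuousLinearMap.opNorm_comp_le _ _).trans ?_
    have h6 := h4 i _ hx' _ hy' (by rw [hdist]; exact hxy)
    calc ‖fderiv ℝ f (v * x) - fderiv ℝ f (v * y)‖ * ‖m‖
        ≤ ‖fderiv ℝ f (v * x) - fderiv ℝ f (v * y)‖ * 1 := by gcongr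
      _ ≤ s i := by rw [mul_one]; exact h6
  · obtain ⟨b, e, κ, hκ, ρ, hρ, h⟩ := ht
    refine ⟨b * v, e * v ^ 2, κ, hκ, ρ, hρ, fun w hw => ?_⟩
    have h1 : v * w ∈ ball z0 ρ := by
      rw [mem_ball_iff_norm] at hw ⊢
      rw [← hvw0, hdist]; exact hw
    have h2 := h (v * w) h1
    have e1 : v * w - z0 = v * (w - w0) := by rw [← hvw0]; ring
    have e2 : ‖v * w - z0‖ = ‖w - w0‖ := by rw [← hvw0, hdist]
    rw [e2, e1] at h2
    have e3 : b * (v * (w - w0)) + e * (v * (w - w0)) ^ 2 =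
        b * v * (w - w0) + e * v ^ 2 * (w - w0) ^ 2 := by ring
    rw [e3] at h2
    simp only [hfv]
    rw [hvw0]
    exact h2

/-- No touching where the derivative is locally constant. -/
lemma not_touch_affine {f : ℂ → ℝ} {z0 : ℂ} {r : ℝ} (hr : 0 < r) {L : ℂ →L[ℝ] ℝ}
    (hd : ∀ z ∈ ball z0 r, HasFDerivAt f L z) : ¬ Touch f z0 := by
  rintro ⟨b, e, κ, hκ, ρ, hρ, h⟩
  have haff : ∀ z ∈ ball z0 r, f z = f z0 + L (z - z0) := by
    intro z hz
    have h1 : ∀ w ∈ ball z0 r, HasFDerivWithinAt (fun w => f w - L w) (0 : ℂ →L[ℝ] ℝ) (ball z0 r) w := by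
      intro w hw
      have := (hd w hw).sub (L.hasFDerivAt (x := w))
      rw [sub_self] at this
      exact this.hasFDerivWithinAt
    have h2 := (convex_ball z0 r).is_const_of_fderivWithin_eq_zero (𝕜 := ℝ)
      (f := fun w => f w - L w) (fun w hw => (h1 w hw).differentiableWithinAt)
      (fun w hw => (h1 w hw).fderivWithin (isOpen_ball.uniqueDiffWithinAt hw)) hz
      (mem_ball_self hr)
    rw [map_sub]; linarith
  have pair : ∀ v : ℂ, ‖v‖ < min r ρ → 0 ≤ (e * v ^ 2).re - κ * ‖v‖ ^ 2 := by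
    intro v hv
    have hvr : ‖v‖ < r := hv.trans_le (min_le_left _ _)
    have hvρ : ‖v‖ < ρ := hv.trans_le (min_le_right _ _)
    have h1 := h (z0 + v) (by rw [mem_ball_iff_norm]; simpa using hvρ)
    have h2 := h (z0 + -v) (by rw [mem_ball_iff_norm]; simpa using hvρ)
    rw [haff _ (by rw [mem_ball_iff_norm]; simpa using hvr), add_sub_cancel_left] at h1
    rw [haff _ (by rw [mem_ball_iff_norm]; simpa using hvr), add_sub_cancel_left, map_neg,
      norm_neg, neg_sq] at h2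
    rw [Complex.add_re] at h1 h2
    have h3 : (b * -v).re = -(b * v).re := by rw [mul_neg, Complex.neg_re]
    rw [h3] at h2
    linarith
  have hm : 0 < min r ρ := by positivity
  set t : ℝ := min r ρ / 2 with ht
  have ht0 : 0 < t := by positivity
  have hv1 := pair (t : ℂ) (by
    rw [Complex.norm_real, Real.norm_eq_abs, abs_of_pos ht0]; linarith)
  have hv2 := pair ((t : ℂ) * I) (by
    rw [norm_mul, Complex.norm_I, mul_one, Complex.norm_real, Real.norm_eq_abs,
      abs_of_pos ht0]; linarith)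
  rw [mul_pow, I_sq, norm_mul, Complex.norm_I, mul_one] at hv2
  have e1 : (e * ((t : ℂ) ^ 2 * -1)).re = -(e * (t : ℂ) ^ 2).re := by
    rw [← Complex.neg_re]; congr 1; ring
  rw [e1] at hv2
  have e2 : 0 < κ * ‖(t : ℂ)‖ ^ 2 := by
    rw [Complex.norm_real, Real.norm_eq_abs, abs_of_pos ht0]; positivity
  linarith

/-- The local hypothesis. -/
def LocalHyp (f : ℂ → ℝ) (E : Set ℝ) (G : Set ℂ) : Prop :=
  ∀ z ∈ G, ∃ r > (0 : ℝ), closedBall z r ⊆ G ∧
    ((∀ w ∈ closedBall z r, fderiv ℝ f w = fderiv ℝ f z) ∨ Cov f E (closedBall z r))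

/-- **Core theorem.** -/
theorem subMean_of_localHyp {f : ℂ → ℝ} {G Gt : Set ℂ} (hG : IsOpen G) (hf : ContDiffOn ℝ 1 f G)
    (hGt : IsOpen Gt) (hGtG : Gt ⊆ G) (hm : SubMean f Gt) {E : Set ℝ}
    (hE : ∀ z ∈ G, z ∉ Gt → f z ∈ E) (hloc : LocalHyp f E G) : SubMean f G := by
  apply subMean_of_not_touch hf.continuousOn
  apply not_touch_of_crit hG (hf.differentiableOn one_ne_zero)
  intro z hz ht
  by_contra hne
  obtain ⟨r, hr, hrG, h | h⟩ := hloc z hz
  · refine not_touch_affine hr (L := fderiv ℝ f z) (fun w hw => ?_) ht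
    have hw' := ball_subset_closedBall hw
    rw [← h w hw']
    exact ((hf.contDiffAt (hG.mem_nhds (hrG hw'))).differentiableAt one_ne_zero).hasFDerivAt
  · exact not_touch_noncrit hG hf hGt hGtG hm hE hne hr hrG h ht

end Pool.Agent.Lib.MP_c751e8_an
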