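import Mathlib
import Pool.Agent.Lib.MP_c751e8_an.Defs
import Pool.Agent.Lib.MP_c751e8_an.Main

open MeasureTheory Filter Topology Set Metric Complex ComplexConjugate
open scoped ENNReal NNReal

namespace Pool.Agent.Lib.MP_c751e8_an

/-- vector valued version of `subdivide` -/
lemma subdivide_vec {F : Type*} [NormedAddCommGroup F] {g : ℂ → F} {K : Set ℂ} (hK : Convex ℝ K)
    {τ s : ℝ} (h : ∀ y ∈ K, ∀ y' ∈ K, ‖y - y'‖ ≤ τ → ‖g y - g y'‖ ≤ s) (N : ℕ) :
    ∀ y ∈ K, ∀ y' ∈ K, ‖y - y'‖ ≤ (N + 1) * τ → ‖g y - g y'‖ ≤ (N + 1) * s := by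
  induction N with
  | zero => simpa using h
  | succ N ih =>
    intro y hy y' hy' hle
    push_cast at hle ⊢
    have hN : (0 : ℝ) < (N : ℝ) + 1 + 1 := by positivity
    set a : ℝ := 1 / ((N : ℝ) + 1 + 1) with ha
    have ha0 : 0 < a := by positivity
    have ha1 : a ≤ 1 := by
      rw [ha, div_le_one hN]; linarith [(Nat.cast_nonneg N : (0 : ℝ) ≤ N)]
    set z : ℂ := a • y + (1 - a) • y' with hz
    have hzmem : z ∈ K := hK hy hy' ha0.le (by linarith) (by ring)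
    have h1 : ‖z - y'‖ ≤ τ := by
      have : z - y' = a • (y - y') := by rw [hz]; module
      rw [this, norm_smul, Real.norm_eq_abs, abs_of_pos ha0, ha, one_div, inv_mul_le_iff₀ hN]
      exact hle
    have h2 : ‖y - z‖ ≤ ((N : ℝ) + 1) * τ := by
      have : y - z = (1 - a) • (y - y') := by rw [hz]; module
      rw [this, norm_smul, Real.norm_eq_abs, abs_of_nonneg (by linarith)]
      calc (1 - a) * ‖y - y'‖ ≤ (1 - a) * (((N : ℝ) + 1 + 1) * τ) := by
            have : 0 ≤ 1 - a := by linarith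
            gcongr
        _ = ((N : ℝ) + 1) * τ := by rw [ha]; field_simp; ring
    have h3 := ih y hy z hzmem h2
    have h4 := h z hzmem y' hy' h1
    calc ‖g y - g y'‖ = ‖(g y - g z) + (g z - g y')‖ := by congr 1; abel
      _ ≤ ‖g y - g z‖ + ‖g z - g y'‖ := norm_add_le _ _
      _ ≤ ((N : ℝ) + 1) * s + s := add_le_add h3 h4
      _ = _ := by ring

/-- a function with very small oscillation on a sequence of scales is constant -/
lemma const_of_small {F : Type*} [NormedAddCommGroup F] {g : ℂ → F} {K : Set ℂ} (hK : Convex ℝ K)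
    (h : ∀ η > (0 : ℝ), ∃ τ : ℝ, 0 < τ ∧ τ ≤ 1 ∧ ∀ u ∈ K, ∀ v ∈ K, ‖u - v‖ ≤ τ →
      ‖g u - g v‖ ≤ η * τ) : ∀ u ∈ K, ∀ v ∈ K, g u = g v := by
  intro u hu v hv
  rw [← sub_eq_zero, ← norm_le_zero_iff]
  apply le_of_forall_pos_le_add
  intro ε hε
  rw [zero_add]
  set D : ℝ := ‖u - v‖ + 2 with hD
  have hDpos : 0 < D := by positivity
  obtain ⟨τ, hτ, hτ1, hg⟩ := h (ε / D) (by positivity)
  set N : ℕ := ⌈‖u - v‖ / τ⌉₊ with hN
  have h1 : ‖u - v‖ ≤ (N + 1) * τ := by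
    have : ‖u - v‖ / τ ≤ N := Nat.le_ceil _
    rw [div_le_iff₀ hτ] at this
    nlinarith
  have h2 := subdivide_vec hK hg N u hu v hv h1
  have h3 : (N : ℝ) < ‖u - v‖ / τ + 1 := Nat.ceil_lt_add_one (by positivity)
  refine h2.trans ?_
  have h4 : ((N : ℝ) + 1) * τ ≤ D := by
    have : ((N : ℝ) + 1) * τ ≤ (‖u - v‖ / τ + 2) * τ :=
      mul_le_mul_of_nonneg_right (by linarith) hτ.le
    refine this.trans ?_
    rw [add_mul, div_mul_cancel₀ _ hτ.ne', hD]
    linarith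
  calc ((N : ℝ) + 1) * (ε / D * τ) = (ε / D) * (((N : ℝ) + 1) * τ) := by ring
    _ ≤ (ε / D) * D := by gcongr
    _ = ε := by field_simp

lemma opNorm_le_partials (L : ℂ →L[ℝ] ℝ) : ‖L‖ ≤ |L 1| + |L I| := by
  apply ContinuousLinearMap.opNorm_le_bound _ (by positivity)
  intro z
  have h1 : L z = z.re * L 1 + z.im * L I := by
    conv_lhs => rw [← Complex.re_add_im z]
    have e1 : (z.re : ℂ) = z.re • (1 : ℂ) := by simp
    have e2 : (z.im : ℂ) * I = z.im • I := by simp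
    rw [e1, e2, map_add, map_smul, map_smul]
    simp
  rw [h1, Real.norm_eq_abs]
  calc |z.re * L 1 + z.im * L I| ≤ |z.re * L 1| + |z.im * L I| := abs_add_le _ _
    _ = |z.re| * |L 1| + |z.im| * |L I| := by rw [abs_mul, abs_mul]
    _ ≤ ‖z‖ * |L 1| + ‖z‖ * |L I| := by
        gcongr
        · exact Complex.abs_re_le_norm z
        · exact Complex.abs_im_le_norm z
    _ = _ := by ring

/-- covers extracted from the definition of `Lam` -/
lemma exists_cover {ω : ℝ≥0 → ℝ≥0} {E : Set ℝ} {δ : ℝ} (hδ : 0 < δ) {A : ℝ≥0∞}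
    (hA : Lam ω E < A) : ∃ U : ℕ → Set ℝ, E ⊆ ⋃ i, U i ∧ (∀ i, ediam (U i) < ENNReal.ofReal δ) ∧
      ∑' i, ⨆ (_ : (U i).Nonempty), (ω (ediam (U i)).toNNReal : ℝ≥0∞) < A := by
  have h1 : ⨅ (U : ℕ → Set ℝ) (_ : E ⊆ ⋃ i, U i) (_ : ∀ i, ediam (U i) < ENNReal.ofReal δ),
      ∑' i, ⨆ (_ : (U i).Nonempty), (ω (ediam (U i)).toNNReal : ℝ≥0∞) < A := by
    refine lt_of_le_of_lt ?_ hA
    unfold Lam
    exact le_iSup₂ (f := fun (δ : ℝ≥0∞) (_ : 0 < δ) => ⨅ (U : ℕ → Set ℝ) (_ : E ⊆ ⋃ i, U i)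
      (_ : ∀ i, ediam (U i) < δ),
      ∑' i, ⨆ (_ : (U i).Nonempty), (ω (ediam (U i)).toNNReal : ℝ≥0∞))
      (ENNReal.ofReal δ) (ENNReal.ofReal_pos.2 hδ)
  rw [iInf_lt_iff] at h1
  obtain ⟨U, h1⟩ := h1
  rw [iInf_lt_iff] at h1
  obtain ⟨hU, h1⟩ := h1
  rw [iInf_lt_iff] at h1
  obtain ⟨hU', h1⟩ := h1
  exact ⟨U, hU, hU', h1⟩

/-- the contribution of one piece of a cover -/
lemma piece {ω : ℝ≥0 → ℝ≥0} (hω : Monotone ω) {f : ℂ → ℝ} {K : Set ℂ} {C c δ δ' : ℝ}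
    (hC : 0 ≤ C) (hc : 0 < c)
    (hf : ∀ u ∈ K, ∀ v ∈ K, ‖u - v‖ < δ → ‖fderiv ℝ f u - fderiv ℝ f v‖ ≤ C * ω (nndist u v))
    (hlow : ∀ τ : ℝ≥0, 0 < τ → (τ : ℝ) < δ' → c * τ ≤ ω τ) {U : Set ℝ}
    (hU : ediam U < ENNReal.ofReal (min δ δ')) :
    ∃ τ s : ℝ, (0 ≤ τ ∧ 0 ≤ s) ∧ (∀ t ∈ U, ∀ t' ∈ U, |t - t'| ≤ τ) ∧
      (∀ u ∈ K, ∀ v ∈ K, ‖u - v‖ ≤ τ → ‖fderiv ℝ f u - fderiv ℝ f v‖ ≤ s) ∧
      ENNReal.ofReal (s + τ) ≤ ENNReal.ofReal (C + 1 / c) *
        ⨆ (_ : U.Nonempty), (ω (ediam U).toNNReal : ℝ≥0∞) := by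
  by_cases hne : U.Nonempty
  · set τ : ℝ≥0 := (ediam U).toNNReal with hτ
    have hfin : ediam U ≠ ⊤ := ne_top_of_lt hU
    have hcoe : (τ : ℝ≥0∞) = ediam U := ENNReal.coe_toNNReal hfin
    have hlt : (τ : ℝ) < min δ δ' := by
      rw [← hcoe] at hU
      have h0 : (τ : ℝ≥0∞) = ENNReal.ofReal (τ : ℝ) := by rw [ENNReal.ofReal_coe_nnreal]
      rw [h0] at hU
      exact ENNReal.lt_ofReal_iff_toReal_lt (by simp) |>.1 hU |> (by simpa using ·)
    refine ⟨τ, C * ω τ, ⟨τ.coe_nonneg, by positivity⟩, ?_, ?_, ?_⟩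
    · intro t ht t' ht'
      have h1 : edist t t' ≤ ediam U := Metric.edist_le_ediam_of_mem ht ht'
      rw [← hcoe, edist_nndist, ENNReal.coe_le_coe] at h1
      have h2 : |t - t'| = (nndist t t' : ℝ) := by rw [coe_nndist, Real.dist_eq]
      rw [h2]; exact_mod_cast h1
    · intro u hu v hv huv
      have h1 : ‖u - v‖ < δ := lt_of_le_of_lt huv (hlt.trans_le (min_le_left _ _))
      refine (hf u hu v hv h1).trans ?_
      have h2 : nndist u v ≤ τ := by
        rw [← NNReal.coe_le_coe, coe_nndist, dist_eq_norm]; exact huv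
      have h3 : ω (nndist u v) ≤ ω τ := hω h2
      gcongr
    · rw [iSup_pos hne]
      have h1 : C * ω τ + τ ≤ (C + 1 / c) * ω τ := by
        have h2 : (τ : ℝ) ≤ 1 / c * ω τ := by
          rcases eq_or_lt_of_le (zero_le (a := τ)) with h3 | h3
          · rw [← h3]
            have : (0 : ℝ) ≤ 1 / c * (ω 0 : ℝ) := by positivity
            simpa using this
          · have := hlow τ h3 (hlt.trans_le (min_le_right _ _))
            rw [one_div, ← div_eq_inv_mul, le_div_iff₀ hc]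
            linarith
        linarith
      calc ENNReal.ofReal (C * ω τ + τ) ≤ ENNReal.ofReal ((C + 1 / c) * ω τ) :=
            ENNReal.ofReal_le_ofReal h1
        _ = ENNReal.ofReal (C + 1 / c) * (ω τ : ℝ≥0∞) := by
            rw [ENNReal.ofReal_mul (by positivity), ENNReal.ofReal_coe_nnreal]
  · rw [not_nonempty_iff_eq_empty] at hne
    refine ⟨0, 0, ⟨le_rfl, le_rfl⟩, ?_, ?_, ?_⟩
    · intro t ht; rw [hne] at ht; exact absurd ht (notMem_empty t)
    · intro u _ v _ huv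
      have : u = v := by rw [← sub_eq_zero, ← norm_le_zero_iff]; exact huv
      rw [this, sub_self, norm_zero]
    · simp

/-- **Q1, local hypothesis.** -/
theorem localHyp_of_big {ω : ℝ≥0 → ℝ≥0} (hω : IsGauge ω) {E : Set ℝ} (hE : Lam ω E = 0)
    {G : Set ℂ} (hG : IsOpen G) {f : ℂ → ℝ} (hf : f ∈ C1BigO ω G) : LocalHyp f E G := by
  intro z hz
  obtain ⟨r0, hr0, hr0G⟩ := Metric.isOpen_iff.1 hG z hz
  set r : ℝ := r0 / 2 with hr
  have hrpos : 0 < r := by positivity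
  have hcl : closedBall z r ⊆ G := (closedBall_subset_ball (by linarith)).trans hr0G
  refine ⟨r, hrpos, hcl, ?_⟩
  obtain ⟨C1, δ1, hδ1, h1⟩ := hf.2.1 _ hcl (isCompact_closedBall z r)
  obtain ⟨C2, δ2, hδ2, h2⟩ := hf.2.2 _ hcl (isCompact_closedBall z r)
  set C : ℝ := |C1| + |C2| with hC
  have hC0 : 0 ≤ C := by positivity
  set δ : ℝ := min δ1 δ2 with hδ
  have hδpos : 0 < δ := by positivity
  have hmod : ∀ u ∈ closedBall z r, ∀ v ∈ closedBall z r, ‖u - v‖ < δ →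
      ‖fderiv ℝ f u - fderiv ℝ f v‖ ≤ C * ω (nndist u v) := by
    intro u hu v hv huv
    have e1 := h1 u hu v hv (by rw [dist_eq_norm]; exact huv.trans_le (min_le_left _ _))
    have e2 := h2 u hu v hv (by rw [dist_eq_norm]; exact huv.trans_le (min_le_right _ _))
    have e3 := opNorm_le_partials (fderiv ℝ f u - fderiv ℝ f v)
    have e4 : C1 * ω (nndist u v) ≤ |C1| * ω (nndist u v) := by gcongr; exact le_abs_self _
    have e5 : C2 * ω (nndist u v) ≤ |C2| * ω (nndist u v) := by gcongr; exact le_abs_self _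
    refine e3.trans ?_
    simp only [FunLike.coe_sub, Pi.sub_apply]
    rw [hC, add_mul]
    linarith
  by_cases hA : ∃ c > (0 : ℝ), ∃ δ' > (0 : ℝ), ∀ τ : ℝ≥0, 0 < τ → (τ : ℝ) < δ' → c * τ ≤ ω τ
  · right
    obtain ⟨c, hc, δ', hδ', hlow⟩ := hA
    intro ε hε
    set A : ℝ := C + 1 / c with hAdef
    have hApos : 0 < A := by positivity
    obtain ⟨U, hEU, hUd, hUs⟩ := exists_cover (ω := ω) (E := E) (δ := min δ δ') (by positivity)
      (A := ENNReal.ofReal (ε / A)) (by rw [hE]; exact ENNReal.ofReal_pos.2 (by positivity))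
    choose τ s hp1 hp2 hp3 hp4 using fun i => piece hω.monotone hC0 hc hmod hlow (hUd i)
    refine ⟨U, τ, s, hEU, hp1, hp2, hp3, ?_⟩
    calc ∑' i, ENNReal.ofReal (s i + τ i)
        ≤ ∑' i, ENNReal.ofReal A * ⨆ (_ : (U i).Nonempty), (ω (ediam (U i)).toNNReal : ℝ≥0∞) :=
          ENNReal.tsum_le_tsum hp4
      _ = ENNReal.ofReal A * ∑' i, ⨆ (_ : (U i).Nonempty), (ω (ediam (U i)).toNNReal : ℝ≥0∞) :=
          ENNReal.tsum_mul_left
      _ ≤ ENNReal.ofReal A * ENNReal.ofReal (ε / A) := by gcongr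
      _ = ENNReal.ofReal ε := by
          rw [← ENNReal.ofReal_mul hApos.le]; congr 1; field_simp
  · left
    push Not at hA
    intro w hw
    refine const_of_small (convex_closedBall z r) ?_ w hw z (mem_closedBall_self hrpos.le)
    intro η hη
    obtain ⟨τ, hτ, hτ1, hτ2⟩ := hA (η / (C + 1)) (by positivity) (min δ 1) (by positivity)
    refine ⟨τ, by exact_mod_cast hτ, (hτ1.trans_le (min_le_right _ _)).le, ?_⟩
    intro u hu v hv huv
    refine (hmod u hu v hv (lt_of_le_of_lt huv (hτ1.trans_le (min_le_left _ _)))).trans ?_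
    have h2 : nndist u v ≤ τ := by
      rw [← NNReal.coe_le_coe, coe_nndist, dist_eq_norm]; exact huv
    have h3 : (ω (nndist u v) : ℝ) ≤ ω τ := by exact_mod_cast hω.monotone h2
    calc C * ω (nndist u v) ≤ C * (η / (C + 1) * τ) := by gcongr; exact h3.trans hτ2.le
      _ = (C / (C + 1)) * (η * τ) := by ring
      _ ≤ 1 * (η * τ) := by
          have : C / (C + 1) ≤ 1 := by rw [div_le_one (by positivity)]; linarith
          have h4 : (0 : ℝ) < τ := by exact_mod_cast hτ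
          gcongr
      _ = η * τ := one_mul _

/-- **Q2, local hypothesis.** -/
theorem localHyp_of_little {ω : ℝ≥0 → ℝ≥0} (hω : IsGauge ω) {E : Set ℝ} {S : ℕ → Set ℝ}
    (hES : E ⊆ ⋃ n, S n) (hS : ∀ n, Lam ω (S n) < ⊤)
    {G : Set ℂ} (hG : IsOpen G) {f : ℂ → ℝ} (hf : f ∈ C1LittleO ω G) : LocalHyp f E G := by
  intro z hz
  obtain ⟨r0, hr0, hr0G⟩ := Metric.isOpen_iff.1 hG z hz
  set r : ℝ := r0 / 2 with hr
  have hrpos : 0 < r := by positivity
  have hcl : closedBall z r ⊆ G := (closedBall_subset_ball (by linarith)).trans hr0G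
  refine ⟨r, hrpos, hcl, ?_⟩
  have hmod : ∀ η > (0 : ℝ), ∃ δ > (0 : ℝ), ∀ u ∈ closedBall z r, ∀ v ∈ closedBall z r,
      ‖u - v‖ < δ → ‖fderiv ℝ f u - fderiv ℝ f v‖ ≤ η * ω (nndist u v) := by
    intro η hη
    obtain ⟨δ1, hδ1, h1⟩ := hf.2.1 _ hcl (isCompact_closedBall z r) (η / 2) (by positivity)
    obtain ⟨δ2, hδ2, h2⟩ := hf.2.2 _ hcl (isCompact_closedBall z r) (η / 2) (by positivity)
    refine ⟨min δ1 δ2, by positivity, ?_⟩
    intro u hu v hv huv
    have e1 := h1 u hu v hv (by rw [dist_eq_norm]; exact huv.trans_le (min_le_left _ _))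
    have e2 := h2 u hu v hv (by rw [dist_eq_norm]; exact huv.trans_le (min_le_right _ _))
    have e3 := opNorm_le_partials (fderiv ℝ f u - fderiv ℝ f v)
    refine e3.trans ?_
    simp only [FunLike.coe_sub, Pi.sub_apply]
    linarith
  by_cases hA : ∀ c > (0 : ℝ), ∃ δ' > (0 : ℝ), ∀ τ : ℝ≥0, 0 < τ → (τ : ℝ) < δ' → c * τ ≤ ω τ
  · right
    intro ε hε
    -- choose the covers of the pieces
    have hpiece : ∀ n, ∃ (U : ℕ → Set ℝ) (τ s : ℕ → ℝ), S n ⊆ ⋃ i, U i ∧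
        (∀ i, 0 ≤ τ i ∧ 0 ≤ s i) ∧ (∀ i, ∀ t ∈ U i, ∀ t' ∈ U i, |t - t'| ≤ τ i) ∧
        (∀ i, ∀ u ∈ closedBall z r, ∀ v ∈ closedBall z r, ‖u - v‖ ≤ τ i →
          ‖fderiv ℝ f u - fderiv ℝ f v‖ ≤ s i) ∧
        ∑' i, ENNReal.ofReal (s i + τ i) ≤ ENNReal.ofReal (ε / 2 ^ (n + 1)) := by
      intro n
      set B : ℝ := (Lam ω (S n)).toReal + 1 with hB
      have hBpos : 0 < B := by positivity
      have hLB : Lam ω (S n) < ENNReal.ofReal B := by
        rw [hB, ENNReal.ofReal_add (by positivity) zero_le_one, ENNReal.ofReal_toReal (hS n).ne,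
          ENNReal.ofReal_one]
        exact ENNReal.lt_add_right (hS n).ne one_ne_zero
      set η : ℝ := ε / 2 ^ (n + 1) / B / 2 with hη
      have hηpos : 0 < η := by positivity
      obtain ⟨δ, hδ, hmodδ⟩ := hmod η hηpos
      obtain ⟨δ', hδ', hlow⟩ := hA (1 / η) (by positivity)
      obtain ⟨U, hEU, hUd, hUs⟩ := exists_cover (ω := ω) (E := S n) (δ := min δ δ') (by positivity) hLB
      choose τ s hp1 hp2 hp3 hp4 using fun i =>
        piece hω.monotone hηpos.le (by positivity : 0 < 1 / η) hmodδ hlow (hUd i)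
      refine ⟨U, τ, s, hEU, hp1, hp2, hp3, ?_⟩
      calc ∑' i, ENNReal.ofReal (s i + τ i)
          ≤ ∑' i, ENNReal.ofReal (η + 1 / (1 / η)) *
            ⨆ (_ : (U i).Nonempty), (ω (ediam (U i)).toNNReal : ℝ≥0∞) :=
            ENNReal.tsum_le_tsum hp4
        _ = ENNReal.ofReal (η + 1 / (1 / η)) *
            ∑' i, ⨆ (_ : (U i).Nonempty), (ω (ediam (U i)).toNNReal : ℝ≥0∞) :=
            ENNReal.tsum_mul_left
        _ ≤ ENNReal.ofReal (η + 1 / (1 / η)) * ENNReal.ofReal B := by gcongr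
        _ = ENNReal.ofReal (ε / 2 ^ (n + 1)) := by
            rw [← ENNReal.ofReal_mul (by positivity)]; congr 1
            rw [one_div_one_div, hη]; field_simp; ring
    choose U τ s h1 h2 h3 h4 h5 using hpiece
    -- combine them
    refine ⟨fun m => U (Nat.unpair m).1 (Nat.unpair m).2, fun m => τ (Nat.unpair m).1 (Nat.unpair m).2,
      fun m => s (Nat.unpair m).1 (Nat.unpair m).2, ?_, ?_, ?_, ?_, ?_⟩
    · intro t ht
      obtain ⟨n, hn⟩ := mem_iUnion.1 (hES ht)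
      obtain ⟨i, hi⟩ := mem_iUnion.1 (h1 n hn)
      exact mem_iUnion.2 ⟨Nat.pair n i, by simpa using hi⟩
    · intro m; exact h2 _ _
    · intro m; exact h3 _ _
    · intro m; exact h4 _ _
    · calc ∑' m, ENNReal.ofReal (s (Nat.unpair m).1 (Nat.unpair m).2 + τ (Nat.unpair m).1 (Nat.unpair m).2)
          = ∑' p : ℕ × ℕ, ENNReal.ofReal (s p.1 p.2 + τ p.1 p.2) := by
            have := (Nat.pairEquiv.symm).tsum_eq
              (fun p : ℕ × ℕ => ENNReal.ofReal (s p.1 p.2 + τ p.1 p.2))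
            rw [← this]; rfl
        _ = ∑' n, ∑' i, ENNReal.ofReal (s n i + τ n i) :=
            ENNReal.tsum_prod (f := fun n i => ENNReal.ofReal (s n i + τ n i))
        _ ≤ ∑' n : ℕ, ENNReal.ofReal (ε / 2 ^ (n + 1)) := ENNReal.tsum_le_tsum h5
        _ = ENNReal.ofReal ε := by
            have h6 : HasSum (fun n : ℕ => ε / 2 / 2 ^ n) ε := hasSum_geometric_two' ε
            have h7 : (fun n : ℕ => ε / 2 ^ (n + 1)) = fun n : ℕ => ε / 2 / 2 ^ n := by
              funext n; rw [pow_succ]; field_simp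
            rw [← h7] at h6
            rw [← ENNReal.ofReal_tsum_of_nonneg (fun n => by positivity) h6.summable, h6.tsum_eq]
  · left
    push Not at hA
    obtain ⟨c, hc, hA⟩ := hA
    intro w hw
    refine const_of_small (convex_closedBall z r) ?_ w hw z (mem_closedBall_self hrpos.le)
    intro η hη
    obtain ⟨δ, hδ, hmodδ⟩ := hmod (η / c) (by positivity)
    obtain ⟨τ, hτ, hτ1, hτ2⟩ := hA (min δ 1) (by positivity)
    refine ⟨τ, by exact_mod_cast hτ, (hτ1.trans_le (min_le_right _ _)).le, ?_⟩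
    intro u hu v hv huv
    refine (hmodδ u hu v hv (lt_of_le_of_lt huv (hτ1.trans_le (min_le_left _ _)))).trans ?_
    have h2 : nndist u v ≤ τ := by
      rw [← NNReal.coe_le_coe, coe_nndist, dist_eq_norm]; exact huv
    have h3 : (ω (nndist u v) : ℝ) ≤ ω τ := by exact_mod_cast hω.monotone h2
    calc η / c * ω (nndist u v) ≤ η / c * (c * τ) := by gcongr; exact h3.trans hτ2.le
      _ = η * τ := by field_simp

/-- conclusion in terms of the class of subharmonic functions -/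
theorem mem_subharmonic {f : ℂ → ℝ} {G : Set ℂ} (hG : IsOpen G) (hf : ContDiffOn ℝ 1 f G)
    {E : Set ℝ} (hloc : LocalHyp f E G)
    (h : ∃ G' : Set ℂ, IsOpen G' ∧ G' ⊆ G ∧ f ∈ Subharmonic G' ∧ f '' (G \ G') ⊆ E) :
    f ∈ Subharmonic G := by
  obtain ⟨G', hG', hG'G, hsub, hE⟩ := h
  have hm : SubMean f G' := fun c r hr hcl => (hsub.2 c r hr hcl).2
  have hSM := subMean_of_localHyp hG hf hG' hG'G hm (E := E)
    (fun z hz hz' => hE ⟨z, ⟨hz, hz'⟩, rfl⟩) hloc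
  refine ⟨hf.continuousOn.upperSemicontinuousOn, fun c r hr hcl => ⟨?_, hSM c r hr hcl⟩⟩
  apply ContinuousOn.circleIntegrable hr.le
  exact hf.continuousOn.mono (sphere_subset_closedBall.trans hcl)

end Pool.Agent.Lib.MP_c751e8_an
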